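import Pool.Agent.H94.AA.CRT

set_option autoImplicit false

/-!
# [H94 AA BOX] Pairs of polynomials with coefficients in a box

For a commutative ring `R` the polynomials of degree at most `d` are in bijection with `Fin (d + 1) → R` (`f ↦ fun i => f.coeff i`; inverse `∑ i, monomial i (x i)`, or `Polynomial.degreeLTEquiv`, `Polynomial.ofFn`), so the pairs are in bijection with `I → R`, `I = Fin (d + 1) ⊕ Fin (d + 1)`, `card I = 2 (d + 1)`.
* `box`: `crt` for this `I`, with `Bad' p g = Bad p (polynomial of g ∘ inl) (polynomial of g ∘ inr)`; the reduction of the polynomials is the reduction of the coefficients (`coeff_map`).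
* `box_card`: the case `S = ∅`, `Bad` arbitrary.
* `box_mono`: for `N' ≤ N` the pairs of the smaller box are pairs of the larger box.
-/

namespace Pool.Agent.H94.AA

open Polynomial

/-- the coefficients in the degrees `0, …, d` are between `1` and `N`, the others are zero -/
def Box (N d : ℕ) (f : ℤ[X]) : Prop := f.natDegree ≤ d ∧ ∀ i ≤ d, 1 ≤ f.coeff i ∧ f.coeff i ≤ N

/-- the polynomial with given coefficients -/
private noncomputable def bpol {R : Type} [CommRing R] {d : ℕ} (x : Fin (d + 1) → R) : R[X] :=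
  ∑ i : Fin (d + 1), monomial (i : ℕ) (x i)

private theorem bpol_coeff {R : Type} [CommRing R] {d : ℕ} (x : Fin (d + 1) → R) (j : Fin (d + 1)) :
    (bpol x).coeff (j : ℕ) = x j := by
  unfold bpol
  rw [finsetSum_coeff]
  rw [Finset.sum_eq_single j]
  · rw [coeff_monomial, if_pos rfl]
  · intro i _ hi
    rw [coeff_monomial, if_neg]
    intro h
    exact hi (Fin.ext h)
  · intro h
    exact absurd (Finset.mem_univ j) h

private theorem bpol_deg {R : Type} [CommRing R] {d : ℕ} (x : Fin (d + 1) → R) :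
    (bpol x).natDegree ≤ d := by
  unfold bpol
  refine natDegree_sum_le_of_forall_le _ _ (fun i _ => ?_)
  exact (natDegree_monomial_le _).trans (Nat.lt_succ_iff.mp i.2)

private theorem bpol_self {R : Type} [CommRing R] {d : ℕ} {f : R[X]} (hf : f.natDegree ≤ d) :
    bpol (fun i : Fin (d + 1) => f.coeff (i : ℕ)) = f := by
  ext j
  by_cases hj : j < d + 1
  · exact bpol_coeff (fun i : Fin (d + 1) => f.coeff (i : ℕ)) ⟨j, hj⟩
  · rw [coeff_eq_zero_of_natDegree_lt (lt_of_le_of_lt hf (by omega)),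
      coeff_eq_zero_of_natDegree_lt (lt_of_le_of_lt (bpol_deg _) (by omega))]

private theorem bpol_map {R R' : Type} [CommRing R] [CommRing R'] (φ : R →+* R') {d : ℕ}
    (x : Fin (d + 1) → R) : (bpol x).map φ = bpol (fun i => φ (x i)) := by
  unfold bpol
  rw [Polynomial.map_sum]
  refine Finset.sum_congr rfl fun i _ => ?_
  rw [map_monomial]

private theorem bgen {R : Type} [CommRing R] (d : ℕ) (P : R[X] → R[X] → Prop) :
    Nat.card {q : R[X] × R[X] // q.1.natDegree ≤ d ∧ q.2.natDegree ≤ d ∧ P q.1 q.2} =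
      Nat.card {f : Fin (d + 1) ⊕ Fin (d + 1) → R //
        P (bpol fun i => f (Sum.inl i)) (bpol fun i => f (Sum.inr i))} := by
  refine Nat.card_congr ⟨fun q => ⟨Sum.elim (fun i => q.1.1.coeff (i : ℕ))
      (fun i => q.1.2.coeff (i : ℕ)), ?_⟩,
    fun f => ⟨(bpol fun i => f.1 (Sum.inl i), bpol fun i => f.1 (Sum.inr i)), bpol_deg _, bpol_deg _,
      f.2⟩, ?_, ?_⟩
  · obtain ⟨⟨a, b⟩, h1, h2, h3⟩ := q
    show P (bpol fun i : Fin (d + 1) => a.coeff (i : ℕ)) (bpol fun i : Fin (d + 1) => b.coeff (i : ℕ))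
    rw [bpol_self h1, bpol_self h2]
    exact h3
  · rintro ⟨⟨a, b⟩, h1, h2, h3⟩
    apply Subtype.ext
    show (bpol fun i : Fin (d + 1) => a.coeff (i : ℕ), bpol fun i : Fin (d + 1) => b.coeff (i : ℕ)) =
      (a, b)
    rw [bpol_self h1, bpol_self h2]
  · rintro ⟨f, hf⟩
    apply Subtype.ext
    funext i
    cases i with
    | inl i => exact bpol_coeff (fun i => f (Sum.inl i)) i
    | inr i => exact bpol_coeff (fun i => f (Sum.inr i)) i

private theorem box_iff {N d : ℕ} (x : Fin (d + 1) → ℤ) :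
    Box N d (bpol x) ↔ ∀ i, 1 ≤ x i ∧ x i ≤ N := by
  constructor
  · rintro ⟨-, h⟩ i
    have h1 := h (i : ℕ) (Nat.lt_succ_iff.mp i.2)
    rw [bpol_coeff] at h1
    exact h1
  · intro h
    refine ⟨bpol_deg x, fun i hi => ?_⟩
    have h1 := bpol_coeff x ⟨i, Nat.lt_succ_of_le hi⟩
    have h2 : (bpol x).coeff i = x ⟨i, Nat.lt_succ_of_le hi⟩ := h1
    rw [h2]
    exact h _

theorem box (S : Finset ℕ) (hS : ∀ p ∈ S, p.Prime) {N : ℕ} (hN : 0 < N) (hd : ∀ p ∈ S, p ∣ N)
    (d : ℕ) (Bad : (p : ℕ) → (ZMod p)[X] → (ZMod p)[X] → Prop) :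
    (Nat.card {q : ℤ[X] × ℤ[X] // Box N d q.1 ∧ Box N d q.2 ∧
        ∀ p ∈ S, Bad p (q.1.map (Int.castRingHom (ZMod p))) (q.2.map (Int.castRingHom (ZMod p)))} : ℝ) =
      (N : ℝ) ^ (2 * (d + 1)) * ∏ p ∈ S,
        ((Nat.card {g : (ZMod p)[X] × (ZMod p)[X] // g.1.natDegree ≤ d ∧ g.2.natDegree ≤ d ∧
          Bad p g.1 g.2} : ℝ) / (p : ℝ) ^ (2 * (d + 1))) := by
  have hI : Fintype.card (Fin (d + 1) ⊕ Fin (d + 1)) = 2 * (d + 1) := by
    rw [Fintype.card_sum, Fintype.card_fin]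
    ring
  have h1 := crt (I := Fin (d + 1) ⊕ Fin (d + 1)) S hS hN hd
    (fun p g => Bad p (bpol fun i => g (Sum.inl i)) (bpol fun i => g (Sum.inr i)))
  rw [hI] at h1
  have h2 : Nat.card {q : ℤ[X] × ℤ[X] // Box N d q.1 ∧ Box N d q.2 ∧
        ∀ p ∈ S, Bad p (q.1.map (Int.castRingHom (ZMod p))) (q.2.map (Int.castRingHom (ZMod p)))} =
      Nat.card {q : ℤ[X] × ℤ[X] // q.1.natDegree ≤ d ∧ q.2.natDegree ≤ d ∧
        (Box N d q.1 ∧ Box N d q.2 ∧ ∀ p ∈ S, Bad p (q.1.map (Int.castRingHom (ZMod p)))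
          (q.2.map (Int.castRingHom (ZMod p))))} :=
    Nat.card_congr (Equiv.subtypeEquivRight fun q =>
      ⟨fun h => ⟨h.1.1, h.2.1.1, h⟩, fun h => h.2.2⟩)
  have h3 := bgen (R := ℤ) d (fun a b => Box N d a ∧ Box N d b ∧
    ∀ p ∈ S, Bad p (a.map (Int.castRingHom (ZMod p))) (b.map (Int.castRingHom (ZMod p))))
  have h4 : Nat.card {f : Fin (d + 1) ⊕ Fin (d + 1) → ℤ //
        Box N d (bpol fun i => f (Sum.inl i)) ∧ Box N d (bpol fun i => f (Sum.inr i)) ∧
        ∀ p ∈ S, Bad p ((bpol fun i => f (Sum.inl i)).map (Int.castRingHom (ZMod p)))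
          ((bpol fun i => f (Sum.inr i)).map (Int.castRingHom (ZMod p)))} =
      Nat.card {f : Fin (d + 1) ⊕ Fin (d + 1) → ℤ // (∀ i, 1 ≤ f i ∧ f i ≤ N) ∧
        ∀ p ∈ S, Bad p (bpol fun i => ((f (Sum.inl i) : ℤ) : ZMod p))
          (bpol fun i => ((f (Sum.inr i) : ℤ) : ZMod p))} := by
    refine Nat.card_congr (Equiv.subtypeEquivRight fun f => ?_)
    rw [box_iff, box_iff]
    constructor
    · rintro ⟨ha, hb, hc⟩
      refine ⟨fun i => ?_, fun p hp => ?_⟩
      · cases i with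
        | inl i => exact ha i
        | inr i => exact hb i
      · have h5 := hc p hp
        rw [bpol_map, bpol_map] at h5
        exact h5
    · rintro ⟨ha, hc⟩
      refine ⟨fun i => ha _, fun i => ha _, fun p hp => ?_⟩
      rw [bpol_map, bpol_map]
      exact hc p hp
  rw [h2, h3, h4]
  refine h1.trans ?_
  congr 1
  refine Finset.prod_congr rfl fun p hp => ?_
  rw [bgen (R := ZMod p) d (fun a b => Bad p a b)]

theorem box_card (N d : ℕ) :
    Nat.card {q : ℤ[X] × ℤ[X] // Box N d q.1 ∧ Box N d q.2} = N ^ (2 * (d + 1)) := by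
  rcases Nat.eq_zero_or_pos N with hN | hN
  · subst hN
    rw [zero_pow (by omega)]
    have : IsEmpty {q : ℤ[X] × ℤ[X] // Box 0 d q.1 ∧ Box 0 d q.2} := by
      refine ⟨fun q => ?_⟩
      have h1 := q.2.1.2 0 (Nat.zero_le d)
      have h2 := h1.1.trans h1.2
      norm_num at h2
    exact Nat.card_of_isEmpty
  · have h1 := box ∅ (fun p hp => absurd hp (Finset.notMem_empty p)) hN
      (fun p hp => absurd hp (Finset.notMem_empty p)) d (fun _ _ _ => True)
    rw [Finset.prod_empty, mul_one] at h1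
    have h2 : Nat.card {q : ℤ[X] × ℤ[X] // Box N d q.1 ∧ Box N d q.2} =
        Nat.card {q : ℤ[X] × ℤ[X] // Box N d q.1 ∧ Box N d q.2 ∧ ∀ p ∈ (∅ : Finset ℕ), True} :=
      Nat.card_congr (Equiv.subtypeEquivRight fun q =>
        ⟨fun h => ⟨h.1, h.2, fun _ _ => trivial⟩, fun h => ⟨h.1, h.2.1⟩⟩)
    rw [h2]
    exact_mod_cast h1

theorem box_fin (N d : ℕ) : {q : ℤ[X] × ℤ[X] | Box N d q.1 ∧ Box N d q.2}.Finite := by
  rcases Nat.eq_zero_or_pos N with hN | hN
  · subst hN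
    have : {q : ℤ[X] × ℤ[X] | Box 0 d q.1 ∧ Box 0 d q.2} = ∅ := by
      rw [Set.eq_empty_iff_forall_notMem]
      intro q hq
      have h1 := hq.1.2 0 (Nat.zero_le d)
      have h2 := h1.1.trans h1.2
      norm_num at h2
    rw [this]
    exact Set.finite_empty
  · have h1 : Nat.card {q : ℤ[X] × ℤ[X] // Box N d q.1 ∧ Box N d q.2} ≠ 0 := by
      rw [box_card]
      positivity
    exact Set.finite_coe_iff.mp (Nat.finite_of_card_ne_zero h1)

theorem pol_card {F : Type} [Field F] [Finite F] (d : ℕ) :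
    Nat.card {g : F[X] × F[X] // g.1.natDegree ≤ d ∧ g.2.natDegree ≤ d} =
      Nat.card F ^ (2 * (d + 1)) ∧
    {g : F[X] × F[X] | g.1.natDegree ≤ d ∧ g.2.natDegree ≤ d}.Finite := by
  have h1 := bgen (R := F) d (fun _ _ => True)
  have h2 : Nat.card {g : F[X] × F[X] // g.1.natDegree ≤ d ∧ g.2.natDegree ≤ d} =
      Nat.card {g : F[X] × F[X] // g.1.natDegree ≤ d ∧ g.2.natDegree ≤ d ∧ True} :=
    Nat.card_congr (Equiv.subtypeEquivRight fun q =>
      ⟨fun h => ⟨h.1, h.2, trivial⟩, fun h => ⟨h.1, h.2.1⟩⟩)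
  have h3 : Nat.card {f : Fin (d + 1) ⊕ Fin (d + 1) → F // True} = Nat.card F ^ (2 * (d + 1)) := by
    rw [Nat.card_congr (Equiv.subtypeUnivEquiv fun _ => trivial), Nat.card_fun,
      Nat.card_eq_fintype_card (α := Fin (d + 1) ⊕ Fin (d + 1)), Fintype.card_sum, Fintype.card_fin]
    congr 1
    ring
  have h4 : Nat.card {g : F[X] × F[X] // g.1.natDegree ≤ d ∧ g.2.natDegree ≤ d} =
      Nat.card F ^ (2 * (d + 1)) := by
    rw [h2, h1, h3]
  refine ⟨h4, ?_⟩
  have h5 : Nat.card {g : F[X] × F[X] // g.1.natDegree ≤ d ∧ g.2.natDegree ≤ d} ≠ 0 := by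
    rw [h4]
    have : 0 < Nat.card F := Nat.card_pos
    positivity
  exact Set.finite_coe_iff.mp (Nat.finite_of_card_ne_zero h5)

end Pool.Agent.H94.AA
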