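import Pool.Agent.H3.SD.RC

set_option autoImplicit false

/-!
# [H94 AA BU] Few polynomials are not squarefree, uniformly in `q`

`Az 1 n z = 1 * (X ^ n + z) + 1` is monic of degree `n`.  The same proofs as `bad1`, `bad2` of `H3/SD/BAD.lean` for `m = 1` (`natDegree 1 = 0`, `isCoprime_one_left`) and `D = 0`, but with `∑_{1 ≤ k ≤ N} A / q ^ k ≤ A / (q - 1)` instead of `≤ A / q ^ D`
(by induction `∑_{k = 1} ^ N A / q ^ k ≤ A / (q - 1) - A / (q ^ N (q - 1))`).  Every prime has degree `≥ 1 > 0`, so the lemma `bad_deg` is not needed.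
* `bu1`: `∑_{1 ≤ k ≤ n / 2} q ^ k (q ^ n / q ^ (2 k) + 1) ≤ q ^ n / (q - 1) + 2 q ^ (n / 2)`.
* `bu2`: `∑_{1 ≤ k ≤ n} q ^ k (q ^ (2 n) / q ^ (2 k) + 1) ≤ q ^ (2 n) / (q - 1) + 2 q ^ n`.
-/

namespace Pool.Agent.H94.AA

open Polynomial
open Pool.Agent.H94.PC
open Pool.Agent.H3.SD

variable {F : Type} [Field F] [Finite F] {n : ℕ}

private theorem bu_geo {q A : ℝ} (hq : 2 ≤ q) (hA : 0 ≤ A) (N : ℕ) :
    ∑ k ∈ Finset.Icc (0 + 1) N, A / q ^ k ≤ A / (q - 1) := by
  have hq0 : 0 < q := by linarith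
  have hq1 : 0 < q - 1 := by linarith
  have h1 : ∑ k ∈ Finset.Icc (0 + 1) N, A / q ^ k ≤ A / (q - 1) - A / (q ^ N * (q - 1)) := by
    induction N with
    | zero =>
      rw [Finset.Icc_eq_empty (by omega), Finset.sum_empty, pow_zero, one_mul, sub_self]
    | succ N ih =>
      rw [Finset.sum_Icc_succ_top (by omega)]
      have h2 : A / (q - 1) - A / (q ^ N * (q - 1)) + A / q ^ (N + 1) =
          A / (q - 1) - A / (q ^ (N + 1) * (q - 1)) := by
        rw [pow_succ]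
        have h3 : q ^ N ≠ 0 := by positivity
        have h4 : q - 1 ≠ 0 := hq1.ne'
        field_simp
        ring
      linarith
  have : 0 ≤ A / (q ^ N * (q - 1)) := by positivity
  linarith

private theorem bu_sum {q : ℕ} {A : ℝ} (hq : 2 ≤ q) (hA : 0 ≤ A) (N : ℕ) :
    ∑ k ∈ Finset.Icc (0 + 1) N, (A / (q : ℝ) ^ k + (q : ℝ) ^ k) ≤
      A / ((q : ℝ) - 1) + 2 * (q : ℝ) ^ N := by
  rw [Finset.sum_add_distrib]
  have h1 : (2 : ℝ) ≤ q := by exact_mod_cast hq
  have h2 : ∑ k ∈ Finset.Icc (0 + 1) N, (q : ℝ) ^ k ≤ 2 * (q : ℝ) ^ N := by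
    have h3 : ∑ k ∈ Finset.Icc (0 + 1) N, (q : ℝ) ^ k ≤ ∑ k ∈ Finset.range (N + 1), (q : ℝ) ^ k := by
      refine Finset.sum_le_sum_of_subset_of_nonneg ?_ fun k _ _ => by positivity
      intro k hk
      rw [Finset.mem_Icc] at hk
      rw [Finset.mem_range]
      omega
    refine h3.trans ?_
    exact_mod_cast H74.ST.sum_pow_le hq N
  exact add_le_add (bu_geo h1 hA N) h2

open Classical in
/-- the number of the multiples of `Q` -/
private theorem bu_card {Q : F[X]} (hQ : Q.Monic) (hc : IsCoprime (1 : F[X]) Q) :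
    (((Lt F n).filter fun z => Q ∣ Az (1 : F[X]) n z).card : ℝ) ≤
        (Nat.card F : ℝ) ^ n / (Nat.card F : ℝ) ^ Q.natDegree ∨
      (((Lt F n).filter fun z => Q ∣ Az (1 : F[X]) n z).card : ℝ) ≤ 1 := by
  have hq : (0 : ℝ) < Nat.card F := by exact_mod_cast Nat.card_pos
  rcases le_or_gt Q.natDegree n with h | h
  · left
    rw [rc_card hQ hc h]
    push_cast
    rw [le_div_iff₀ (by positivity), ← pow_add, Nat.sub_add_cancel h]
  · right
    exact_mod_cast rc_one hQ hc h.le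

open Classical in
theorem bu1 (hn : 0 < n) :
    (((Lt F n).filter fun z => ¬ Squarefree (Az (1 : F[X]) n z)).card : ℝ) ≤
      (Nat.card F : ℝ) ^ n / ((Nat.card F : ℝ) - 1) + 2 * (Nat.card F : ℝ) ^ (n / 2) := by
  have hq2 : 2 ≤ Nat.card F := Finite.one_lt_card
  have hq : (0 : ℝ) < Nat.card F := by exact_mod_cast Nat.card_pos
  have hq1 : (1 : ℝ) ≤ Nat.card F := by
    have : 1 ≤ Nat.card F := by omega
    exact_mod_cast this
  have hsub : ((Lt F n).filter fun z => ¬ Squarefree (Az (1 : F[X]) n z)) ⊆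
      (Finset.Icc (0 + 1) (n / 2)).biUnion fun k => (Pr F k).biUnion fun r =>
        (Lt F n).filter fun z => r ^ 2 ∣ Az (1 : F[X]) n z := by
    intro z hz
    rw [Finset.mem_filter] at hz
    obtain ⟨hz, hns⟩ := hz
    obtain ⟨hA, hd⟩ := az_mon monic_one hn hz
    unfold Squarefree at hns
    push Not at hns
    obtain ⟨x, hx, hxu⟩ := hns
    obtain ⟨r, hr1, hr2, hr3⟩ := exists_monic_irreducible_factor x hxu
    have h1 : r ^ 2 ∣ Az (1 : F[X]) n z := by
      rw [sq]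
      exact (mul_dvd_mul hr3 hr3).trans hx
    have h2 : 0 < r.natDegree := hr2.natDegree_pos
    have h3 := natDegree_le_of_dvd h1 hA.ne_zero
    rw [hd, hr1.natDegree_pow, natDegree_one, Nat.add_zero] at h3
    rw [Finset.mem_biUnion]
    refine ⟨r.natDegree, Finset.mem_Icc.2 ⟨h2, by omega⟩, ?_⟩
    rw [Finset.mem_biUnion]
    exact ⟨r, mem_Pr.2 ⟨hr1, rfl, hr2⟩, Finset.mem_filter.2 ⟨hz, h1⟩⟩
  have h1 : (((Lt F n).filter fun z => ¬ Squarefree (Az (1 : F[X]) n z)).card : ℝ) ≤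
      ∑ k ∈ Finset.Icc (0 + 1) (n / 2), ∑ r ∈ Pr F k,
        (((Lt F n).filter fun z => r ^ 2 ∣ Az (1 : F[X]) n z).card : ℝ) := by
    have h2 := (Finset.card_le_card hsub).trans (Finset.card_biUnion_le.trans
      (Finset.sum_le_sum fun k _ => Finset.card_biUnion_le))
    exact_mod_cast h2
  refine h1.trans ?_
  refine le_trans (Finset.sum_le_sum fun k hk => ?_)
    (bu_sum (q := Nat.card F) (A := (Nat.card F : ℝ) ^ n) hq2 (by positivity) (n / 2))
  rw [Finset.mem_Icc] at hk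
  have h2 : ∀ r ∈ Pr F k, (((Lt F n).filter fun z => r ^ 2 ∣ Az (1 : F[X]) n z).card : ℝ) ≤
      (Nat.card F : ℝ) ^ n / (Nat.card F : ℝ) ^ (2 * k) + 1 := by
    intro r hr
    have hr' := mem_Pr.1 hr
    have h3 := bu_card (n := n) (Q := r ^ 2) (hr'.1.pow 2) isCoprime_one_left
    rw [hr'.1.natDegree_pow, hr'.2.1] at h3
    have h4 : 0 ≤ (Nat.card F : ℝ) ^ n / (Nat.card F : ℝ) ^ (2 * k) := by positivity
    rcases h3 with h3 | h3 <;> linarith
  refine (Finset.sum_le_sum h2).trans ?_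
  rw [Finset.sum_const, nsmul_eq_mul]
  have h3 : ((Pr F k).card : ℝ) ≤ (Nat.card F : ℝ) ^ k := by exact_mod_cast card_Pr_le k
  refine (mul_le_mul_of_nonneg_right h3 (by positivity)).trans (le_of_eq ?_)
  rw [mul_add, mul_one, two_mul, pow_add]
  congr 1
  field_simp

open Classical in
theorem bu2 (hn : 0 < n) :
    (((Lt F n ×ˢ Lt F n).filter fun p =>
      ¬ IsCoprime (Az (1 : F[X]) n p.1) (Az (1 : F[X]) n p.2)).card : ℝ) ≤
      (Nat.card F : ℝ) ^ (2 * n) / ((Nat.card F : ℝ) - 1) + 2 * (Nat.card F : ℝ) ^ n := by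
  have hq2 : 2 ≤ Nat.card F := Finite.one_lt_card
  have hq : (0 : ℝ) < Nat.card F := by exact_mod_cast Nat.card_pos
  have hsub : ((Lt F n ×ˢ Lt F n).filter fun p =>
      ¬ IsCoprime (Az (1 : F[X]) n p.1) (Az (1 : F[X]) n p.2)) ⊆
      (Finset.Icc (0 + 1) n).biUnion fun k => (Pr F k).biUnion fun r =>
        ((Lt F n).filter fun z => r ∣ Az (1 : F[X]) n z) ×ˢ
          ((Lt F n).filter fun z => r ∣ Az (1 : F[X]) n z) := by
    intro p hp
    rw [Finset.mem_filter, Finset.mem_product] at hp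
    obtain ⟨⟨hx, hy⟩, hnc⟩ := hp
    obtain ⟨hA, hd⟩ := az_mon monic_one hn hx
    obtain ⟨hB, _⟩ := az_mon monic_one hn hy
    have h0 : ¬ Disjoint (pf (Az (1 : F[X]) n p.1)) (pf (Az (1 : F[X]) n p.2)) :=
      fun h => hnc (isCoprime_of_disjoint hA hB h)
    rw [Finset.not_disjoint_iff] at h0
    obtain ⟨r, hr1, hr2⟩ := h0
    have hr1' := mem_pf' hr1
    have hr2' := mem_pf' hr2
    have h2 : 0 < r.natDegree := hr1'.2.1.natDegree_pos
    have h3 := natDegree_le_of_dvd hr1'.2.2 hA.ne_zero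
    rw [hd, natDegree_one, Nat.add_zero] at h3
    rw [Finset.mem_biUnion]
    refine ⟨r.natDegree, Finset.mem_Icc.2 ⟨h2, h3⟩, ?_⟩
    rw [Finset.mem_biUnion]
    exact ⟨r, mem_Pr.2 ⟨hr1'.1, rfl, hr1'.2.1⟩, Finset.mem_product.2
      ⟨Finset.mem_filter.2 ⟨hx, hr1'.2.2⟩, Finset.mem_filter.2 ⟨hy, hr2'.2.2⟩⟩⟩
  have h1 : (((Lt F n ×ˢ Lt F n).filter fun p =>
      ¬ IsCoprime (Az (1 : F[X]) n p.1) (Az (1 : F[X]) n p.2)).card : ℝ) ≤
      ∑ k ∈ Finset.Icc (0 + 1) n, ∑ r ∈ Pr F k,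
        ((((Lt F n).filter fun z => r ∣ Az (1 : F[X]) n z) ×ˢ
          ((Lt F n).filter fun z => r ∣ Az (1 : F[X]) n z)).card : ℝ) := by
    have h2 := (Finset.card_le_card hsub).trans (Finset.card_biUnion_le.trans
      (Finset.sum_le_sum fun k _ => Finset.card_biUnion_le))
    exact_mod_cast h2
  refine h1.trans ?_
  refine le_trans (Finset.sum_le_sum fun k hk => ?_)
    (bu_sum (q := Nat.card F) (A := (Nat.card F : ℝ) ^ (2 * n)) hq2 (by positivity) n)
  rw [Finset.mem_Icc] at hk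
  have h2 : ∀ r ∈ Pr F k, ((((Lt F n).filter fun z => r ∣ Az (1 : F[X]) n z) ×ˢ
      ((Lt F n).filter fun z => r ∣ Az (1 : F[X]) n z)).card : ℝ) ≤
      ((Nat.card F : ℝ) ^ n / (Nat.card F : ℝ) ^ k) ^ 2 + 1 := by
    intro r hr
    have hr' := mem_Pr.1 hr
    have h3 := bu_card (n := n) (Q := r) hr'.1 isCoprime_one_left
    rw [hr'.2.1] at h3
    rw [Finset.card_product]
    push_cast
    set c : ℝ := (((Lt F n).filter fun z => r ∣ Az (1 : F[X]) n z).card : ℝ) with hc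
    have hc0 : 0 ≤ c := Nat.cast_nonneg _
    have h4 : 0 ≤ (Nat.card F : ℝ) ^ n / (Nat.card F : ℝ) ^ k := by positivity
    rcases h3 with h3 | h3
    · have h5 := mul_le_mul h3 h3 hc0 h4
      rw [sq]
      linarith
    · have h5 := mul_le_mul h3 h3 hc0 zero_le_one
      have h6 := sq_nonneg ((Nat.card F : ℝ) ^ n / (Nat.card F : ℝ) ^ k)
      linarith
  refine (Finset.sum_le_sum h2).trans ?_
  rw [Finset.sum_const, nsmul_eq_mul]
  have h3 : ((Pr F k).card : ℝ) ≤ (Nat.card F : ℝ) ^ k := by exact_mod_cast card_Pr_le k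
  refine (mul_le_mul_of_nonneg_right h3 (by positivity)).trans (le_of_eq ?_)
  rw [mul_add, mul_one, div_pow, ← pow_mul, ← pow_mul, mul_comm n 2, mul_comm k 2, two_mul k,
    pow_add _ k k]
  congr 1
  field_simp

end Pool.Agent.H94.AA
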