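import Mathlib

set_option autoImplicit false

/-!
# [H94 AA PRD] A product over primes

`1 - c / p ≤ exp (- c / p)` (`Real.one_sub_le_exp_neg`, `Real.add_one_le_exp`), and `0 ≤ 1 - c / p` for `c ≤ 1`, `p ≥ 1`, so the product is at most `exp (- c * ∑ p ∈ S, 1 / p)`.
`Nat.Primes.not_summable_one_div`, `not_summable_one_div_on_primes`: the sums over finite sets of primes are unbounded, also after removing the primes `< Q` (finitely many): choose `S` with `c * ∑ ≥ - log ε`.
-/

namespace Pool.Agent.H94.AA

theorem prd {c : ℝ} (hc : 0 < c) (hc1 : c ≤ 1) (Q : ℕ) {ε : ℝ} (hε : 0 < ε) :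
    ∃ S : Finset ℕ, (∀ p ∈ S, p.Prime ∧ Q ≤ p) ∧ ∏ p ∈ S, (1 - c / (p : ℝ)) ≤ ε := by
  classical
  -- the sums are unbounded
  have hun : ∀ M : ℝ, ∃ n : ℕ, M < ∑ p ∈ (Finset.range n).filter Nat.Prime, 1 / (p : ℝ) := by
    intro M
    by_contra hcon
    push Not at hcon
    apply Nat.Primes.not_summable_one_div
    have h1 : Summable (Set.indicator {p : ℕ | p.Prime} fun n : ℕ => (1 : ℝ) / n) := by
      apply summable_of_sum_range_le (c := M)
      · intro n
        exact Set.indicator_nonneg (fun x _ => by positivity) _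
      · intro n
        refine le_trans (le_of_eq ?_) (hcon n)
        rw [Finset.sum_filter]
        refine Finset.sum_congr rfl fun p _ => ?_
        simp only [Set.indicator, Set.mem_setOf_eq]
    exact (summable_subtype_iff_indicator (s := {p : ℕ | p.Prime})
      (f := fun n : ℕ => (1 : ℝ) / n)).2 h1
  obtain ⟨n, hn⟩ := hun (∑ p ∈ (Finset.range Q).filter Nat.Prime, 1 / (p : ℝ) + (-Real.log ε) / c)
  refine ⟨((Finset.range n).filter Nat.Prime).filter (fun p => Q ≤ p), ?_, ?_⟩
  · intro p hp
    rw [Finset.mem_filter, Finset.mem_filter] at hp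
    exact ⟨hp.1.2, hp.2⟩
  · obtain ⟨S, hS⟩ : ∃ S, S = ((Finset.range n).filter Nat.Prime).filter (fun p => Q ≤ p) := ⟨_, rfl⟩
    rw [← hS]
    have hSp : ∀ p ∈ S, p.Prime := by
      intro p hp
      rw [hS, Finset.mem_filter, Finset.mem_filter] at hp
      exact hp.1.2
    have h1 : (-Real.log ε) / c ≤ ∑ p ∈ S, 1 / (p : ℝ) := by
      have h2 : ∑ p ∈ (Finset.range n).filter Nat.Prime, 1 / (p : ℝ) ≤
          ∑ p ∈ S ∪ (Finset.range Q).filter Nat.Prime, 1 / (p : ℝ) := by
        apply Finset.sum_le_sum_of_subset_of_nonneg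
        · intro p hp
          rw [Finset.mem_union]
          by_cases hQ : Q ≤ p
          · left
            rw [hS, Finset.mem_filter]
            exact ⟨hp, hQ⟩
          · right
            rw [Finset.mem_filter, Finset.mem_range] at hp ⊢
            exact ⟨by omega, hp.2⟩
        · intro p _ _
          positivity
      have h3 : ∑ p ∈ S ∪ (Finset.range Q).filter Nat.Prime, 1 / (p : ℝ) ≤
          ∑ p ∈ S, 1 / (p : ℝ) + ∑ p ∈ (Finset.range Q).filter Nat.Prime, 1 / (p : ℝ) := by
        rw [← Finset.sum_union_inter]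
        have : 0 ≤ ∑ p ∈ S ∩ (Finset.range Q).filter Nat.Prime, 1 / (p : ℝ) :=
          Finset.sum_nonneg fun p _ => by positivity
        linarith
      linarith
    have h2 : ∏ p ∈ S, (1 - c / (p : ℝ)) ≤ ∏ p ∈ S, Real.exp (-(c * (1 / (p : ℝ)))) := by
      apply Finset.prod_le_prod
      · intro p hp
        have hp1 : (1 : ℝ) ≤ p := by exact_mod_cast (hSp p hp).one_le
        have : c / p ≤ 1 := by
          rw [div_le_one (by linarith)]
          linarith
        linarith
      · intro p hp
        have h3 := Real.add_one_le_exp (-(c * (1 / (p : ℝ))))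
        have h4 : c / (p : ℝ) = c * (1 / p) := by ring
        rw [h4]
        linarith
    refine h2.trans ?_
    rw [← Real.exp_sum, ← Real.le_log_iff_exp_le hε, Finset.sum_neg_distrib, ← Finset.mul_sum]
    rw [div_le_iff₀ hc] at h1
    linarith

end Pool.Agent.H94.AA
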