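import Pool.Agent.H94.AA.LAW
import Pool.Agent.H94.AA.BOX
import Pool.Agent.H94.AA.PRD

set_option autoImplicit false

/-!
# [H94 AA CNT] Almost all pairs have a good reduction

`law` gives `c`, `Q`; `prd` gives `S`: primes `≥ max Q 3` with `∏ (1 - c / p) ≤ ε / 2`; `N₀ = ∏ p ∈ S, p`; `n₀ = max` over `S` of the `n₀` of `law` for `F = ZMod p` (`(2 : ZMod p) ≠ 0` for `p ≥ 3`, `Nat.card (ZMod p) = p`, classical `DecidableEq`).
* `N₀ ∣ N`: the pairs of the box without a good reduction at the primes of `S` are counted by `box` with `Bad p g₁ g₂ = ¬ (∃ _ : Fact p.Prime, Gd d g₁ g₂)`: the number of `Bad` pairs over `ZMod p` of degree `≤ d` is `p ^ (2 (d + 1))` minus the number of `Gd` pairs (`pol_card`; `Gd` pairs have degree `d`), so each factor is `≤ 1 - c / p`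
  and the number is at most `N ^ (2 (d + 1)) ε / 2`; the complement in the box (`box_card`, `box_fin`) has at least `(1 - ε / 2) N ^ (2 (d + 1))` elements.
* `M (n + 1) ≤ N`, `M = ⌈8 N₀ / ε⌉`: `N = N₀ k + s`, `s < N₀`, `N' = N₀ k > 0`: the box of `N'` is contained in the box of `N` and `(N' / N) ^ (2 (d + 1)) ≥ (1 - N₀ / N) ^ (4 (n + 1)) ≥ 1 - 4 (n + 1) N₀ / N ≥ 1 - ε / 2` (Bernoulli `one_add_mul_le_pow`), and `(1 - ε / 2) ^ 2 ≥ 1 - ε` (for `ε ≤ 1`; for `ε > 1` the claim is trivial).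
-/

namespace Pool.Agent.H94.AA

open Polynomial

private theorem box_mono {N' N d : ℕ} (h : N' ≤ N) {f : ℤ[X]} (hf : Box N' d f) : Box N d f :=
  ⟨hf.1, fun i hi => ⟨(hf.2 i hi).1, (hf.2 i hi).2.trans (by exact_mod_cast h)⟩⟩

open Classical in
/-- few pairs over `ZMod p` are not good -/
private theorem fac {p : ℕ} [Fact p.Prime] {c : ℝ} {d : ℕ}
    (h : c / (p : ℝ) * (p : ℝ) ^ (2 * (d + 1)) ≤
      (Nat.card {g : (ZMod p)[X] × (ZMod p)[X] // Gd d g.1 g.2} : ℝ)) :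
    (Nat.card {g : (ZMod p)[X] × (ZMod p)[X] // g.1.natDegree ≤ d ∧ g.2.natDegree ≤ d ∧
      ¬ ∃ _ : Fact p.Prime, Gd d g.1 g.2} : ℝ) / (p : ℝ) ^ (2 * (d + 1)) ≤ 1 - c / (p : ℝ) := by
  have hp0 : (0 : ℝ) < (p : ℝ) := by
    have := (Fact.out : p.Prime).pos
    exact_mod_cast this
  obtain ⟨h1, h2⟩ := pol_card (F := ZMod p) d
  rw [Nat.card_zmod] at h1
  obtain ⟨A, hA⟩ : ∃ A : Set ((ZMod p)[X] × (ZMod p)[X]), A = {g | g.1.natDegree ≤ d ∧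
    g.2.natDegree ≤ d ∧ ¬ ∃ _ : Fact p.Prime, Gd d g.1 g.2} := ⟨_, rfl⟩
  obtain ⟨B, hB⟩ : ∃ B : Set ((ZMod p)[X] × (ZMod p)[X]), B = {g | Gd d g.1 g.2} := ⟨_, rfl⟩
  obtain ⟨T, hT⟩ : ∃ T : Set ((ZMod p)[X] × (ZMod p)[X]), T = {g | g.1.natDegree ≤ d ∧
    g.2.natDegree ≤ d} := ⟨_, rfl⟩
  have hTf : T.Finite := by rw [hT]; exact h2
  have hAT : A ⊆ T := by
    rw [hA, hT]
    intro g hg
    exact ⟨hg.1, hg.2.1⟩
  have hBT : B ⊆ T := by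
    rw [hB, hT]
    intro g hg
    have hg' : Gd d g.1 g.2 := hg
    exact ⟨hg'.dA.le, hg'.dB.le⟩
  have hdis : Disjoint A B := by
    rw [Set.disjoint_left, hA, hB]
    intro g hg hg'
    exact hg.2.2 ⟨inferInstance, hg'⟩
  have h3 : A.ncard + B.ncard ≤ T.ncard := by
    rw [← Set.ncard_union_eq hdis (hTf.subset hAT) (hTf.subset hBT)]
    exact Set.ncard_le_ncard (Set.union_subset hAT hBT) hTf
  have h4 : T.ncard = p ^ (2 * (d + 1)) := by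
    rw [← h1, hT]; rfl
  have h5 : Nat.card {g : (ZMod p)[X] × (ZMod p)[X] // g.1.natDegree ≤ d ∧ g.2.natDegree ≤ d ∧
      ¬ ∃ _ : Fact p.Prime, Gd d g.1 g.2} = A.ncard := by rw [hA]; rfl
  have h6 : Nat.card {g : (ZMod p)[X] × (ZMod p)[X] // Gd d g.1 g.2} = B.ncard := by rw [hB]; rfl
  rw [h6] at h
  rw [h5, div_le_iff₀ (by positivity), sub_mul, one_mul]
  rw [h4] at h3
  have h7 : (A.ncard : ℝ) + (B.ncard : ℝ) ≤ (p : ℝ) ^ (2 * (d + 1)) := by exact_mod_cast h3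
  linarith

open Classical in
private def GS (N₀ N d : ℕ) : Set (ℤ[X] × ℤ[X]) := {q | Box N d q.1 ∧ Box N d q.2 ∧
  ∃ p, p ∣ N₀ ∧ p ≠ 2 ∧ ∃ _ : Fact p.Prime, Gd d
    (q.1.map (Int.castRingHom (ZMod p))) (q.2.map (Int.castRingHom (ZMod p)))}

open Classical in
private def KS (S : Finset ℕ) (N d : ℕ) : Set (ℤ[X] × ℤ[X]) := {q | Box N d q.1 ∧ Box N d q.2 ∧
  ∀ p ∈ S, ¬ ∃ _ : Fact p.Prime, Gd d
    (q.1.map (Int.castRingHom (ZMod p))) (q.2.map (Int.castRingHom (ZMod p)))}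

open Classical in
/-- the first case -/
private theorem mainA {S : Finset ℕ} (hS : ∀ p ∈ S, p.Prime ∧ 3 ≤ p) {c ε : ℝ}
    (hc1 : c ≤ 1) (hprd : ∏ p ∈ S, (1 - c / (p : ℝ)) ≤ ε / 2) {d : ℕ}
    (hgd : ∀ p ∈ S, ∀ _ : Fact p.Prime, c / (p : ℝ) * (p : ℝ) ^ (2 * (d + 1)) ≤
      (Nat.card {g : (ZMod p)[X] × (ZMod p)[X] // Gd d g.1 g.2} : ℝ))
    {N₀ N : ℕ} (hN₀ : N₀ = ∏ p ∈ S, p) (hN : 0 < N) (hd : N₀ ∣ N) :
    (1 - ε / 2) * (N : ℝ) ^ (2 * (d + 1)) ≤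
        (Nat.card {q : ℤ[X] × ℤ[X] // Box N d q.1 ∧ Box N d q.2 ∧
          ∃ p, p ∣ N₀ ∧ p ≠ 2 ∧ ∃ _ : Fact p.Prime, Gd d
            (q.1.map (Int.castRingHom (ZMod p))) (q.2.map (Int.castRingHom (ZMod p)))} : ℝ) := by
  have hSd : ∀ p ∈ S, p ∣ N₀ := by
    intro p hp
    rw [hN₀]
    exact Finset.dvd_prod_of_mem _ hp
  obtain ⟨G, hG⟩ : ∃ G : Set (ℤ[X] × ℤ[X]), G = GS N₀ N d := ⟨_, rfl⟩
  obtain ⟨K, hK⟩ : ∃ K : Set (ℤ[X] × ℤ[X]), K = KS S N d := ⟨_, rfl⟩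
  obtain ⟨T, hT⟩ : ∃ T : Set (ℤ[X] × ℤ[X]), T = {q | Box N d q.1 ∧ Box N d q.2} := ⟨_, rfl⟩
  have hTf : T.Finite := by rw [hT]; exact box_fin N d
  have hGT : G ⊆ T := by
    rw [hG, hT]
    intro q hq
    exact ⟨hq.1, hq.2.1⟩
  have hKT : K ⊆ T := by
    rw [hK, hT]
    intro q hq
    exact ⟨hq.1, hq.2.1⟩
  have hTGK : T ⊆ G ∪ K := by
    intro q hq
    rw [hT] at hq
    by_cases h : ∀ p ∈ S, ¬ ∃ _ : Fact p.Prime, Gd d
            (q.1.map (Int.castRingHom (ZMod p))) (q.2.map (Int.castRingHom (ZMod p)))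
    · right
      rw [hK]
      exact ⟨hq.1, hq.2, h⟩
    · left
      push Not at h
      obtain ⟨p, hp, h2, h3⟩ := h
      rw [hG]
      refine ⟨hq.1, hq.2, p, hSd p hp, ?_, h2, h3⟩
      have := (hS p hp).2
      omega
  have h1 : T.ncard ≤ G.ncard + K.ncard :=
    (Set.ncard_le_ncard hTGK ((hTf.subset hGT).union (hTf.subset hKT))).trans
      (Set.ncard_union_le _ _)
  have h2 : T.ncard = N ^ (2 * (d + 1)) := by
    rw [← box_card N d, hT]; rfl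
  have h3 : (K.ncard : ℝ) ≤ (N : ℝ) ^ (2 * (d + 1)) * (ε / 2) := by
    have h4 := box S (fun p hp => (hS p hp).1) hN (fun p hp => (hSd p hp).trans hd) d
      (fun p g₁ g₂ => ¬ ∃ _ : Fact p.Prime, Gd d g₁ g₂)
    have h5 : Nat.card {q : ℤ[X] × ℤ[X] // Box N d q.1 ∧ Box N d q.2 ∧
        ∀ p ∈ S, ¬ ∃ _ : Fact p.Prime, Gd d
            (q.1.map (Int.castRingHom (ZMod p))) (q.2.map (Int.castRingHom (ZMod p)))} =
          K.ncard := by rw [hK]; rfl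
    rw [← h5]
    refine h4.le.trans ?_
    refine mul_le_mul_of_nonneg_left (le_trans ?_ hprd) (by positivity)
    refine Finset.prod_le_prod (fun p hp => by positivity) (fun p hp => ?_)
    haveI : Fact p.Prime := ⟨(hS p hp).1⟩
    exact fac (hgd p hp inferInstance)
  have h6 : (N : ℝ) ^ (2 * (d + 1)) ≤ (G.ncard : ℝ) + (K.ncard : ℝ) := by
    rw [h2] at h1
    exact_mod_cast h1
  have h7 : Nat.card {q : ℤ[X] × ℤ[X] // Box N d q.1 ∧ Box N d q.2 ∧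
          ∃ p, p ∣ N₀ ∧ p ≠ 2 ∧ ∃ _ : Fact p.Prime, Gd d
            (q.1.map (Int.castRingHom (ZMod p))) (q.2.map (Int.castRingHom (ZMod p)))} =
      G.ncard := by rw [hG]; rfl
  rw [h7]
  linarith

/-- Bernoulli -/
private theorem bern {N N' N₀ n : ℕ} {ε : ℝ} (hε : 0 < ε) (hε1 : ε ≤ 1) (hN : 0 < N)
    (h1 : N < N' + N₀) (h2 : 8 * (N₀ : ℝ) / ε * (n + 1) ≤ N) :
    (1 - ε) * (N : ℝ) ^ (2 * (2 * n + 2)) ≤ (1 - ε / 2) * (N' : ℝ) ^ (2 * (2 * n + 2)) := by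
  have hNr : (0 : ℝ) < N := by exact_mod_cast hN
  have h3 : (4 * (n : ℝ) + 4) * ((N₀ : ℝ) / N) ≤ ε / 2 := by
    rw [mul_div_assoc', div_le_iff₀ hNr]
    have h4 : 8 * (N₀ : ℝ) * (n + 1) ≤ N * ε := by
      have h5 : 8 * (N₀ : ℝ) / ε * (n + 1) = 8 * (N₀ : ℝ) * (n + 1) / ε := by ring
      rw [h5, div_le_iff₀ hε] at h2
      exact h2
    nlinarith
  have hx0 : (0 : ℝ) ≤ (N₀ : ℝ) / N := by positivity
  have hn0 : (0 : ℝ) ≤ (n : ℝ) := Nat.cast_nonneg n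
  have hx1 : (N₀ : ℝ) / N ≤ 1 := by nlinarith
  have h6 : (1 : ℝ) - ε / 2 ≤ (1 - (N₀ : ℝ) / N) ^ (2 * (2 * n + 2)) := by
    have h7 := one_add_mul_le_pow (a := -((N₀ : ℝ) / N)) (by linarith) (2 * (2 * n + 2))
    rw [← sub_eq_add_neg] at h7
    refine le_trans ?_ h7
    push_cast
    nlinarith
  have h8 : (1 - (N₀ : ℝ) / N) * N ≤ N' := by
    have h9 : (1 - (N₀ : ℝ) / N) * N = N - N₀ := by field_simp
    rw [h9]
    have h10 : (N : ℝ) < (N' : ℝ) + (N₀ : ℝ) := by exact_mod_cast h1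
    linarith
  have h11 : (1 - ε / 2) * (N : ℝ) ^ (2 * (2 * n + 2)) ≤ (N' : ℝ) ^ (2 * (2 * n + 2)) := by
    calc (1 - ε / 2) * (N : ℝ) ^ (2 * (2 * n + 2))
        ≤ (1 - (N₀ : ℝ) / N) ^ (2 * (2 * n + 2)) * (N : ℝ) ^ (2 * (2 * n + 2)) :=
          mul_le_mul_of_nonneg_right h6 (by positivity)
      _ = ((1 - (N₀ : ℝ) / N) * N) ^ (2 * (2 * n + 2)) := by rw [mul_pow]
      _ ≤ (N' : ℝ) ^ (2 * (2 * n + 2)) :=
          pow_le_pow_left₀ (mul_nonneg (by linarith) hNr.le) h8 _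
  have h12 := mul_le_mul_of_nonneg_left h11 (show (0 : ℝ) ≤ 1 - ε / 2 by linarith)
  refine le_trans ?_ h12
  rw [← mul_assoc]
  refine mul_le_mul_of_nonneg_right ?_ (by positivity)
  nlinarith [sq_nonneg ε]

open Classical in
theorem cnt (ε : ℝ) (hε : 0 < ε) : ∃ N₀ n₀ M : ℕ, 0 < N₀ ∧ ∀ N n : ℕ, 0 < N → n₀ ≤ n →
    (N₀ ∣ N ∨ M * (n + 1) ≤ N) →
      (1 - ε) * (N : ℝ) ^ (2 * (2 * n + 2)) ≤
        (Nat.card {q : ℤ[X] × ℤ[X] // Box N (2 * n + 1) q.1 ∧ Box N (2 * n + 1) q.2 ∧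
          ∃ p, p ∣ N₀ ∧ p ≠ 2 ∧ ∃ _ : Fact p.Prime, Gd (2 * n + 1)
            (q.1.map (Int.castRingHom (ZMod p))) (q.2.map (Int.castRingHom (ZMod p)))} : ℝ) := by
  rcases lt_or_ge 1 ε with hε1 | hε1
  · refine ⟨1, 0, 0, one_pos, fun N n hN _ _ => ?_⟩
    refine le_trans ?_ (Nat.cast_nonneg _)
    exact mul_nonpos_of_nonpos_of_nonneg (by linarith) (by positivity)
  obtain ⟨c, hc, hc1, Q, hQ⟩ := law
  obtain ⟨S, hS, hprd⟩ := prd hc hc1 (max Q 3) (half_pos hε)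
  have hn : ∀ p : ℕ, ∃ n₀ : ℕ, p ∈ S → ∀ _ : Fact p.Prime, ∀ n : ℕ, n₀ ≤ n →
      c / (p : ℝ) * (p : ℝ) ^ (2 * (2 * n + 2)) ≤
        (Nat.card {g : (ZMod p)[X] × (ZMod p)[X] // Gd (2 * n + 1) g.1 g.2} : ℝ) := by
    intro p
    by_cases hp : p ∈ S
    · haveI : Fact p.Prime := ⟨(hS p hp).1⟩
      have hp3 : max Q 3 ≤ p := (hS p hp).2
      have h2 : (2 : ZMod p) ≠ 0 := by
        intro h
        have h3 : ((2 : ℕ) : ZMod p) = 0 := by exact_mod_cast h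
        rw [ZMod.natCast_eq_zero_iff] at h3
        have h4 := Nat.le_of_dvd (by norm_num) h3
        have h5 := (le_max_right Q 3).trans hp3
        omega
      obtain ⟨n₀, hn₀⟩ := hQ (ZMod p) h2 (by
        rw [Nat.card_zmod]; exact (le_max_left Q 3).trans hp3)
      refine ⟨n₀, fun _ _ n hn => ?_⟩
      have h6 := hn₀ n hn
      rw [Nat.card_zmod] at h6
      exact h6
    · exact ⟨0, fun h => absurd h hp⟩
  choose f hf using hn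
  obtain ⟨N₀, hN₀⟩ : ∃ N₀ : ℕ, N₀ = ∏ p ∈ S, p := ⟨_, rfl⟩
  have hN₀pos : 0 < N₀ := by
    rw [hN₀]
    exact Finset.prod_pos fun p hp => (hS p hp).1.pos
  have hmain : ∀ N n : ℕ, 0 < N → S.sup f ≤ n → N₀ ∣ N →
      (1 - ε / 2) * (N : ℝ) ^ (2 * (2 * n + 2)) ≤
        (Nat.card {q : ℤ[X] × ℤ[X] // Box N (2 * n + 1) q.1 ∧ Box N (2 * n + 1) q.2 ∧
          ∃ p, p ∣ N₀ ∧ p ≠ 2 ∧ ∃ _ : Fact p.Prime, Gd (2 * n + 1)
            (q.1.map (Int.castRingHom (ZMod p))) (q.2.map (Int.castRingHom (ZMod p)))} : ℝ) := by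
    intro N n hN hn hd
    exact mainA (fun p hp => ⟨(hS p hp).1, (le_max_right Q 3).trans (hS p hp).2⟩) hc1 hprd
      (fun p hp hpr => hf p hp hpr n ((Finset.le_sup hp).trans hn)) hN₀ hN hd
  refine ⟨N₀, S.sup f, ⌈8 * (N₀ : ℝ) / ε⌉₊, hN₀pos, fun N n hN hn hor => ?_⟩
  rcases hor with hd | hM
  · refine le_trans ?_ (hmain N n hN hn hd)
    refine mul_le_mul_of_nonneg_right ?_ (by positivity)
    linarith
  · have h1 : 8 * (N₀ : ℝ) / ε * (n + 1) ≤ N := by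
      have h2 : 8 * (N₀ : ℝ) / ε ≤ (⌈8 * (N₀ : ℝ) / ε⌉₊ : ℝ) := Nat.le_ceil _
      have h3 : (⌈8 * (N₀ : ℝ) / ε⌉₊ : ℝ) * (n + 1) ≤ N := by exact_mod_cast hM
      refine le_trans (mul_le_mul_of_nonneg_right h2 (by positivity)) h3
    have hN₀r : (0 : ℝ) < N₀ := by exact_mod_cast hN₀pos
    have h4 : N₀ ≤ N := by
      have h5 : (N₀ : ℝ) ≤ 8 * (N₀ : ℝ) / ε * (n + 1) := by
        have h6 : (N₀ : ℝ) ≤ 8 * (N₀ : ℝ) / ε := by
          rw [le_div_iff₀ hε]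
          nlinarith
        have h7 : 8 * (N₀ : ℝ) / ε ≤ 8 * (N₀ : ℝ) / ε * (n + 1) :=
          le_mul_of_one_le_right (by positivity) (by
            have : (0 : ℝ) ≤ (n : ℝ) := Nat.cast_nonneg n
            linarith)
        linarith
      have h8 : (N₀ : ℝ) ≤ N := h5.trans h1
      exact_mod_cast h8
    obtain ⟨N', hN'⟩ : ∃ N' : ℕ, N' = N₀ * (N / N₀) := ⟨_, rfl⟩
    have h9 : N' ≤ N := by rw [hN']; exact Nat.mul_div_le N N₀
    have h10 : N < N' + N₀ := by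
      rw [hN']
      have := Nat.lt_mul_div_succ N hN₀pos
      rw [mul_add, mul_one] at this
      exact this
    have h11 : 0 < N' := by
      rw [hN']
      exact Nat.mul_pos hN₀pos (Nat.div_pos h4 hN₀pos)
    refine (bern hε hε1 hN h10 h1).trans ((hmain N' n h11 hn (by rw [hN']; exact dvd_mul_right _ _)).trans ?_)
    have h12 : Nat.card {q : ℤ[X] × ℤ[X] // Box N' (2 * n + 1) q.1 ∧ Box N' (2 * n + 1) q.2 ∧
          ∃ p, p ∣ N₀ ∧ p ≠ 2 ∧ ∃ _ : Fact p.Prime, Gd (2 * n + 1)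
            (q.1.map (Int.castRingHom (ZMod p))) (q.2.map (Int.castRingHom (ZMod p)))} ≤
        Nat.card {q : ℤ[X] × ℤ[X] // Box N (2 * n + 1) q.1 ∧ Box N (2 * n + 1) q.2 ∧
          ∃ p, p ∣ N₀ ∧ p ≠ 2 ∧ ∃ _ : Fact p.Prime, Gd (2 * n + 1)
            (q.1.map (Int.castRingHom (ZMod p))) (q.2.map (Int.castRingHom (ZMod p)))} := by
      refine Set.ncard_le_ncard (s := {q : ℤ[X] × ℤ[X] | Box N' (2 * n + 1) q.1 ∧
        Box N' (2 * n + 1) q.2 ∧ ∃ p, p ∣ N₀ ∧ p ≠ 2 ∧ ∃ _ : Fact p.Prime, Gd (2 * n + 1)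
            (q.1.map (Int.castRingHom (ZMod p))) (q.2.map (Int.castRingHom (ZMod p)))})
        (t := {q : ℤ[X] × ℤ[X] | Box N (2 * n + 1) q.1 ∧
        Box N (2 * n + 1) q.2 ∧ ∃ p, p ∣ N₀ ∧ p ≠ 2 ∧ ∃ _ : Fact p.Prime, Gd (2 * n + 1)
            (q.1.map (Int.castRingHom (ZMod p))) (q.2.map (Int.castRingHom (ZMod p)))}) ?_ ?_
      · intro q hq
        exact ⟨box_mono h9 hq.1, box_mono h9 hq.2.1, hq.2.2⟩
      · refine (box_fin N (2 * n + 1)).subset ?_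
        intro q hq
        exact ⟨hq.1, hq.2.1⟩
    exact_mod_cast h12

end Pool.Agent.H94.AA
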