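import Mathlib

set_option autoImplicit false

/-!
# [H94 AA CRT] Reduction modulo several primes of vectors in a box

* `fib`: `ψ : G →+ H` surjective, `G`, `H` finite additive groups, `T : Set H`: `card {g // ψ g ∈ T} * card H = card G * card T` (the fibre over each element is a coset of the kernel; or `card {g // ψ g ∈ T} = card T * card ker`, `card G = card H * card ker`).
* `crt`: the vectors `f : I → ℤ` with `1 ≤ f i ≤ N` are in bijection with `I → ZMod N` (`N > 0`; each residue class has exactly one representative in `1, …, N`), compatible with the reductions modulo the divisors `p` of `N` (`ZMod.castHom`).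
  The map `(I → ZMod N) → ∀ p : S, I → ZMod p` is surjective: Chinese remainder theorem (the primes of `S` are pairwise coprime: `ZMod.prodEquivPi`, or `Nat.chineseRemainderOfFinset`, or `Ideal.quotientInfRingEquivPiQuotient`), applied for every `i : I`.
  `fib` with `T = ∏ Bad p`: `card {f} * ∏ p ^ card I = N ^ card I * ∏ card Bad p`.
-/

namespace Pool.Agent.H94.AA

private theorem fib_aux {G H : Type} [AddCommGroup G] [AddCommGroup H] (ψ : G →+ H)
    (hψ : Function.Surjective ψ) (T : Set H) :
    Nat.card {g : G // ψ g ∈ T} = Nat.card T * Nat.card ψ.ker := by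
  classical
  obtain ⟨s, hs⟩ := hψ.hasRightInverse
  rw [← Nat.card_prod]
  refine Nat.card_congr ⟨fun g => (⟨ψ g.1, g.2⟩, ⟨g.1 - s (ψ g.1), ?_⟩),
    fun x => ⟨s x.1.1 + x.2.1, ?_⟩, ?_, ?_⟩
  · rw [AddMonoidHom.mem_ker, map_sub, hs]; simp
  · have h2 : ψ x.2.1 = 0 := x.2.2
    rw [map_add, hs, h2, add_zero]; exact x.1.2
  · intro g
    apply Subtype.ext
    simp
  · rintro ⟨⟨t, ht⟩, ⟨k, hk⟩⟩
    have h2 : ψ k = 0 := hk
    have h3 : ψ (s t) = t := hs t
    simp [h2, h3]

theorem fib {G H : Type} [AddCommGroup G] [AddCommGroup H] [Finite G] [Finite H] (ψ : G →+ H)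
    (hψ : Function.Surjective ψ) (T : Set H) :
    Nat.card {g : G // ψ g ∈ T} * Nat.card H = Nat.card G * Nat.card T := by
  have h1 := fib_aux ψ hψ T
  have h2 := fib_aux ψ hψ Set.univ
  have h3 : Nat.card {g : G // ψ g ∈ (Set.univ : Set H)} = Nat.card G :=
    Nat.card_congr (Equiv.subtypeUnivEquiv (fun g => Set.mem_univ _))
  rw [h3, Nat.card_univ] at h2
  rw [h1, h2]; ring

theorem crt {I : Type} [Fintype I] (S : Finset ℕ) (hS : ∀ p ∈ S, p.Prime) {N : ℕ} (hN : 0 < N)
    (hd : ∀ p ∈ S, p ∣ N) (Bad : (p : ℕ) → (I → ZMod p) → Prop) :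
    (Nat.card {f : I → ℤ // (∀ i, 1 ≤ f i ∧ f i ≤ N) ∧
        ∀ p ∈ S, Bad p fun i => (f i : ZMod p)} : ℝ) =
      (N : ℝ) ^ Fintype.card I * ∏ p ∈ S,
        ((Nat.card {g : I → ZMod p // Bad p g} : ℝ) / (p : ℝ) ^ Fintype.card I) := by
  classical
  haveI : NeZero N := ⟨hN.ne'⟩
  haveI hne : ∀ p : S, NeZero (p : ℕ) := fun p => ⟨(hS p p.2).ne_zero⟩
  haveI : ∀ p : S, Finite (I → ZMod (p : ℕ)) := fun p => inferInstance
  haveI : Finite (∀ p : S, I → ZMod (p : ℕ)) := inferInstance
  let ψ : (I → ZMod N) →+ (∀ p : S, I → ZMod (p : ℕ)) :=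
    { toFun := fun g p i => ZMod.castHom (hd p p.2) (ZMod (p : ℕ)) (g i)
      map_zero' := by funext p i; simp only [Pi.zero_apply, map_zero]
      map_add' := by intro x y; funext p i; simp only [Pi.add_apply, map_add] }
  have hψ : Function.Surjective ψ := by
    intro h
    have hex : ∀ i : I, ∃ k : ℕ, ∀ p : S, ((k : ℕ) : ZMod (p : ℕ)) = h p i := by
      intro i
      obtain ⟨k, hk⟩ := Nat.chineseRemainderOfFinset
        (fun p : ℕ => if hp : p ∈ S then (h ⟨p, hp⟩ i).val else 0) (fun p => p) S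
        (fun p hp => (hS p hp).ne_zero)
        (by
          intro p hp q hq hpq
          exact (Nat.coprime_primes (hS p hp) (hS q hq)).2 hpq)
      refine ⟨k, fun p => ?_⟩
      have h1 := hk p p.2
      have h2 := (ZMod.natCast_eq_natCast_iff _ _ _).2 h1
      rw [h2, dif_pos p.2]
      exact ZMod.natCast_zmod_val (h p i)
    choose k hk using hex
    refine ⟨fun i => (k i : ZMod N), ?_⟩
    funext p i
    show ZMod.castHom (hd p p.2) (ZMod (p : ℕ)) ((k i : ℕ) : ZMod N) = h p i
    rw [map_natCast]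
    exact hk i p
  let T : Set (∀ p : S, I → ZMod (p : ℕ)) := {h | ∀ p : S, Bad p (h p)}
  have hfib := fib ψ hψ T
  have e1 : Nat.card {f : I → ℤ // (∀ i, 1 ≤ f i ∧ f i ≤ N) ∧
        ∀ p ∈ S, Bad p fun i => (f i : ZMod p)} = Nat.card {g : I → ZMod N // ψ g ∈ T} := by
    have hcast : ∀ (f : I → ℤ) (p : S), (ψ (fun i => ((f i : ℤ) : ZMod N))) p =
        fun i => ((f i : ℤ) : ZMod (p : ℕ)) := by
      intro f p
      funext i
      show ZMod.castHom (hd p p.2) (ZMod (p : ℕ)) ((f i : ℤ) : ZMod N) = _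
      rw [map_intCast]
    refine Nat.card_congr (Equiv.ofBijective
      (fun f => ⟨fun i => ((f.1 i : ℤ) : ZMod N), ?_⟩) ⟨?_, ?_⟩)
    · intro p
      rw [hcast]
      exact f.2.2 p p.2
    · rintro ⟨f, hf⟩ ⟨g, hg⟩ hfg
      apply Subtype.ext
      funext i
      have h1 := congrFun (congrArg Subtype.val hfg) i
      have h2 := (ZMod.intCast_eq_intCast_iff_dvd_sub _ _ _).1 h1
      have hf1 := hf.1 i
      have hg1 := hg.1 i
      show f i = g i
      obtain ⟨c, hc⟩ := h2
      have hNZ : (0 : ℤ) < N := by exact_mod_cast hN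
      have hc0 : c = 0 := by
        by_contra hne0
        rcases lt_or_gt_of_ne hne0 with h | h
        · have : c ≤ -1 := by omega
          nlinarith
        · have : 1 ≤ c := by omega
          nlinarith
      rw [hc0] at hc
      linarith
    · rintro ⟨g, hg⟩
      let f : I → ℤ := fun i => if (g i).val = 0 then (N : ℤ) else ((g i).val : ℤ)
      have hfg : (fun i => ((f i : ℤ) : ZMod N)) = g := by
        funext i
        show (((if (g i).val = 0 then (N : ℤ) else ((g i).val : ℤ)) : ℤ) : ZMod N) = g i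
        split_ifs with h
        · have : g i = 0 := (ZMod.val_eq_zero _).1 h
          rw [this]; simp
        · push_cast
          exact ZMod.natCast_zmod_val _
      have hf1 : ∀ i, 1 ≤ f i ∧ f i ≤ N := by
        intro i
        show 1 ≤ (if (g i).val = 0 then (N : ℤ) else ((g i).val : ℤ)) ∧
          (if (g i).val = 0 then (N : ℤ) else ((g i).val : ℤ)) ≤ N
        have hlt := ZMod.val_lt (g i)
        split_ifs with h
        · constructor
          · exact_mod_cast hN
          · exact le_rfl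
        · constructor
          · have : 1 ≤ (g i).val := Nat.one_le_iff_ne_zero.2 h
            exact_mod_cast this
          · exact_mod_cast hlt.le
      refine ⟨⟨f, hf1, ?_⟩, ?_⟩
      · intro p hp
        have h1 : Bad p ((ψ g) ⟨p, hp⟩) := hg ⟨p, hp⟩
        rw [← hfg, hcast f ⟨p, hp⟩] at h1
        exact h1
      · apply Subtype.ext
        exact hfg
  have e2 : Nat.card T = ∏ p ∈ S, Nat.card {g : I → ZMod p // Bad p g} := by
    have : Nat.card T = Nat.card (∀ p : S, {g : I → ZMod (p : ℕ) // Bad p g}) := by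
      refine Nat.card_congr ⟨fun h p => ⟨h.1 p, h.2 p⟩, fun h => ⟨fun p => (h p).1, fun p => (h p).2⟩,
        ?_, ?_⟩
      · intro h; rfl
      · intro h; rfl
    rw [this, Nat.card_pi]
    exact Finset.prod_coe_sort S (fun p => Nat.card {g : I → ZMod p // Bad p g})
  have e3 : Nat.card (∀ p : S, I → ZMod (p : ℕ)) = ∏ p ∈ S, p ^ Fintype.card I := by
    rw [Nat.card_pi]
    rw [← Finset.prod_coe_sort S (fun p => p ^ Fintype.card I)]
    apply Finset.prod_congr rfl
    intro p _
    rw [Nat.card_fun, Nat.card_zmod, Nat.card_eq_fintype_card]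
  have e4 : Nat.card (I → ZMod N) = N ^ Fintype.card I := by
    rw [Nat.card_fun, Nat.card_zmod, Nat.card_eq_fintype_card]
  rw [e1, Finset.prod_div_distrib, mul_div_assoc', eq_div_iff]
  · rw [e2, e3, e4] at hfib
    exact_mod_cast hfib
  · apply Finset.prod_ne_zero_iff.2
    intro p hp
    have := (hS p hp).ne_zero
    positivity

end Pool.Agent.H94.AA
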