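import Pool.Agent.H94.AA.RED

set_option autoImplicit false

/-!
# [H94 AA DGL] The degree decreases

`(X, Z)` and `(X₁, Z₁)` in lowest terms, `X₁ = U₁ ^ 2`, `X₁ - A Z₁ ^ 2 = V₁ ^ 2`, `X₁ - B Z₁ ^ 2 = W₁ ^ 2`, and `S ^ 2 Z ^ 2 = 4 X Z₁ ^ 2 (U₁ V₁ W₁) ^ 2` for `S = X₁ ^ 2 - A B Z₁ ^ 4`.
* `S = U₁ ^ 2 V₁ ^ 2 + U₁ ^ 2 W₁ ^ 2 - V₁ ^ 2 W₁ ^ 2` (`A Z₁ ^ 2 = U₁ ^ 2 - V₁ ^ 2`, `B Z₁ ^ 2 = U₁ ^ 2 - W₁ ^ 2`).
* `U₁`, `V₁`, `W₁`, `Z₁` are pairwise relatively prime: a prime `π` with `π ∣ Z₁` and `π ∣ U₁` (or `V₁`, `W₁`) divides `X₁`, contradiction; a prime `π` with `π ∣ U₁`, `π ∣ V₁` has `π ^ 2 ∣ A Z₁ ^ 2` and does not divide `Z₁`, so `π ^ 2 ∣ A`, but `A` is squarefree (`sqf_A`); in the same way for the other pairs (`B`, `A - B`: `V₁ ^ 2 - W₁ ^ 2 = (B - A) Z₁ ^ 2`).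
* So `S` is relatively prime to `U₁` (modulo `U₁` it is `- V₁ ^ 2 W₁ ^ 2`), to `V₁`, to `W₁` and to `Z₁` (modulo `Z₁` it is `X₁ ^ 2`); and `4` is a unit (`r.unit`, `r.two`: `φ 4 ≠ 0`).  From the identity `S ^ 2 ∣ X * (4 Z₁ ^ 2 U₁ ^ 2 V₁ ^ 2 W₁ ^ 2)`, so `S ^ 2 ∣ X`, and `deg X ≥ 2 deg S` (`X ≠ 0`).
* Degrees: `deg (A Z₁ ^ 2) = d + 2 deg Z₁` is odd and `deg X₁ = 2 deg U₁` is even, so they are different; if `deg X₁ < deg (A Z₁ ^ 2)` then `deg V₁ ^ 2 = deg (A Z₁ ^ 2)` is odd, contradiction.  So `deg X₁ > d + 2 deg Z₁` (in particular `X₁ ≠ 0`; if `X₁ = 0` then `V₁ ^ 2 = - A Z₁ ^ 2` has odd degree) and `deg S = 2 deg X₁` (`deg (A B Z₁ ^ 4) = 2 d + 4 deg Z₁ < 2 deg X₁`).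
  So `deg X ≥ 4 deg X₁ > deg X₁`.
-/

namespace Pool.Agent.H94.AA

open Polynomial

variable {R k : Type} [CommRing R] [IsDomain R] [UniqueFactorizationMonoid R] [Field k] {r : Rd R k}
  {d : ℕ} {A B : R[X]}

/-- two of the square roots are relatively prime -/
private theorem dgl_rp {A X Z U V : R[X]} (hA : Squarefree A) (hr : IsRelPrime X Z)
    (hUX : ∀ p : R[X], Prime p → p ∣ U → p ∣ X) (hU0 : U ≠ 0) (hAZ : A * Z ^ 2 = U ^ 2 - V ^ 2) :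
    IsRelPrime U V := by
  rw [UniqueFactorizationMonoid.isRelPrime_iff_no_prime_factors hU0]
  intro p hpU hpV hp
  have h1 : p ^ 2 ∣ A * Z ^ 2 := by
    rw [hAZ]
    exact dvd_sub (pow_dvd_pow_of_dvd hpU 2) (pow_dvd_pow_of_dvd hpV 2)
  have h2 : ¬ p ∣ Z := by
    intro h
    exact hp.not_unit (hr (hUX p hp hpU) h)
  have h3 : IsRelPrime (p ^ 2) (Z ^ 2) := by
    apply IsRelPrime.pow
    exact hp.irreducible.isRelPrime_iff_not_dvd.2 h2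
  have h4 : p ^ 2 ∣ A := h3.dvd_of_dvd_mul_right h1
  rw [pow_two] at h4
  exact hp.not_unit (hA p h4)

theorem dgl (h : St r d A B) (hd : Odd d) {X Z X₁ Z₁ U₁ V₁ W₁ : R[X]} (hX : X ≠ 0)
    (hr₁ : IsRelPrime X₁ Z₁) (hZ₁ : Z₁ ≠ 0)
    (hU : X₁ = U₁ ^ 2) (hV : X₁ - A * Z₁ ^ 2 = V₁ ^ 2) (hW : X₁ - B * Z₁ ^ 2 = W₁ ^ 2)
    (hS : (X₁ ^ 2 - A * B * Z₁ ^ 4) ^ 2 * Z ^ 2 =
      4 * X * Z₁ ^ 2 * (X₁ * (X₁ - A * Z₁ ^ 2) * (X₁ - B * Z₁ ^ 2))) :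
    X₁.natDegree < X.natDegree := by
  obtain ⟨n1, n2, n3⟩ := deg_A h
  obtain ⟨q1, q2, q3⟩ := sqf_A h
  have hd1 : 1 ≤ d := by
    obtain ⟨m, hm⟩ := hd
    omega
  -- degrees
  have hdA : (A * Z₁ ^ 2).natDegree = d + 2 * Z₁.natDegree := by
    rw [natDegree_mul q1.ne_zero (pow_ne_zero 2 hZ₁), natDegree_pow, n1]
  have hdX : X₁.natDegree = 2 * U₁.natDegree := by rw [hU, natDegree_pow]
  have hlt : d + 2 * Z₁.natDegree < 2 * U₁.natDegree := by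
    by_contra hcon
    push Not at hcon
    have hne : 2 * U₁.natDegree ≠ d + 2 * Z₁.natDegree := by
      obtain ⟨m, hm⟩ := hd
      omega
    have h1 : X₁.natDegree < (A * Z₁ ^ 2).natDegree := by
      rw [hdA, hdX]
      omega
    have h2 := natDegree_sub_eq_right_of_natDegree_lt h1
    rw [hV, natDegree_pow, hdA] at h2
    obtain ⟨m, hm⟩ := hd
    omega
  have hU0 : U₁ ≠ 0 := by
    rintro rfl
    rw [natDegree_zero] at hlt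
    omega
  have hV0 : V₁ ≠ 0 := by
    rintro rfl
    have h1 : (A * Z₁ ^ 2).natDegree < X₁.natDegree := by rw [hdA, hdX]; exact hlt
    have h2 := natDegree_sub_eq_left_of_natDegree_lt h1
    rw [hV, zero_pow two_ne_zero, natDegree_zero] at h2
    omega
  have hSd : (X₁ ^ 2 - A * B * Z₁ ^ 4).natDegree = 4 * U₁.natDegree := by
    have h1 : (A * B * Z₁ ^ 4).natDegree = 2 * d + 4 * Z₁.natDegree := by
      rw [natDegree_mul (mul_ne_zero q1.ne_zero q2.ne_zero) (pow_ne_zero 4 hZ₁),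
        natDegree_mul q1.ne_zero q2.ne_zero, natDegree_pow, n1, n2]
      ring
    have h2 : (X₁ ^ 2).natDegree = 4 * U₁.natDegree := by
      rw [natDegree_pow, hdX]
      ring
    have h3 : (A * B * Z₁ ^ 4).natDegree < (X₁ ^ 2).natDegree := by
      rw [h1, h2]
      omega
    rw [natDegree_sub_eq_left_of_natDegree_lt h3, h2]
  -- relatively prime
  obtain ⟨S, hSdef⟩ : ∃ S, S = X₁ ^ 2 - A * B * Z₁ ^ 4 := ⟨_, rfl⟩
  have hS2 : S = U₁ ^ 2 * V₁ ^ 2 + U₁ ^ 2 * W₁ ^ 2 - V₁ ^ 2 * W₁ ^ 2 := by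
    rw [hSdef, ← hV, ← hW, ← hU]
    ring
  have hUX : ∀ p : R[X], Prime p → p ∣ U₁ → p ∣ X₁ := by
    intro p _ hp
    rw [hU]
    exact hp.trans (dvd_pow_self _ two_ne_zero)
  have rUV : IsRelPrime U₁ V₁ := dgl_rp q1 hr₁ hUX hU0 (by rw [← hV, ← hU]; ring)
  have rUW : IsRelPrime U₁ W₁ := dgl_rp q2 hr₁ hUX hU0 (by rw [← hW, ← hU]; ring)
  have rVW : IsRelPrime V₁ W₁ := by
    rw [UniqueFactorizationMonoid.isRelPrime_iff_no_prime_factors hV0]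
    intro p hpV hpW hp
    have h1 : p ^ 2 ∣ (A - B) * Z₁ ^ 2 := by
      have h2 : (A - B) * Z₁ ^ 2 = W₁ ^ 2 - V₁ ^ 2 := by rw [← hV, ← hW]; ring
      rw [h2]
      exact dvd_sub (pow_dvd_pow_of_dvd hpW 2) (pow_dvd_pow_of_dvd hpV 2)
    have h2 : ¬ p ∣ Z₁ := by
      intro h3
      have h4 : p ∣ X₁ := by
        have h5 : X₁ = V₁ ^ 2 + A * Z₁ ^ 2 := by rw [← hV]; ring
        rw [h5]
        exact dvd_add (hpV.trans (dvd_pow_self _ two_ne_zero))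
          ((h3.trans (dvd_pow_self _ two_ne_zero)).mul_left A)
      exact hp.not_unit (hr₁ h4 h3)
    have h3 : IsRelPrime (p ^ 2) (Z₁ ^ 2) := by
      apply IsRelPrime.pow
      exact hp.irreducible.isRelPrime_iff_not_dvd.2 h2
    have h4 : p ^ 2 ∣ A - B := h3.dvd_of_dvd_mul_right h1
    rw [pow_two] at h4
    exact hp.not_unit (q3 p h4)
  have rSU : IsRelPrime S U₁ := by
    intro e he1 he2
    have h1 : IsRelPrime U₁ (V₁ ^ 2 * W₁ ^ 2) := rUV.pow_right.mul_right rUW.pow_right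
    apply h1 he2
    have h2 : V₁ ^ 2 * W₁ ^ 2 = U₁ * (U₁ * V₁ ^ 2 + U₁ * W₁ ^ 2) - S := by rw [hS2]; ring
    rw [h2]
    exact dvd_sub (he2.mul_right _) he1
  have rSV : IsRelPrime S V₁ := by
    intro e he1 he2
    have h1 : IsRelPrime V₁ (U₁ ^ 2 * W₁ ^ 2) := rUV.symm.pow_right.mul_right rVW.pow_right
    apply h1 he2
    have h2 : U₁ ^ 2 * W₁ ^ 2 = S - V₁ * (V₁ * U₁ ^ 2 - V₁ * W₁ ^ 2) := by rw [hS2]; ring
    rw [h2]
    exact dvd_sub he1 (he2.mul_right _)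
  have rSW : IsRelPrime S W₁ := by
    intro e he1 he2
    have h1 : IsRelPrime W₁ (U₁ ^ 2 * V₁ ^ 2) := rUW.symm.pow_right.mul_right rVW.symm.pow_right
    apply h1 he2
    have h2 : U₁ ^ 2 * V₁ ^ 2 = S - W₁ * (W₁ * U₁ ^ 2 - W₁ * V₁ ^ 2) := by rw [hS2]; ring
    rw [h2]
    exact dvd_sub he1 (he2.mul_right _)
  have rSZ : IsRelPrime S Z₁ := by
    intro e he1 he2
    have h1 : IsRelPrime (X₁ ^ 2) Z₁ := hr₁.pow_left
    refine h1 ?_ he2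
    have h2 : X₁ ^ 2 = S + Z₁ * (A * B * Z₁ ^ 3) := by rw [hSdef]; ring
    rw [h2]
    exact dvd_add he1 (he2.mul_right _)
  have r4 : IsUnit (4 : R[X]) := by
    have h1 : r.φ 4 ≠ 0 := by
      have h2 : r.φ 4 = 2 * 2 := by
        rw [map_ofNat]
        norm_num
      rw [h2]
      exact mul_ne_zero r.two r.two
    have h2 : (4 : R[X]) = C (4 : R) := by
      rw [map_ofNat]
    rw [h2]
    exact isUnit_C.2 (r.unit 4 h1)
  have hdvd : S ^ 2 ∣ X := by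
    have h1 : S ^ 2 ∣ X * (4 * (Z₁ ^ 2 * (U₁ ^ 2 * (V₁ ^ 2 * W₁ ^ 2)))) := by
      refine ⟨Z ^ 2, ?_⟩
      rw [hSdef, hS, hV, hW, hU]
      ring
    have h2 : IsRelPrime (S ^ 2) (4 * (Z₁ ^ 2 * (U₁ ^ 2 * (V₁ ^ 2 * W₁ ^ 2)))) := by
      apply IsRelPrime.pow_left
      refine IsRelPrime.mul_right ?_ (rSZ.pow_right.mul_right
        (rSU.pow_right.mul_right (rSV.pow_right.mul_right rSW.pow_right)))
      exact r4.isRelPrime_right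
    exact h2.dvd_of_dvd_mul_right h1
  have h1 := natDegree_le_of_dvd hdvd hX
  rw [natDegree_pow, hSdef, hSd] at h1
  rw [hdX]
  omega

end Pool.Agent.H94.AA
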