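import Mathlib

set_option autoImplicit false

/-!
# [H94 AA Defs] Specialisation: definitions

`R` is a ring like the `p`-adic integers, `k` its residue field.  `St r d A B`: `A`, `B`, `A - B` have degree at most `d` in `R[X]` and degree `d` over `k`, with squarefree product over `k`.
-/

namespace Pool.Agent.H94.AA

open Polynomial

/-- reduction modulo the prime `ϖ` of `R`; the residue field `k` has odd characteristic, and the units of `R` which
are squares in `k` are squares -/
structure Rd (R k : Type) [CommRing R] [Field k] where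
  φ : R →+* k
  ϖ : R
  ker : ∀ x, φ x = 0 ↔ ϖ ∣ x
  unit : ∀ x, φ x ≠ 0 → IsUnit x
  sq : ∀ x, φ x ≠ 0 → IsSquare (φ x) → IsSquare x
  two : (2 : k) ≠ 0

section
variable {R k : Type} [CommRing R] [Field k]

/-- the situation -/
structure St (r : Rd R k) (d : ℕ) (A B : R[X]) : Prop where
  dA : A.natDegree ≤ d
  dB : B.natDegree ≤ d
  rA : (A.map r.φ).natDegree = d
  rB : (B.map r.φ).natDegree = d
  rAB : ((A - B).map r.φ).natDegree = d
  sqf : Squarefree (A.map r.φ * B.map r.φ * (A - B).map r.φ)

end

/-- the curve `y ^ 2 = x (x - A) (x - B)` has only the points with `y = 0` over the fraction field of `D` -/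
def NoPt {D : Type} [CommRing D] (A B : D) : Prop :=
  ∀ X Y Z : D, Z ≠ 0 → Y ^ 2 = X * (X - A * Z ^ 2) * (X - B * Z ^ 2) → Y = 0

end Pool.Agent.H94.AA
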