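import Pool.Agent.H94.AA.BU
import Pool.Agent.H3.SD.FIN

set_option autoImplicit false

/-!
# [H94 AA FU] The density of the family, uniformly in `q`

The proof of `st4_aux` in `H3/SD/FIN.lean` (copy it) for `m = 1`, `u = 0`, `D = 0`, `a = a' = 2`, `n = d`, with `bu1`, `bu2` in `bad_all` instead of `bad1`, `bad2`: `η = ε / 4`, `q ≥ 32 / η ^ 3 + 1`:
* `ρ ≥ η` for `d ≥ d₁` (`rho F hε _ 2`), `∑_{z ∈ Lt F n} g z ≥ q ^ n η` (`gz_mean` for `m = 1`, all coprimality conditions are trivial);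
* `cpl` with `E = 2 q ^ (n + 1 - 2)`: the number of the pairs `(x, y)` with `g x = g y = g w = 1` is at least `q ^ (2 n) (η ^ 3 - 2 / q) ≥ q ^ (2 n) (η ^ 3 - η ^ 3 / 8)` (`2 / q ≤ η ^ 3 / 16`);
* the pairs with a product that is not squarefree: at most `4 q ^ (2 n) / (q - 1) + 6 q ^ n q ^ (n / 2) + 2 q ^ n ≤ q ^ (2 n) (η ^ 3 / 8 + η ^ 3 / 8)` for large `n` (`4 / (q - 1) ≤ η ^ 3 / 8`);
* the map `(x, y) ↦ ![Az x, Az y, -(Az x + Az y)]` is injective into the `Y ∈ Fam F d e` (`gd_fam`) with `Y 0` monic (`az_mon`).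
-/

namespace Pool.Agent.H94.AA

open Polynomial
open Pool.Agent.H94.PC
open Pool.Agent.H94.PS
open Pool.Agent.H3.SD

variable {F : Type} [Field F] [Finite F]

private theorem lt_half (h2 : (2 : F) ≠ 0) {n : ℕ} {x y : F[X]} (hx : x ∈ Lt F n)
    (hy : y ∈ Lt F n) : C (2 : F)⁻¹ * (x + y) ∈ Lt F n := by
  rw [mem_Lt] at *
  rw [degree_C_mul (inv_ne_zero h2)]
  exact lt_of_le_of_lt (degree_add_le _ _) (max_lt hx hy)

private theorem az_inj {m : F[X]} (hm : m.Monic) {n : ℕ} {x y : F[X]}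
    (h : Az m n x = Az m n y) : x = y := by
  unfold Az at h
  have h1 := mul_left_cancel₀ hm.ne_zero (add_right_cancel h)
  exact add_left_cancel h1

private theorem gz_cases {m : F[X]} {n a e : ℕ} (z : F[X]) :
    gz m n a e z = 0 ∨ gz m n a e z = 1 := by
  unfold gz
  split_ifs
  · exact Or.inr rfl
  · exact Or.inl rfl

open Classical in
/-- the number of pairs with a product that is not squarefree -/
private theorem bad_all (h2 : (2 : F) ≠ 0) {n : ℕ} (hn : 0 < n) (m : F[X]) (hm : m = 1) :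
    (((Lt F n ×ˢ Lt F n).filter fun p => ¬ Squarefree (Az m n p.1 * Az m n p.2 *
      (-(Az m n p.1 + Az m n p.2)))).card : ℝ) ≤
      3 * ((Nat.card F : ℝ) ^ n * ((Nat.card F : ℝ) ^ n / ((Nat.card F : ℝ) - 1) +
        2 * (Nat.card F : ℝ) ^ (n / 2))) +
      ((Nat.card F : ℝ) ^ (2 * n) / ((Nat.card F : ℝ) - 1) +
        2 * (Nat.card F : ℝ) ^ n) := by
  set B : Finset F[X] := (Lt F n).filter fun z => ¬ Squarefree (Az m n z) with hB
  set B2 : Finset (F[X] × F[X]) := (Lt F n ×ˢ Lt F n).filter fun p =>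
      ¬ IsCoprime (Az m n p.1) (Az m n p.2) with hB2
  set B3 : Finset (F[X] × F[X]) := (Lt F n ×ˢ Lt F n).filter fun p =>
      ¬ Squarefree (Az m n (C 2⁻¹ * (p.1 + p.2))) with hB3
  have h1 : ((Lt F n ×ˢ Lt F n).filter fun p => ¬ Squarefree (Az m n p.1 * Az m n p.2 *
      (-(Az m n p.1 + Az m n p.2)))) ⊆ B ×ˢ Lt F n ∪ Lt F n ×ˢ B ∪ B3 ∪ B2 := by
    intro p hp
    rw [Finset.mem_filter, Finset.mem_product] at hp
    obtain ⟨⟨h3, h4⟩, h5⟩ := hp
    by_contra hcon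
    simp only [Finset.mem_union, not_or] at hcon
    obtain ⟨⟨⟨c1, c2⟩, c3⟩, c4⟩ := hcon
    apply h5
    refine bad3 h2 ?_ ?_ ?_ ?_
    · by_contra h
      exact c1 (Finset.mem_product.2 ⟨Finset.mem_filter.2 ⟨h3, h⟩, h4⟩)
    · by_contra h
      exact c2 (Finset.mem_product.2 ⟨h3, Finset.mem_filter.2 ⟨h4, h⟩⟩)
    · by_contra h
      exact c3 (Finset.mem_filter.2 ⟨Finset.mem_product.2 ⟨h3, h4⟩, h⟩)
    · by_contra h
      exact c4 (Finset.mem_filter.2 ⟨Finset.mem_product.2 ⟨h3, h4⟩, h⟩)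
  have h3 : B3.card ≤ (Lt F n ×ˢ B).card := by
    refine Finset.card_le_card_of_injOn (fun p => (p.1, C 2⁻¹ * (p.1 + p.2))) ?_ ?_
    · intro p hp
      rw [hB3, Finset.mem_coe, Finset.mem_filter, Finset.mem_product] at hp
      rw [Finset.mem_coe, Finset.mem_product]
      exact ⟨hp.1.1, Finset.mem_filter.2 ⟨lt_half h2 hp.1.1 hp.1.2, hp.2⟩⟩
    · rintro ⟨x, y⟩ _ ⟨x', y'⟩ _ h
      have e1 : x = x' := congrArg Prod.fst h
      have e2 : C (2 : F)⁻¹ * (x + y) = C (2 : F)⁻¹ * (x' + y') := congrArg Prod.snd h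
      have hc : C (2 : F)⁻¹ ≠ 0 := C_ne_zero.2 (inv_ne_zero h2)
      have e3 := mul_left_cancel₀ hc e2
      rw [e1] at e3
      rw [e1, add_left_cancel e3]
  have h4 : ((Lt F n ×ˢ Lt F n).filter fun p => ¬ Squarefree (Az m n p.1 * Az m n p.2 *
      (-(Az m n p.1 + Az m n p.2)))).card ≤
      B.card * Nat.card F ^ n + Nat.card F ^ n * B.card + Nat.card F ^ n * B.card + B2.card := by
    refine (Finset.card_le_card h1).trans ?_
    refine (Finset.card_union_le _ _).trans (Nat.add_le_add_right ?_ _)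
    refine (Finset.card_union_le _ _).trans (Nat.add_le_add ?_ ?_)
    · refine (Finset.card_union_le _ _).trans ?_
      rw [Finset.card_product, Finset.card_product, card_Lt]
    · refine h3.trans ?_
      rw [Finset.card_product, card_Lt]
  have h5 : (((Lt F n ×ˢ Lt F n).filter fun p => ¬ Squarefree (Az m n p.1 * Az m n p.2 *
      (-(Az m n p.1 + Az m n p.2)))).card : ℝ) ≤
      3 * ((Nat.card F : ℝ) ^ n * (B.card : ℝ)) + (B2.card : ℝ) := by
    have h6 : (((Lt F n ×ˢ Lt F n).filter fun p => ¬ Squarefree (Az m n p.1 * Az m n p.2 *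
      (-(Az m n p.1 + Az m n p.2)))).card : ℝ) ≤
      (B.card : ℝ) * (Nat.card F : ℝ) ^ n + (Nat.card F : ℝ) ^ n * (B.card : ℝ) +
        (Nat.card F : ℝ) ^ n * (B.card : ℝ) + (B2.card : ℝ) := by exact_mod_cast h4
    refine h6.trans (le_of_eq ?_)
    ring
  refine h5.trans (add_le_add ?_ (by rw [hB2, hm]; exact bu2 hn))
  have h7 : (B.card : ℝ) ≤ (Nat.card F : ℝ) ^ n / ((Nat.card F : ℝ) - 1) +
      2 * (Nat.card F : ℝ) ^ (n / 2) := by rw [hB, hm]; exact bu1 hn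
  have h8 : (0 : ℝ) ≤ (Nat.card F : ℝ) ^ n := by positivity
  have h9 := mul_le_mul_of_nonneg_left h7 h8
  linarith

private theorem pow_small {q : ℝ} (hq : 2 ≤ q) {c : ℝ} (hc : 0 < c) (K : ℝ) :
    ∃ D : ℕ, ∀ s : ℕ, D ≤ s → K / q ^ s ≤ c := by
  have h1 : Filter.Tendsto (fun s : ℕ => |K| * (1 / q) ^ s) Filter.atTop (nhds (|K| * 0)) := by
    refine (tendsto_pow_atTop_nhds_zero_of_lt_one (by positivity) ?_).const_mul _
    rw [div_lt_one (by linarith)]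
    linarith
  rw [mul_zero] at h1
  obtain ⟨D, hD⟩ := Filter.eventually_atTop.1 (h1.eventually (gt_mem_nhds hc))
  refine ⟨D, fun s hs => ?_⟩
  have h2 := hD s hs
  refine le_trans ?_ h2.le
  rw [one_div, inv_pow, ← div_eq_mul_inv]
  exact div_le_div_of_nonneg_right (le_abs_self K) (by positivity)

open Classical in
theorem fu {F : Type} [Field F] [Finite F] (h2 : (2 : F) ≠ 0) {ε : ℝ} (hε : 0 < ε) (h4 : ε ≤ 1 / 4)
    (hq : 32 / (ε / 4) ^ 3 + 1 ≤ (Nat.card F : ℝ)) :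
    ∃ d₀ : ℕ, ∀ d : ℕ, d₀ ≤ d → (ε / 4) ^ 3 / 2 * (Nat.card F : ℝ) ^ (2 * d) ≤
      (((Fam F d ⌊ε * d⌋₊).filter fun Y => (Y 0).Monic).card : ℝ) := by
  obtain ⟨q, hqd⟩ : ∃ q : ℝ, q = (Nat.card F : ℝ) := ⟨_, rfl⟩
  have hq2 : 2 ≤ q := by
    have : 2 ≤ Nat.card F := Finite.one_lt_card
    rw [hqd]
    exact_mod_cast this
  have hq0 : 0 < q := by linarith
  have hq1 : 1 ≤ q := by linarith
  obtain ⟨η, hη⟩ : ∃ η : ℝ, η = ε / 4 := ⟨_, rfl⟩
  have hη0 : 0 < η := by rw [hη]; positivity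
  have hη3 : 0 < η ^ 3 / 8 := by positivity
  rw [← hqd, ← hη] at hq
  have hq32 : 32 / η ^ 3 ≤ q - 1 := by linarith
  have hqm : 0 < q - 1 := lt_of_lt_of_le (by positivity) hq32
  have hD4 : 4 / (q - 1) ≤ η ^ 3 / 8 := by
    rw [div_le_iff₀ (by positivity)] at hq32
    rw [div_le_iff₀ hqm]
    linarith
  have ha4 : 2 / q ≤ η ^ 3 / 8 := by
    refine le_trans ?_ hD4
    exact div_le_div₀ (by norm_num) (by norm_num) hqm (by linarith)
  obtain ⟨m, hm⟩ : ∃ m : F[X], m = 1 := ⟨_, rfl⟩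
  obtain ⟨u, hu⟩ : ∃ u : ℕ, u = m.natDegree := ⟨_, rfl⟩
  have hu0 : u = 0 := by rw [hu, hm]; exact natDegree_one
  have hmm : m.Monic := by rw [hm]; exact monic_one
  obtain ⟨s0, hs0⟩ := pow_small hq2 hη3 8
  obtain ⟨a, haa⟩ : ∃ a : ℕ, a = 2 := ⟨_, rfl⟩
  obtain ⟨d1, hd1⟩ := rho F hε (by linarith) a
  refine ⟨max d1 (2 * s0 + 2), ?_⟩
  intro d hd
  have hdd1 : d1 ≤ d := (le_max_left _ _).trans hd
  have hdd2 : 2 * s0 + 2 ≤ d := (le_max_right _ _).trans hd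
  obtain ⟨n, hn⟩ : ∃ n : ℕ, d = n + u := ⟨d - u, by omega⟩
  obtain ⟨e, he⟩ : ∃ e : ℕ, e = ⌊ε * d⌋₊ := ⟨_, rfl⟩
  have hn0 : 0 < n := by omega
  have he4 : (e : ℝ) ≤ d / 4 := by
    rw [he]
    refine (Nat.floor_le (by positivity)).trans ?_
    have : (0 : ℝ) ≤ (d : ℝ) := Nat.cast_nonneg _
    nlinarith
  have he4' : 4 * e ≤ d := by
    have h5 : (4 : ℝ) * e ≤ d := by linarith
    exact_mod_cast h5
  have he2 : 2 * e < n + m.natDegree := by rw [← hu, ← hn]; omega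
  have hcop : ∀ k, n + m.natDegree ≤ k + e → ∀ P ∈ Pr F k, IsCoprime m P := by
    intro k hk P hP
    rw [hm]
    exact isCoprime_one_left
  have hua : m.natDegree ≤ a := by rw [← hu, haa]; omega
  rw [← he]
  -- the mean
  obtain ⟨g, hg⟩ : ∃ g : F[X] → ℝ, g = gz m n a e := ⟨_, rfl⟩
  obtain ⟨S, hS⟩ : ∃ S : ℝ, S = ∑ z ∈ Lt F n, g z := ⟨_, rfl⟩
  have hSη : q ^ n * η ≤ S := by
    rw [hS, hg, gz_mean hmm hn0 hua he2 hcop]
    have h6 := hd1 d hdd1
    rw [← he] at h6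
    rw [← hη] at h6
    have h7 : ∑ α ∈ Finset.Icc a e, ((Pr F (n + m.natDegree - α)).card : ℝ) *
        (Nat.card F : ℝ) ^ (α - m.natDegree) =
        q ^ n * ∑ α ∈ Finset.Icc a e, ((Pr F (d - α)).card : ℝ) /
          (Nat.card F : ℝ) ^ (d - α) := by
      rw [Finset.mul_sum]
      refine Finset.sum_congr rfl fun α hα => ?_
      rw [Finset.mem_Icc] at hα
      rw [← hu, ← hn, ← hqd]
      have h8 : q ^ (α - u) * q ^ (d - α) = q ^ n := by
        rw [← pow_add]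
        congr 1
        omega
      rw [← h8]
      have : q ^ (d - α) ≠ 0 := by positivity
      field_simp
    rw [h7]
    exact mul_le_mul_of_nonneg_left h6 (by positivity)
  have hS0 : 0 ≤ S := le_trans (by positivity) hSη
  -- the third function
  have hh : ∑ s ∈ Lt F n, g (C 2⁻¹ * s) = S := by
    rw [hS]
    have hc : C (2 : F) * C (2 : F)⁻¹ = 1 := by
      rw [← C_mul, mul_inv_cancel₀ h2, C_1]
    refine Finset.sum_nbij' (fun s => C 2⁻¹ * s) (fun s => C 2 * s) ?_ ?_ ?_ ?_ ?_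
    · intro s hs
      rw [mem_Lt] at *
      rw [degree_C_mul (inv_ne_zero h2)]
      exact hs
    · intro s hs
      rw [mem_Lt] at *
      rw [degree_C_mul h2]
      exact hs
    · intro s _
      show C 2 * (C 2⁻¹ * s) = s
      rw [← mul_assoc, hc, one_mul]
    · intro s _
      show C 2⁻¹ * (C 2 * s) = s
      rw [← mul_assoc, mul_comm (C (2 : F)⁻¹), hc, one_mul]
    · intro s _
      rfl
  obtain ⟨E, hE⟩ : ∃ E : ℝ, E = 2 * q ^ (n + u + 1 - a) := ⟨_, rfl⟩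
  have hgr : ∀ x, 0 ≤ g x ∧ g x ≤ 1 := fun x => by rw [hg]; exact gz_range x
  have hcpl := cpl (n := n) g g (fun s => g (C 2⁻¹ * s)) hgr hgr (fun x => hgr _)
    (E := E) (by rw [hE]; positivity) (by
      intro ψ hψ
      rw [hg, hE, hqd, hu]
      exact gz_fou hmm hn0 hua he2 hcop ψ hψ)
  rw [hh, ← hS, ← hqd] at hcpl
  obtain ⟨T, hT⟩ : ∃ T : ℝ, T = ∑ x ∈ Lt F n, ∑ y ∈ Lt F n, g x * g y * g (C 2⁻¹ * (x + y)) :=
    ⟨_, rfl⟩
  rw [← hT] at hcpl
  have hTlow : q ^ (2 * n) * (η ^ 3 - η ^ 3 / 8) ≤ T := by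
    have e1 := (abs_le.1 hcpl).1
    have e2 : q ^ (2 * n) * η ^ 3 ≤ S * S * S / q ^ n := by
      rw [le_div_iff₀ (by positivity)]
      have e3 : q ^ (2 * n) * η ^ 3 * q ^ n = (q ^ n * η) ^ 3 := by ring
      rw [e3]
      calc (q ^ n * η) ^ 3 ≤ S ^ 3 := pow_le_pow_left₀ (by positivity) hSη 3
        _ = S * S * S := by ring
    have e4 : E * q ^ n ≤ q ^ (2 * n) * (η ^ 3 / 8) := by
      have e5 : q ^ (n + u + 1 - a) * q = q ^ n := by
        rw [← pow_succ]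
        congr 1
        omega
      have e6 : E * q ^ n = q ^ (2 * n) * (2 / q) := by
        rw [hE, mul_div_assoc', eq_div_iff hq0.ne']
        calc 2 * q ^ (n + u + 1 - a) * q ^ n * q =
              2 * (q ^ (n + u + 1 - a) * q) * q ^ n := by ring
            _ = 2 * q ^ n * q ^ n := by rw [e5]
            _ = q ^ (2 * n) * 2 := by ring
      rw [e6]
      exact mul_le_mul_of_nonneg_left ha4 (by positivity)
    have e8 : q ^ (2 * n) * (η ^ 3 - η ^ 3 / 8) =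
        q ^ (2 * n) * η ^ 3 - q ^ (2 * n) * (η ^ 3 / 8) := by ring
    rw [e8]
    linarith
  -- good and bad pairs
  obtain ⟨sq, hsq⟩ : ∃ sq : F[X] × F[X] → Prop, sq = fun p => Squarefree (Az m n p.1 *
    Az m n p.2 * (-(Az m n p.1 + Az m n p.2))) := ⟨_, rfl⟩
  obtain ⟨G, hG⟩ : ∃ G : Finset (F[X] × F[X]), G = (Lt F n ×ˢ Lt F n).filter fun p =>
    (g p.1 = 1 ∧ g p.2 = 1 ∧ g (C 2⁻¹ * (p.1 + p.2)) = 1) ∧ sq p := ⟨_, rfl⟩
  obtain ⟨N, hN⟩ : ∃ N : Finset (F[X] × F[X]), N = (Lt F n ×ˢ Lt F n).filter fun p =>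
    ¬ sq p := ⟨_, rfl⟩
  have hTGN : T ≤ (G.card : ℝ) + (N.card : ℝ) := by
    rw [hT, ← Finset.sum_product' (f := fun x y => g x * g y * g (C 2⁻¹ * (x + y)))]
    have e1 : ∀ p ∈ Lt F n ×ˢ Lt F n, g p.1 * g p.2 * g (C 2⁻¹ * (p.1 + p.2)) ≤
        (if (g p.1 = 1 ∧ g p.2 = 1 ∧ g (C 2⁻¹ * (p.1 + p.2)) = 1) ∧ sq p then (1 : ℝ) else 0) +
        (if ¬ sq p then (1 : ℝ) else 0) := by
      intro p _
      by_cases hs : sq p
      · rw [if_neg (not_not.2 hs), add_zero]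
        rcases gz_cases (m := m) (n := n) (a := a) (e := e) p.1 with h | h
        · rw [← hg] at h
          rw [h, zero_mul, zero_mul]
          split_ifs <;> norm_num
        rcases gz_cases (m := m) (n := n) (a := a) (e := e) p.2 with h' | h'
        · rw [← hg] at h'
          rw [h', mul_zero, zero_mul]
          split_ifs <;> norm_num
        rcases gz_cases (m := m) (n := n) (a := a) (e := e) (C 2⁻¹ * (p.1 + p.2)) with h'' | h''
        · rw [← hg] at h''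
          rw [h'', mul_zero]
          split_ifs <;> norm_num
        rw [← hg] at h h' h''
        rw [if_pos ⟨⟨h, h', h''⟩, hs⟩, h, h', h'']
        norm_num
      · rw [if_pos hs]
        have e2 : g p.1 * g p.2 * g (C 2⁻¹ * (p.1 + p.2)) ≤ 1 := by
          have f1 := hgr p.1
          have f2 := hgr p.2
          have f3 := hgr (C 2⁻¹ * (p.1 + p.2))
          exact mul_le_one₀ (mul_le_one₀ f1.2 f2.1 f2.2) f3.1 f3.2
        have e3 : (0 : ℝ) ≤ (if (g p.1 = 1 ∧ g p.2 = 1 ∧ g (C 2⁻¹ * (p.1 + p.2)) = 1) ∧ sq p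
          then (1 : ℝ) else 0) := by split_ifs <;> norm_num
        linarith
    refine (Finset.sum_le_sum e1).trans (le_of_eq ?_)
    rw [Finset.sum_add_distrib, Finset.sum_boole, Finset.sum_boole, hG, hN]
  have hNle : (N.card : ℝ) ≤ q ^ (2 * n) * (η ^ 3 / 8 + η ^ 3 / 8) := by
    have e1 := bad_all h2 hn0 m hm
    rw [← hqd] at e1
    rw [hN, hsq]
    refine e1.trans ?_
    have hs1 : s0 ≤ n / 2 := by omega
    have e2 := hs0 (n / 2) hs1
    have e4 : q ^ (n / 2) * q ^ (n / 2) ≤ q ^ n := by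
      rw [← pow_add]
      exact pow_le_pow_right₀ hq1 (by omega)
    have e5 : 8 * q ^ (n / 2) ≤ q ^ n * (η ^ 3 / 8) := by
      have e6 : 8 ≤ η ^ 3 / 8 * q ^ (n / 2) := by
        rwa [div_le_iff₀ (by positivity)] at e2
      calc 8 * q ^ (n / 2) ≤ (η ^ 3 / 8 * q ^ (n / 2)) * q ^ (n / 2) :=
            mul_le_mul_of_nonneg_right e6 (by positivity)
        _ = (q ^ (n / 2) * q ^ (n / 2)) * (η ^ 3 / 8) := by ring
        _ ≤ q ^ n * (η ^ 3 / 8) := mul_le_mul_of_nonneg_right e4 hη3.le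
    have e7 : q ^ (2 * n) * (4 / (q - 1)) ≤ q ^ (2 * n) * (η ^ 3 / 8) :=
      mul_le_mul_of_nonneg_left hD4 (by positivity)
    have e8 : 1 ≤ q ^ (n / 2) := one_le_pow₀ hq1
    have e9 : 3 * (q ^ n * (2 * q ^ (n / 2))) + 2 * q ^ n ≤
        q ^ n * (8 * q ^ (n / 2)) := by
      have f2 : q ^ n ≤ q ^ n * q ^ (n / 2) :=
        le_mul_of_one_le_right (by positivity) e8
      nlinarith
    calc 3 * (q ^ n * (q ^ n / (q - 1) + 2 * q ^ (n / 2))) +
          (q ^ (2 * n) / (q - 1) + 2 * q ^ n)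
        = q ^ (2 * n) * (4 / (q - 1)) + (3 * (q ^ n * (2 * q ^ (n / 2))) +
          2 * q ^ n) := by ring
      _ ≤ q ^ (2 * n) * (η ^ 3 / 8) + q ^ n * (8 * q ^ (n / 2)) := add_le_add e7 e9
      _ ≤ q ^ (2 * n) * (η ^ 3 / 8) + q ^ n * (q ^ n * (η ^ 3 / 8)) :=
          add_le_add le_rfl (mul_le_mul_of_nonneg_left e5 (by positivity))
      _ = q ^ (2 * n) * (η ^ 3 / 8 + η ^ 3 / 8) := by ring
  have hGF : (G.card : ℝ) ≤ (((Fam F d e).filter fun Y => (Y 0).Monic).card : ℝ) := by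
    have e1 : G.card ≤ ((Fam F d e).filter fun Y => (Y 0).Monic).card := by
      refine Finset.card_le_card_of_injOn
        (fun p => ![Az m n p.1, Az m n p.2, -(Az m n p.1 + Az m n p.2)]) ?_ ?_
      · intro p hp
        rw [hG, Finset.mem_coe, Finset.mem_filter, Finset.mem_product, hg, hsq] at hp
        obtain ⟨⟨h5, h6⟩, ⟨g1, g2, g3⟩, h7⟩ := hp
        rw [Finset.mem_coe, Finset.mem_filter]
        refine ⟨?_, (az_mon hmm hn0 h5).1⟩
        rw [hn, hu]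
        exact gd_fam h2 hmm hn0 h5 h6 g1 g2 g3 h7
      · rintro ⟨x, y⟩ _ ⟨x', y'⟩ _ h
        have e2 := congrFun h 0
        have e3 := congrFun h 1
        have e4 : x = x' := az_inj hmm e2
        have e5 : y = y' := az_inj hmm e3
        rw [e4, e5]
    exact_mod_cast e1
  have hfin : q ^ (2 * n) * (η ^ 3 / 2) ≤
      (((Fam F d e).filter fun Y => (Y 0).Monic).card : ℝ) := by
    have e1 : q ^ (2 * n) * (η ^ 3 / 2) ≤ q ^ (2 * n) * (η ^ 3 - η ^ 3 / 8) -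
        q ^ (2 * n) * (η ^ 3 / 8 + η ^ 3 / 8) := by
      have : 0 ≤ q ^ (2 * n) * (η ^ 3 / 8) := by positivity
      nlinarith
    linarith
  refine le_trans (le_of_eq ?_) hfin
  rw [← hqd, ← hη]
  have e1 : d = n := by omega
  rw [e1]
  ring

end Pool.Agent.H94.AA
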