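import Pool.Agent.H94.PS.Fin

set_option autoImplicit false

/-!
# [H94 AA SCL] Scaling

For `c ∈ F`, `c ≠ 0`, and `Y ∈ Fam F d e` with `Y 0` monic, `fun i => C c * Y i` is in `Fam F d e` (`Tr`: the sum, the degrees, the product is multiplied by the unit `C c ^ 3`; `pf (C c * A) = pf A`: `mem_pf`) and its component `0` has the leading coefficient `c`.
So `(c, Y) ↦ c Y` is injective on `(F \ {0}) × {Y ∈ Fam F d e | Y 0 monic}`: `(q - 1) * card ≤ card`.
-/

namespace Pool.Agent.H94.AA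

open Polynomial
open Pool.Agent.H94.PC
open Pool.Agent.H94.PS

private theorem scl_mem {F : Type} [Field F] [Finite F] {d e : ℕ} (c : Fˣ)
    {Y : Fin 3 → F[X]} (hY : Y ∈ Fam F d e) : (fun i => C (c : F) * Y i) ∈ Fam F d e := by
  have hc : (c : F) ≠ 0 := c.ne_zero
  rw [mem_Fam] at hY ⊢
  obtain ⟨⟨h1, h2, h3⟩, h4⟩ := hY
  have hne : ∀ i, Y i ≠ 0 := by
    have h5 := h3.ne_zero
    intro i
    fin_cases i
    · intro h0
      apply h5
      have h0' : Y 0 = 0 := h0
      rw [h0', zero_mul, zero_mul]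
    · intro h0
      apply h5
      have h0' : Y 1 = 0 := h0
      rw [h0', mul_zero, zero_mul]
    · intro h0
      apply h5
      have h0' : Y 2 = 0 := h0
      rw [h0', mul_zero]
  refine ⟨⟨?_, ?_, ?_⟩, ?_⟩
  · show C (c : F) * Y 0 + C (c : F) * Y 1 + C (c : F) * Y 2 = 0
    rw [← mul_add, ← mul_add, h1, mul_zero]
  · intro i
    show (C (c : F) * Y i).natDegree = d
    rw [natDegree_C_mul hc]
    exact h2 i
  · show Squarefree (C (c : F) * Y 0 * (C (c : F) * Y 1) * (C (c : F) * Y 2))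
    have hu : IsUnit (C ((c : F) ^ 3)) := isUnit_C.mpr (isUnit_iff_ne_zero.mpr (pow_ne_zero 3 hc))
    have he : C (c : F) * Y 0 * (C (c : F) * Y 1) * (C (c : F) * Y 2) =
        C ((c : F) ^ 3) * (Y 0 * Y 1 * Y 2) := by
      rw [C_pow]
      ring
    rw [he]
    intro x hx
    exact h3 x ((hu.dvd_mul_left).mp hx)
  · intro i
    obtain ⟨P, hP, hPd⟩ := h4 i
    refine ⟨P, ?_, hPd⟩
    rw [mem_pf (hne i)] at hP
    show P ∈ pf (C (c : F) * Y i)
    rw [mem_pf (mul_ne_zero (C_ne_zero.mpr hc) (hne i))]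
    exact ⟨hP.1, hP.2.1, hP.2.2.mul_left _⟩

open Classical in
theorem scl {F : Type} [Field F] [Finite F] (d e : ℕ) :
    (Nat.card F - 1) * ((Fam F d e).filter fun Y => (Y 0).Monic).card ≤ (Fam F d e).card := by
  have : Fintype Fˣ := Fintype.ofFinite _
  have hu : Nat.card F - 1 = (Finset.univ : Finset Fˣ).card := by
    rw [Finset.card_univ, ← Nat.card_eq_fintype_card, Nat.card_units]
  rw [hu, ← Finset.card_product]
  refine Finset.card_le_card_of_injOn (fun z => fun i => C (z.1 : F) * z.2 i) ?_ ?_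
  · rintro ⟨c, Y⟩ h
    have h1 := (Finset.mem_product.mp (Finset.mem_coe.mp h)).2
    exact Finset.mem_coe.mpr (scl_mem c (Finset.mem_filter.mp h1).1)
  · rintro ⟨c, Y⟩ h ⟨c', Y'⟩ h' he
    have h1 := (Finset.mem_filter.mp (Finset.mem_product.mp (Finset.mem_coe.mp h)).2).2
    have h1' := (Finset.mem_filter.mp (Finset.mem_product.mp (Finset.mem_coe.mp h')).2).2
    have h2 : ∀ i, C (c : F) * Y i = C (c' : F) * Y' i := fun i => congrFun he i
    have h3 : (c : F) = (c' : F) := by
      have h4 := congrArg leadingCoeff (h2 0)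
      rw [leadingCoeff_mul, leadingCoeff_mul, leadingCoeff_C, leadingCoeff_C, h1.leadingCoeff,
        h1'.leadingCoeff, mul_one, mul_one] at h4
      exact h4
    have h5 : c = c' := Units.ext h3
    subst h5
    refine Prod.ext rfl ?_
    funext i
    exact mul_left_cancel₀ (C_ne_zero.mpr c.ne_zero) (h2 i)

end Pool.Agent.H94.AA
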