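import Pool.Agent.H94.AA.FU
import Pool.Agent.H94.AA.SCL

set_option autoImplicit false

/-!
# [H94 AA FU2] The density of the family, uniformly in `q`, all leading coefficients

The proof of `fu` (`H94/AA/FU.lean`) with leading coefficients: for `a, b ∈ F`, `a ≠ 0`, `b ≠ 0`, `a + b ≠ 0` and `x, y ∈ Lt F n` (`n = d`) put `w = C (a + b)⁻¹ * (C a * x + C b * y) ∈ Lt F n`; then `C a * Az 1 n x + C b * Az 1 n y = C (a + b) * Az 1 n w`, and
`Y = ![C a * Az x, C b * Az y, -(C a * Az x + C b * Az y)]` is in `Fam F d e` as soon as `g x = g y = g w = 1` (`gz`) and `Az x`, `Az y`, `Az w` are squarefree and `Az x`, `Az y` coprime (constants are units; `pf (C c * A) = pf A`, see `H94/AA/SCL.lean`).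
* `cpl` with `f x' = gz (C a⁻¹ * x')`, `g y' = gz (C b⁻¹ * y')`, `h s = gz (C (a + b)⁻¹ * s)` (substitution `x' = C a * x`, `y' = C b * y`, `s = x' + y'`; the character sum of `f` is the character sum of `gz` for the character `ψ (C a * ·)`, so `gz_fou` applies): the number of the pairs `(x, y)` with `g x = g y = g w = 1` is at least `q ^ (2 n) (η ^ 3 - η ^ 3 / 8)`.
* At most `q ^ (2 n) (η ^ 3 / 8 + η ^ 3 / 8)` pairs are bad (`bu1` for `x`, `y`, `w`: `(x, y) ↦ (x, w)` is injective; `bu2`), for large `n`.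
* So for each such `(a, b)` at least `q ^ (2 d) η ^ 3 / 2` elements of `Fam F d e` with the leading coefficients `a`, `b` of `Y 0`, `Y 1`; these sets are disjoint for different `(a, b)`; there are `(q - 1) (q - 2) ≥ q ^ 2 / 4` pairs `(a, b)` (`q ≥ 4`).
-/

namespace Pool.Agent.H94.AA

open Polynomial
open Pool.Agent.H94.PC
open Pool.Agent.H94.PS
open Pool.Agent.H3.SD

variable {F : Type} [Field F] [Finite F]

private theorem lt_lin {b : F} (hb : b ≠ 0) (hb1 : 1 + b ≠ 0) {n : ℕ} {x y : F[X]}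
    (hx : x ∈ Lt F n) (hy : y ∈ Lt F n) : C (1 + b)⁻¹ * (x + C b * y) ∈ Lt F n := by
  rw [mem_Lt] at *
  rw [degree_C_mul (inv_ne_zero hb1)]
  refine lt_of_le_of_lt (degree_add_le _ _) (max_lt hx ?_)
  rw [degree_C_mul hb]
  exact hy

omit [Finite F] in
private theorem az_lin {b : F} (hb1 : 1 + b ≠ 0) (m : F[X]) (n : ℕ) (x y : F[X]) :
    Az m n x + C b * Az m n y = C (1 + b) * Az m n (C (1 + b)⁻¹ * (x + C b * y)) := by
  have h3 : (C (1 + b) : F[X]) * C (1 + b)⁻¹ = 1 := by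
    rw [← C_mul, mul_inv_cancel₀ hb1, C_1]
  have h4 : (C (1 + b) : F[X]) = 1 + C b := by rw [C_add, C_1]
  unfold Az
  linear_combination (-(m * (x + C b * y))) * h3 + (-(m * X ^ n) - 1) * h4

private theorem gz_one' {m : F[X]} {n a e : ℕ} {z : F[X]} (h : gz m n a e z = 1) :
    ∃ P ∈ pf (Az m n z), n + m.natDegree ≤ P.natDegree + e := by
  unfold gz at h
  split_ifs at h with h1
  · obtain ⟨P, hP, h2, _⟩ := h1
    exact ⟨P, hP, h2⟩
  · exact absurd h zero_ne_one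

private theorem gd_lin {b : F} (hb : b ≠ 0) (hb1 : 1 + b ≠ 0) {m : F[X]} (hm : m.Monic)
    {n a e : ℕ} (hn : 0 < n)
    {x y : F[X]} (hx : x ∈ Lt F n) (hy : y ∈ Lt F n) (g1 : gz m n a e x = 1)
    (g2 : gz m n a e y = 1) (g3 : gz m n a e (C (1 + b)⁻¹ * (x + C b * y)) = 1)
    (hs : Squarefree (Az m n x * (C b * Az m n y) * (-(Az m n x + C b * Az m n y)))) :
    ![Az m n x, C b * Az m n y, -(Az m n x + C b * Az m n y)] ∈ Fam F (n + m.natDegree) e := by
  have hw := lt_lin hb hb1 hx hy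
  have ax := az_mon hm hn hx
  have ay := az_mon hm hn hy
  have aw := az_mon hm hn hw
  have hadd := az_lin hb1 m n x y
  have hne : -(Az m n x + C b * Az m n y) ≠ 0 := by
    rw [hadd, neg_ne_zero]
    exact mul_ne_zero (C_ne_zero.2 hb1) aw.1.ne_zero
  have hney : C b * Az m n y ≠ 0 := mul_ne_zero (C_ne_zero.2 hb) ay.1.ne_zero
  rw [mem_Fam]
  refine ⟨⟨?_, ?_, hs⟩, ?_⟩
  · show Az m n x + C b * Az m n y + -(Az m n x + C b * Az m n y) = 0
    ring
  · intro i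
    fin_cases i
    · exact ax.2
    · show (C b * Az m n y).natDegree = n + m.natDegree
      rw [natDegree_C_mul hb]
      exact ay.2
    · show (-(Az m n x + C b * Az m n y)).natDegree = n + m.natDegree
      rw [natDegree_neg, hadd, natDegree_C_mul hb1]
      exact aw.2
  · intro i
    fin_cases i
    · exact gz_one' g1
    · obtain ⟨P, hP, h3⟩ := gz_one' g2
      refine ⟨P, ?_, h3⟩
      show P ∈ pf (C b * Az m n y)
      rw [mem_pf hney]
      obtain ⟨q1, q2, q3⟩ := mem_pf' hP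
      exact ⟨q1, q2, q3.mul_left _⟩
    · obtain ⟨P, hP, h3⟩ := gz_one' g3
      refine ⟨P, ?_, h3⟩
      show P ∈ pf (-(Az m n x + C b * Az m n y))
      rw [mem_pf hne]
      obtain ⟨q1, q2, q3⟩ := mem_pf' hP
      refine ⟨q1, q2, ?_⟩
      rw [dvd_neg, hadd]
      exact q3.mul_left _

omit [Finite F] in
private theorem bad3_lin {b : F} (hb : b ≠ 0) (hb1 : 1 + b ≠ 0) {m : F[X]} {n : ℕ} {x y : F[X]}
    (h3 : Squarefree (Az m n x)) (h4 : Squarefree (Az m n y))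
    (h5 : Squarefree (Az m n (C (1 + b)⁻¹ * (x + C b * y))))
    (h6 : IsCoprime (Az m n x) (Az m n y)) :
    Squarefree (Az m n x * (C b * Az m n y) * (-(Az m n x + C b * Az m n y))) := by
  have hub : IsUnit (C b : F[X]) := isUnit_C.2 hb.isUnit
  have h7 : Squarefree (-(Az m n x + C b * Az m n y)) := by
    rw [az_lin hb1]
    have h8 : -(C (1 + b) * Az m n (C (1 + b)⁻¹ * (x + C b * y))) =
        C (-(1 + b)) * Az m n (C (1 + b)⁻¹ * (x + C b * y)) := by
      rw [C_neg, neg_mul]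
    rw [h8, squarefree_mul_iff]
    have h9 : IsUnit (C (-(1 + b) : F)) := isUnit_C.2 (neg_ne_zero.2 hb1).isUnit
    exact ⟨h9.isRelPrime_left, h9.squarefree, h5⟩
  have h4' : Squarefree (C b * Az m n y) := by
    rw [squarefree_mul_iff]
    exact ⟨hub.isRelPrime_left, hub.squarefree, h4⟩
  have h6' : IsCoprime (Az m n x) (C b * Az m n y) := by
    rw [isCoprime_mul_unit_left_right hub]
    exact h6
  rw [squarefree_mul_iff]
  refine ⟨?_, squarefree_mul_iff.2 ⟨h6'.isRelPrime, h3, h4'⟩, h7⟩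
  refine IsCoprime.isRelPrime ?_
  refine IsCoprime.neg_right ?_
  obtain ⟨a, c, hab⟩ := h6'
  refine IsCoprime.mul_left ?_ ?_
  · exact ⟨a - c, c, by rw [← hab]; ring⟩
  · exact ⟨c - a, a, by rw [← hab]; ring⟩

private theorem az_inj {m : F[X]} (hm : m.Monic) {n : ℕ} {x y : F[X]}
    (h : Az m n x = Az m n y) : x = y := by
  unfold Az at h
  have h1 := mul_left_cancel₀ hm.ne_zero (add_right_cancel h)
  exact add_left_cancel h1

private theorem gz_cases {m : F[X]} {n a e : ℕ} (z : F[X]) :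
    gz m n a e z = 0 ∨ gz m n a e z = 1 := by
  unfold gz
  split_ifs
  · exact Or.inr rfl
  · exact Or.inl rfl

open Classical in
/-- the number of pairs with a product that is not squarefree -/
private theorem bad_lin {b : F} (hb : b ≠ 0) (hb1 : 1 + b ≠ 0) {n : ℕ} (hn : 0 < n) (m : F[X]) (hm : m = 1) :
    (((Lt F n ×ˢ Lt F n).filter fun p => ¬ Squarefree (Az m n p.1 * (C b * Az m n p.2) *
      (-(Az m n p.1 + C b * Az m n p.2)))).card : ℝ) ≤
      3 * ((Nat.card F : ℝ) ^ n * ((Nat.card F : ℝ) ^ n / ((Nat.card F : ℝ) - 1) +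
        2 * (Nat.card F : ℝ) ^ (n / 2))) +
      ((Nat.card F : ℝ) ^ (2 * n) / ((Nat.card F : ℝ) - 1) +
        2 * (Nat.card F : ℝ) ^ n) := by
  set B : Finset F[X] := (Lt F n).filter fun z => ¬ Squarefree (Az m n z) with hB
  set B2 : Finset (F[X] × F[X]) := (Lt F n ×ˢ Lt F n).filter fun p =>
      ¬ IsCoprime (Az m n p.1) (Az m n p.2) with hB2
  set B3 : Finset (F[X] × F[X]) := (Lt F n ×ˢ Lt F n).filter fun p =>
      ¬ Squarefree (Az m n (C (1 + b)⁻¹ * (p.1 + C b * p.2))) with hB3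
  have h1 : ((Lt F n ×ˢ Lt F n).filter fun p => ¬ Squarefree (Az m n p.1 * (C b * Az m n p.2) *
      (-(Az m n p.1 + C b * Az m n p.2)))) ⊆ B ×ˢ Lt F n ∪ Lt F n ×ˢ B ∪ B3 ∪ B2 := by
    intro p hp
    rw [Finset.mem_filter, Finset.mem_product] at hp
    obtain ⟨⟨h3, h4⟩, h5⟩ := hp
    by_contra hcon
    simp only [Finset.mem_union, not_or] at hcon
    obtain ⟨⟨⟨c1, c2⟩, c3⟩, c4⟩ := hcon
    apply h5
    refine bad3_lin hb hb1 ?_ ?_ ?_ ?_
    · by_contra h
      exact c1 (Finset.mem_product.2 ⟨Finset.mem_filter.2 ⟨h3, h⟩, h4⟩)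
    · by_contra h
      exact c2 (Finset.mem_product.2 ⟨h3, Finset.mem_filter.2 ⟨h4, h⟩⟩)
    · by_contra h
      exact c3 (Finset.mem_filter.2 ⟨Finset.mem_product.2 ⟨h3, h4⟩, h⟩)
    · by_contra h
      exact c4 (Finset.mem_filter.2 ⟨Finset.mem_product.2 ⟨h3, h4⟩, h⟩)
  have h3 : B3.card ≤ (Lt F n ×ˢ B).card := by
    refine Finset.card_le_card_of_injOn (fun p => (p.1, C (1 + b)⁻¹ * (p.1 + C b * p.2))) ?_ ?_
    · intro p hp
      rw [hB3, Finset.mem_coe, Finset.mem_filter, Finset.mem_product] at hp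
      rw [Finset.mem_coe, Finset.mem_product]
      exact ⟨hp.1.1, Finset.mem_filter.2 ⟨lt_lin hb hb1 hp.1.1 hp.1.2, hp.2⟩⟩
    · rintro ⟨x, y⟩ _ ⟨x', y'⟩ _ h
      have e1 : x = x' := congrArg Prod.fst h
      have e2 : C (1 + b)⁻¹ * (x + C b * y) = C (1 + b)⁻¹ * (x' + C b * y') := congrArg Prod.snd h
      have hc : C (1 + b)⁻¹ ≠ 0 := C_ne_zero.2 (inv_ne_zero hb1)
      have e3 := mul_left_cancel₀ hc e2
      rw [e1] at e3
      have e4 := mul_left_cancel₀ (C_ne_zero.2 hb) (add_left_cancel e3)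
      rw [e1, e4]
  have h4 : ((Lt F n ×ˢ Lt F n).filter fun p => ¬ Squarefree (Az m n p.1 * (C b * Az m n p.2) *
      (-(Az m n p.1 + C b * Az m n p.2)))).card ≤
      B.card * Nat.card F ^ n + Nat.card F ^ n * B.card + Nat.card F ^ n * B.card + B2.card := by
    refine (Finset.card_le_card h1).trans ?_
    refine (Finset.card_union_le _ _).trans (Nat.add_le_add_right ?_ _)
    refine (Finset.card_union_le _ _).trans (Nat.add_le_add ?_ ?_)
    · refine (Finset.card_union_le _ _).trans ?_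
      rw [Finset.card_product, Finset.card_product, card_Lt]
    · refine h3.trans ?_
      rw [Finset.card_product, card_Lt]
  have h5 : (((Lt F n ×ˢ Lt F n).filter fun p => ¬ Squarefree (Az m n p.1 * (C b * Az m n p.2) *
      (-(Az m n p.1 + C b * Az m n p.2)))).card : ℝ) ≤
      3 * ((Nat.card F : ℝ) ^ n * (B.card : ℝ)) + (B2.card : ℝ) := by
    have h6 : (((Lt F n ×ˢ Lt F n).filter fun p => ¬ Squarefree (Az m n p.1 * (C b * Az m n p.2) *
      (-(Az m n p.1 + C b * Az m n p.2)))).card : ℝ) ≤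
      (B.card : ℝ) * (Nat.card F : ℝ) ^ n + (Nat.card F : ℝ) ^ n * (B.card : ℝ) +
        (Nat.card F : ℝ) ^ n * (B.card : ℝ) + (B2.card : ℝ) := by exact_mod_cast h4
    refine h6.trans (le_of_eq ?_)
    ring
  refine h5.trans (add_le_add ?_ (by rw [hB2, hm]; exact bu2 hn))
  have h7 : (B.card : ℝ) ≤ (Nat.card F : ℝ) ^ n / ((Nat.card F : ℝ) - 1) +
      2 * (Nat.card F : ℝ) ^ (n / 2) := by rw [hB, hm]; exact bu1 hn
  have h8 : (0 : ℝ) ≤ (Nat.card F : ℝ) ^ n := by positivity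
  have h9 := mul_le_mul_of_nonneg_left h7 h8
  linarith

private theorem pow_small {q : ℝ} (hq : 2 ≤ q) {c : ℝ} (hc : 0 < c) (K : ℝ) :
    ∃ D : ℕ, ∀ s : ℕ, D ≤ s → K / q ^ s ≤ c := by
  have h1 : Filter.Tendsto (fun s : ℕ => |K| * (1 / q) ^ s) Filter.atTop (nhds (|K| * 0)) := by
    refine (tendsto_pow_atTop_nhds_zero_of_lt_one (by positivity) ?_).const_mul _
    rw [div_lt_one (by linarith)]
    linarith
  rw [mul_zero] at h1
  obtain ⟨D, hD⟩ := Filter.eventually_atTop.1 (h1.eventually (gt_mem_nhds hc))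
  refine ⟨D, fun s hs => ?_⟩
  have h2 := hD s hs
  refine le_trans ?_ h2.le
  rw [one_div, inv_pow, ← div_eq_mul_inv]
  exact div_le_div_of_nonneg_right (le_abs_self K) (by positivity)

open Classical in
private theorem fu_lin {F : Type} [Field F] [Finite F] {ε : ℝ} (hε : 0 < ε)
    (h4 : ε ≤ 1 / 4) (hq : 32 / (ε / 4) ^ 3 + 1 ≤ (Nat.card F : ℝ)) :
    ∃ d₀ : ℕ, ∀ d : ℕ, d₀ ≤ d → ∀ b : F, b ≠ 0 → 1 + b ≠ 0 →
      (ε / 4) ^ 3 / 2 * (Nat.card F : ℝ) ^ (2 * d) ≤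
      (((Fam F d ⌊ε * d⌋₊).filter fun Y => (Y 0).Monic ∧ (Y 1).leadingCoeff = b).card : ℝ) := by
  obtain ⟨q, hqd⟩ : ∃ q : ℝ, q = (Nat.card F : ℝ) := ⟨_, rfl⟩
  have hq2 : 2 ≤ q := by
    have : 2 ≤ Nat.card F := Finite.one_lt_card
    rw [hqd]
    exact_mod_cast this
  have hq0 : 0 < q := by linarith
  have hq1 : 1 ≤ q := by linarith
  obtain ⟨η, hη⟩ : ∃ η : ℝ, η = ε / 4 := ⟨_, rfl⟩
  have hη0 : 0 < η := by rw [hη]; positivity
  have hη3 : 0 < η ^ 3 / 8 := by positivity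
  rw [← hqd, ← hη] at hq
  have hq32 : 32 / η ^ 3 ≤ q - 1 := by linarith
  have hqm : 0 < q - 1 := lt_of_lt_of_le (by positivity) hq32
  have hD4 : 4 / (q - 1) ≤ η ^ 3 / 8 := by
    rw [div_le_iff₀ (by positivity)] at hq32
    rw [div_le_iff₀ hqm]
    linarith
  have ha4 : 2 / q ≤ η ^ 3 / 8 := by
    refine le_trans ?_ hD4
    exact div_le_div₀ (by norm_num) (by norm_num) hqm (by linarith)
  obtain ⟨m, hm⟩ : ∃ m : F[X], m = 1 := ⟨_, rfl⟩
  obtain ⟨u, hu⟩ : ∃ u : ℕ, u = m.natDegree := ⟨_, rfl⟩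
  have hu0 : u = 0 := by rw [hu, hm]; exact natDegree_one
  have hmm : m.Monic := by rw [hm]; exact monic_one
  obtain ⟨s0, hs0⟩ := pow_small hq2 hη3 8
  obtain ⟨a, haa⟩ : ∃ a : ℕ, a = 2 := ⟨_, rfl⟩
  obtain ⟨d1, hd1⟩ := rho F hε (by linarith) a
  refine ⟨max d1 (2 * s0 + 2), ?_⟩
  intro d hd b hb hb1
  have hdd1 : d1 ≤ d := (le_max_left _ _).trans hd
  have hdd2 : 2 * s0 + 2 ≤ d := (le_max_right _ _).trans hd
  obtain ⟨n, hn⟩ : ∃ n : ℕ, d = n + u := ⟨d - u, by omega⟩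
  obtain ⟨e, he⟩ : ∃ e : ℕ, e = ⌊ε * d⌋₊ := ⟨_, rfl⟩
  have hn0 : 0 < n := by omega
  have he4 : (e : ℝ) ≤ d / 4 := by
    rw [he]
    refine (Nat.floor_le (by positivity)).trans ?_
    have : (0 : ℝ) ≤ (d : ℝ) := Nat.cast_nonneg _
    nlinarith
  have he4' : 4 * e ≤ d := by
    have h5 : (4 : ℝ) * e ≤ d := by linarith
    exact_mod_cast h5
  have he2 : 2 * e < n + m.natDegree := by rw [← hu, ← hn]; omega
  have hcop : ∀ k, n + m.natDegree ≤ k + e → ∀ P ∈ Pr F k, IsCoprime m P := by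
    intro k hk P hP
    rw [hm]
    exact isCoprime_one_left
  have hua : m.natDegree ≤ a := by rw [← hu, haa]; omega
  rw [← he]
  -- the mean
  obtain ⟨g, hg⟩ : ∃ g : F[X] → ℝ, g = gz m n a e := ⟨_, rfl⟩
  obtain ⟨S, hS⟩ : ∃ S : ℝ, S = ∑ z ∈ Lt F n, g z := ⟨_, rfl⟩
  have hSη : q ^ n * η ≤ S := by
    rw [hS, hg, gz_mean hmm hn0 hua he2 hcop]
    have h6 := hd1 d hdd1
    rw [← he] at h6
    rw [← hη] at h6
    have h7 : ∑ α ∈ Finset.Icc a e, ((Pr F (n + m.natDegree - α)).card : ℝ) *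
        (Nat.card F : ℝ) ^ (α - m.natDegree) =
        q ^ n * ∑ α ∈ Finset.Icc a e, ((Pr F (d - α)).card : ℝ) /
          (Nat.card F : ℝ) ^ (d - α) := by
      rw [Finset.mul_sum]
      refine Finset.sum_congr rfl fun α hα => ?_
      rw [Finset.mem_Icc] at hα
      rw [← hu, ← hn, ← hqd]
      have h8 : q ^ (α - u) * q ^ (d - α) = q ^ n := by
        rw [← pow_add]
        congr 1
        omega
      rw [← h8]
      have : q ^ (d - α) ≠ 0 := by positivity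
      field_simp
    rw [h7]
    exact mul_le_mul_of_nonneg_left h6 (by positivity)
  have hS0 : 0 ≤ S := le_trans (by positivity) hSη
  -- the second and the third function
  have hh : ∀ c : F, c ≠ 0 → ∑ s ∈ Lt F n, g (C c⁻¹ * s) = S := by
    intro c hc0
    rw [hS]
    have hc : C c * C c⁻¹ = 1 := by
      rw [← C_mul, mul_inv_cancel₀ hc0, C_1]
    refine Finset.sum_nbij' (fun s => C c⁻¹ * s) (fun s => C c * s) ?_ ?_ ?_ ?_ ?_
    · intro s hs
      rw [mem_Lt] at *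
      rw [degree_C_mul (inv_ne_zero hc0)]
      exact hs
    · intro s hs
      rw [mem_Lt] at *
      rw [degree_C_mul hc0]
      exact hs
    · intro s _
      show C c * (C c⁻¹ * s) = s
      rw [← mul_assoc, hc, one_mul]
    · intro s _
      show C c⁻¹ * (C c * s) = s
      rw [← mul_assoc, mul_comm (C c⁻¹), hc, one_mul]
    · intro s _
      rfl
  obtain ⟨E, hE⟩ : ∃ E : ℝ, E = 2 * q ^ (n + u + 1 - a) := ⟨_, rfl⟩
  have hgr : ∀ x, 0 ≤ g x ∧ g x ≤ 1 := fun x => by rw [hg]; exact gz_range x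
  have hcpl := cpl (n := n) g (fun y => g (C b⁻¹ * y)) (fun s => g (C (1 + b)⁻¹ * s)) hgr
    (fun x => hgr _) (fun x => hgr _)
    (E := E) (by rw [hE]; positivity) (by
      intro ψ hψ
      rw [hg, hE, hqd, hu]
      exact gz_fou hmm hn0 hua he2 hcop ψ hψ)
  rw [hh b hb, hh (1 + b) hb1, ← hS, ← hqd] at hcpl
  obtain ⟨T, hT⟩ : ∃ T : ℝ, T = ∑ x ∈ Lt F n, ∑ y ∈ Lt F n,
    g x * g y * g (C (1 + b)⁻¹ * (x + C b * y)) := ⟨_, rfl⟩
  have hTT : ∑ x ∈ Lt F n, ∑ y ∈ Lt F n, g x * g (C b⁻¹ * y) * g (C (1 + b)⁻¹ * (x + y)) = T := by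
    rw [hT]
    have hc : C b * C b⁻¹ = 1 := by
      rw [← C_mul, mul_inv_cancel₀ hb, C_1]
    refine Finset.sum_congr rfl fun x _ => ?_
    refine Finset.sum_nbij' (fun s => C b⁻¹ * s) (fun s => C b * s) ?_ ?_ ?_ ?_ ?_
    · intro s hs
      rw [mem_Lt] at *
      rw [degree_C_mul (inv_ne_zero hb)]
      exact hs
    · intro s hs
      rw [mem_Lt] at *
      rw [degree_C_mul hb]
      exact hs
    · intro s _
      show C b * (C b⁻¹ * s) = s
      rw [← mul_assoc, hc, one_mul]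
    · intro s _
      show C b⁻¹ * (C b * s) = s
      rw [← mul_assoc, mul_comm (C b⁻¹), hc, one_mul]
    · intro s _
      have e : C b * (C b⁻¹ * s) = s := by rw [← mul_assoc, hc, one_mul]
      show g x * g (C b⁻¹ * s) * g (C (1 + b)⁻¹ * (x + s)) =
        g x * g (C b⁻¹ * s) * g (C (1 + b)⁻¹ * (x + C b * (C b⁻¹ * s)))
      rw [e]
  rw [hTT] at hcpl
  have hTlow : q ^ (2 * n) * (η ^ 3 - η ^ 3 / 8) ≤ T := by
    have e1 := (abs_le.1 hcpl).1
    have e2 : q ^ (2 * n) * η ^ 3 ≤ S * S * S / q ^ n := by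
      rw [le_div_iff₀ (by positivity)]
      have e3 : q ^ (2 * n) * η ^ 3 * q ^ n = (q ^ n * η) ^ 3 := by ring
      rw [e3]
      calc (q ^ n * η) ^ 3 ≤ S ^ 3 := pow_le_pow_left₀ (by positivity) hSη 3
        _ = S * S * S := by ring
    have e4 : E * q ^ n ≤ q ^ (2 * n) * (η ^ 3 / 8) := by
      have e5 : q ^ (n + u + 1 - a) * q = q ^ n := by
        rw [← pow_succ]
        congr 1
        omega
      have e6 : E * q ^ n = q ^ (2 * n) * (2 / q) := by
        rw [hE, mul_div_assoc', eq_div_iff hq0.ne']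
        calc 2 * q ^ (n + u + 1 - a) * q ^ n * q =
              2 * (q ^ (n + u + 1 - a) * q) * q ^ n := by ring
            _ = 2 * q ^ n * q ^ n := by rw [e5]
            _ = q ^ (2 * n) * 2 := by ring
      rw [e6]
      exact mul_le_mul_of_nonneg_left ha4 (by positivity)
    have e8 : q ^ (2 * n) * (η ^ 3 - η ^ 3 / 8) =
        q ^ (2 * n) * η ^ 3 - q ^ (2 * n) * (η ^ 3 / 8) := by ring
    rw [e8]
    linarith
  -- good and bad pairs
  obtain ⟨sq, hsq⟩ : ∃ sq : F[X] × F[X] → Prop, sq = fun p => Squarefree (Az m n p.1 *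
    (C b * Az m n p.2) * (-(Az m n p.1 + C b * Az m n p.2))) := ⟨_, rfl⟩
  obtain ⟨G, hG⟩ : ∃ G : Finset (F[X] × F[X]), G = (Lt F n ×ˢ Lt F n).filter fun p =>
    (g p.1 = 1 ∧ g p.2 = 1 ∧ g (C (1 + b)⁻¹ * (p.1 + C b * p.2)) = 1) ∧ sq p := ⟨_, rfl⟩
  obtain ⟨N, hN⟩ : ∃ N : Finset (F[X] × F[X]), N = (Lt F n ×ˢ Lt F n).filter fun p =>
    ¬ sq p := ⟨_, rfl⟩
  have hTGN : T ≤ (G.card : ℝ) + (N.card : ℝ) := by
    rw [hT, ← Finset.sum_product' (f := fun x y => g x * g y * g (C (1 + b)⁻¹ * (x + C b * y)))]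
    have e1 : ∀ p ∈ Lt F n ×ˢ Lt F n, g p.1 * g p.2 * g (C (1 + b)⁻¹ * (p.1 + C b * p.2)) ≤
        (if (g p.1 = 1 ∧ g p.2 = 1 ∧ g (C (1 + b)⁻¹ * (p.1 + C b * p.2)) = 1) ∧ sq p then (1 : ℝ) else 0) +
        (if ¬ sq p then (1 : ℝ) else 0) := by
      intro p _
      by_cases hs : sq p
      · rw [if_neg (not_not.2 hs), add_zero]
        rcases gz_cases (m := m) (n := n) (a := a) (e := e) p.1 with h | h
        · rw [← hg] at h
          rw [h, zero_mul, zero_mul]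
          split_ifs <;> norm_num
        rcases gz_cases (m := m) (n := n) (a := a) (e := e) p.2 with h' | h'
        · rw [← hg] at h'
          rw [h', mul_zero, zero_mul]
          split_ifs <;> norm_num
        rcases gz_cases (m := m) (n := n) (a := a) (e := e) (C (1 + b)⁻¹ * (p.1 + C b * p.2)) with h'' | h''
        · rw [← hg] at h''
          rw [h'', mul_zero]
          split_ifs <;> norm_num
        rw [← hg] at h h' h''
        rw [if_pos ⟨⟨h, h', h''⟩, hs⟩, h, h', h'']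
        norm_num
      · rw [if_pos hs]
        have e2 : g p.1 * g p.2 * g (C (1 + b)⁻¹ * (p.1 + C b * p.2)) ≤ 1 := by
          have f1 := hgr p.1
          have f2 := hgr p.2
          have f3 := hgr (C (1 + b)⁻¹ * (p.1 + C b * p.2))
          exact mul_le_one₀ (mul_le_one₀ f1.2 f2.1 f2.2) f3.1 f3.2
        have e3 : (0 : ℝ) ≤ (if (g p.1 = 1 ∧ g p.2 = 1 ∧ g (C (1 + b)⁻¹ * (p.1 + C b * p.2)) = 1) ∧ sq p
          then (1 : ℝ) else 0) := by split_ifs <;> norm_num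
        linarith
    refine (Finset.sum_le_sum e1).trans (le_of_eq ?_)
    rw [Finset.sum_add_distrib, Finset.sum_boole, Finset.sum_boole, hG, hN]
  have hNle : (N.card : ℝ) ≤ q ^ (2 * n) * (η ^ 3 / 8 + η ^ 3 / 8) := by
    have e1 := bad_lin hb hb1 hn0 m hm
    rw [← hqd] at e1
    rw [hN, hsq]
    refine e1.trans ?_
    have hs1 : s0 ≤ n / 2 := by omega
    have e2 := hs0 (n / 2) hs1
    have e4 : q ^ (n / 2) * q ^ (n / 2) ≤ q ^ n := by
      rw [← pow_add]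
      exact pow_le_pow_right₀ hq1 (by omega)
    have e5 : 8 * q ^ (n / 2) ≤ q ^ n * (η ^ 3 / 8) := by
      have e6 : 8 ≤ η ^ 3 / 8 * q ^ (n / 2) := by
        rwa [div_le_iff₀ (by positivity)] at e2
      calc 8 * q ^ (n / 2) ≤ (η ^ 3 / 8 * q ^ (n / 2)) * q ^ (n / 2) :=
            mul_le_mul_of_nonneg_right e6 (by positivity)
        _ = (q ^ (n / 2) * q ^ (n / 2)) * (η ^ 3 / 8) := by ring
        _ ≤ q ^ n * (η ^ 3 / 8) := mul_le_mul_of_nonneg_right e4 hη3.le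
    have e7 : q ^ (2 * n) * (4 / (q - 1)) ≤ q ^ (2 * n) * (η ^ 3 / 8) :=
      mul_le_mul_of_nonneg_left hD4 (by positivity)
    have e8 : 1 ≤ q ^ (n / 2) := one_le_pow₀ hq1
    have e9 : 3 * (q ^ n * (2 * q ^ (n / 2))) + 2 * q ^ n ≤
        q ^ n * (8 * q ^ (n / 2)) := by
      have f2 : q ^ n ≤ q ^ n * q ^ (n / 2) :=
        le_mul_of_one_le_right (by positivity) e8
      nlinarith
    calc 3 * (q ^ n * (q ^ n / (q - 1) + 2 * q ^ (n / 2))) +
          (q ^ (2 * n) / (q - 1) + 2 * q ^ n)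
        = q ^ (2 * n) * (4 / (q - 1)) + (3 * (q ^ n * (2 * q ^ (n / 2))) +
          2 * q ^ n) := by ring
      _ ≤ q ^ (2 * n) * (η ^ 3 / 8) + q ^ n * (8 * q ^ (n / 2)) := add_le_add e7 e9
      _ ≤ q ^ (2 * n) * (η ^ 3 / 8) + q ^ n * (q ^ n * (η ^ 3 / 8)) :=
          add_le_add le_rfl (mul_le_mul_of_nonneg_left e5 (by positivity))
      _ = q ^ (2 * n) * (η ^ 3 / 8 + η ^ 3 / 8) := by ring
  have hGF : (G.card : ℝ) ≤ (((Fam F d e).filter fun Y => (Y 0).Monic ∧ (Y 1).leadingCoeff = b).card : ℝ) := by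
    have e1 : G.card ≤ ((Fam F d e).filter fun Y => (Y 0).Monic ∧ (Y 1).leadingCoeff = b).card := by
      refine Finset.card_le_card_of_injOn
        (fun p => ![Az m n p.1, C b * Az m n p.2, -(Az m n p.1 + C b * Az m n p.2)]) ?_ ?_
      · intro p hp
        rw [hG, Finset.mem_coe, Finset.mem_filter, Finset.mem_product, hg, hsq] at hp
        obtain ⟨⟨h5, h6⟩, ⟨g1, g2, g3⟩, h7⟩ := hp
        rw [Finset.mem_coe, Finset.mem_filter]
        refine ⟨?_, (az_mon hmm hn0 h5).1, ?_⟩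
        · rw [hn, hu]
          exact gd_lin hb hb1 hmm hn0 h5 h6 g1 g2 g3 h7
        · show (C b * Az m n p.2).leadingCoeff = b
          rw [leadingCoeff_mul, leadingCoeff_C, (az_mon hmm hn0 h6).1.leadingCoeff, mul_one]
      · rintro ⟨x, y⟩ _ ⟨x', y'⟩ _ h
        have e2 := congrFun h 0
        have e3 := congrFun h 1
        have e4 : x = x' := az_inj hmm e2
        have e5 : y = y' := az_inj hmm (mul_left_cancel₀ (C_ne_zero.2 hb) e3)
        rw [e4, e5]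
    exact_mod_cast e1
  have hfin : q ^ (2 * n) * (η ^ 3 / 2) ≤
      (((Fam F d e).filter fun Y => (Y 0).Monic ∧ (Y 1).leadingCoeff = b).card : ℝ) := by
    have e1 : q ^ (2 * n) * (η ^ 3 / 2) ≤ q ^ (2 * n) * (η ^ 3 - η ^ 3 / 8) -
        q ^ (2 * n) * (η ^ 3 / 8 + η ^ 3 / 8) := by
      have : 0 ≤ q ^ (2 * n) * (η ^ 3 / 8) := by positivity
      nlinarith
    linarith
  refine le_trans (le_of_eq ?_) hfin
  rw [← hqd, ← hη]
  have e1 : d = n := by omega
  rw [e1]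
  ring

theorem fu2 {F : Type} [Field F] [Finite F] (h2 : (2 : F) ≠ 0) {ε : ℝ} (hε : 0 < ε) (h4 : ε ≤ 1 / 4)
    (hq : 32 / (ε / 4) ^ 3 + 1 ≤ (Nat.card F : ℝ)) :
    ∃ d₀ : ℕ, ∀ d : ℕ, d₀ ≤ d → (ε / 4) ^ 3 / 8 * (Nat.card F : ℝ) ^ (2 * (d + 1)) ≤
      ((Fam F d ⌊ε * d⌋₊).card : ℝ) := by
  classical
  obtain ⟨d₀, hd₀⟩ := fu_lin hε h4 hq
  refine ⟨d₀, fun d hd => ?_⟩
  have h5 := hd₀ d hd
  have h6 := scl (F := F) d ⌊ε * (d : ℝ)⌋₊
  have : Fintype F := Fintype.ofFinite F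
  obtain ⟨q, hqd⟩ : ∃ q : ℝ, q = (Nat.card F : ℝ) := ⟨_, rfl⟩
  have h2q : 2 ≤ Nat.card F := Finite.one_lt_card
  have hq4 : 4 ≤ q := by
    rw [hqd]
    refine le_trans ?_ hq
    have h7 : 0 < (ε / 4) ^ 3 := by positivity
    have h8 : (ε / 4) ^ 3 ≤ 1 := pow_le_one₀ (by positivity) (by linarith)
    have h9 : 32 ≤ 32 / (ε / 4) ^ 3 := by
      rw [le_div_iff₀ h7]
      linarith
    linarith
  -- the monic ones
  obtain ⟨Mo, hMo⟩ : ∃ Mo : Finset (Fin 3 → F[X]),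
    Mo = (Fam F d ⌊ε * d⌋₊).filter fun Y => (Y 0).Monic := ⟨_, rfl⟩
  have hsum : ∑ b ∈ (Finset.univ : Finset F).filter (fun b => b ≠ 0 ∧ 1 + b ≠ 0),
      (((Fam F d ⌊ε * d⌋₊).filter fun Y => (Y 0).Monic ∧ (Y 1).leadingCoeff = b).card : ℝ) ≤
      (Mo.card : ℝ) := by
    have e1 : ∑ b ∈ (Finset.univ : Finset F).filter (fun b => b ≠ 0 ∧ 1 + b ≠ 0),
      ((Fam F d ⌊ε * d⌋₊).filter fun Y => (Y 0).Monic ∧ (Y 1).leadingCoeff = b).card ≤ Mo.card := by
      rw [← Finset.card_biUnion]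
      · refine Finset.card_le_card ?_
        intro Y hY
        rw [Finset.mem_biUnion] at hY
        obtain ⟨b, -, hb⟩ := hY
        rw [Finset.mem_filter] at hb
        rw [hMo, Finset.mem_filter]
        exact ⟨hb.1, hb.2.1⟩
      · intro b _ b' _ hbb
        rw [Function.onFun, Finset.disjoint_left]
        intro Y h h'
        rw [Finset.mem_filter] at h h'
        exact hbb (h.2.2.symm.trans h'.2.2)
    exact_mod_cast e1
  have hcard : (((Finset.univ : Finset F).filter (fun b => b ≠ 0 ∧ 1 + b ≠ 0)).card : ℝ) ≥ q - 2 := by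
    have e1 : Finset.univ = (Finset.univ : Finset F).filter (fun b => b ≠ 0 ∧ 1 + b ≠ 0) ∪ {0, -1} := by
      ext b
      simp only [Finset.mem_univ, Finset.mem_union, Finset.mem_filter, Finset.mem_insert,
        Finset.mem_singleton, true_and, true_iff]
      by_cases hb : b = 0
      · exact Or.inr (Or.inl hb)
      · by_cases hb1 : 1 + b = 0
        · exact Or.inr (Or.inr (eq_neg_of_add_eq_zero_right hb1))
        · exact Or.inl ⟨hb, hb1⟩
    have e2 : Nat.card F ≤ ((Finset.univ : Finset F).filter (fun b => b ≠ 0 ∧ 1 + b ≠ 0)).card + 2 := by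
      rw [Nat.card_eq_fintype_card, ← Finset.card_univ, e1]
      refine (Finset.card_union_le _ _).trans (Nat.add_le_add (Finset.card_le_card ?_) Finset.card_le_two)
      rw [← e1]
    have e3 : q ≤ (((Finset.univ : Finset F).filter (fun b => b ≠ 0 ∧ 1 + b ≠ 0)).card : ℝ) + 2 := by
      rw [hqd]
      exact_mod_cast e2
    linarith
  have hMlow : (q - 2) * ((ε / 4) ^ 3 / 2 * q ^ (2 * d)) ≤ (Mo.card : ℝ) := by
    refine le_trans ?_ hsum
    refine le_trans ?_ (Finset.sum_le_sum fun b hb => h5 b (Finset.mem_filter.1 hb).2.1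
      (Finset.mem_filter.1 hb).2.2)
    rw [Finset.sum_const, nsmul_eq_mul, ← hqd]
    exact mul_le_mul_of_nonneg_right hcard (by positivity)
  have h7 : (q - 1) * (Mo.card : ℝ) ≤ ((Fam F d ⌊ε * d⌋₊).card : ℝ) := by
    have h8 : (((Nat.card F - 1) *
        ((Fam F d ⌊ε * (d : ℝ)⌋₊).filter fun Y => (Y 0).Monic).card : ℕ) : ℝ) ≤
        ((Fam F d ⌊ε * d⌋₊).card : ℝ) := by
      exact_mod_cast h6
    rw [Nat.cast_mul, Nat.cast_sub (by omega), Nat.cast_one, ← hqd, ← hMo] at h8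
    exact h8
  rw [← hqd]
  refine le_trans ?_ h7
  refine le_trans ?_ (mul_le_mul_of_nonneg_left hMlow (by linarith))
  have h9 : 0 ≤ (ε / 4) ^ 3 * q ^ (2 * d) := by positivity
  have h10 : q ^ 2 / 4 ≤ (q - 1) * (q - 2) := by nlinarith
  calc (ε / 4) ^ 3 / 8 * q ^ (2 * (d + 1)) = (q ^ 2 / 4) * ((ε / 4) ^ 3 * q ^ (2 * d)) / 2 := by ring
    _ ≤ ((q - 1) * (q - 2)) * ((ε / 4) ^ 3 * q ^ (2 * d)) / 2 :=
        div_le_div_of_nonneg_right (mul_le_mul_of_nonneg_right h10 h9) (by norm_num)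
    _ = (q - 1) * ((q - 2) * ((ε / 4) ^ 3 / 2 * q ^ (2 * d))) := by ring

end Pool.Agent.H94.AA
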