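import Pool.Agent.H94.AA.Defs

set_option autoImplicit false

/-!
# [H94 AA RED] Reduction of polynomials

* `dvd_C`: `f.map r.φ = 0` iff `C r.ϖ ∣ f`: coefficientwise (`Polynomial.ext`, `r.ker`, `C_dvd_iff_dvd_coeff`).
* `red_ne`: if `X`, `Z` are relatively prime and `Z.map r.φ = 0` then `X.map r.φ ≠ 0`: otherwise `C r.ϖ` divides both, so it is a unit; but `r.φ r.ϖ = 0` (`r.ker`).
* `deg_A` .. : `natDegree` of `A`, `B`, `A - B` is `d` (`natDegree_map_le`, `natDegree_sub_le`).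
* `dv_unit`: if `s ∣ f`, `f.natDegree ≤ (f.map r.φ).natDegree`, `f.map r.φ ≠ 0` and `s.map r.φ` is a unit then `s = C c` with `r.φ c ≠ 0`: `f = s * g`; `deg f̄ ≤ deg s̄ + deg ḡ = deg ḡ ≤ deg g`, `deg f = deg s + deg g` (domain, `natDegree_mul`), so `deg s = 0`, `s = C (s.coeff 0)`.
* `sq_lift`: if `f̄` is squarefree and `deg f ≤ deg f̄` then `f` is squarefree: `x * x ∣ f` implies that `x̄` is a unit, `dv_unit`, `r.unit`.
* `cop`: `Ā`, `B̄`, `Ā - B̄` are pairwise coprime (`squarefree_mul_iff`, `IsRelPrime`, in `k[X]` `isRelPrime_iff_isCoprime` or `IsRelPrime.isCoprime`).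
* `ne0`: `A`, `B`, `A - B` are not zero and squarefree.
-/

namespace Pool.Agent.H94.AA

open Polynomial

variable {R k : Type} [CommRing R] [IsDomain R] [Field k] (r : Rd R k)

theorem dvd_C (f : R[X]) : f.map r.φ = 0 ↔ C r.ϖ ∣ f := by
  rw [C_dvd_iff_dvd_coeff, Polynomial.ext_iff]
  simp only [coeff_map, coeff_zero, r.ker]

theorem red_ne {X Z : R[X]} (hr : IsRelPrime X Z) (hZ : Z.map r.φ = 0) : X.map r.φ ≠ 0 := by
  intro hX
  have h1 := hr ((dvd_C r X).1 hX) ((dvd_C r Z).1 hZ)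
  have h2 : IsUnit r.ϖ := isUnit_C.1 h1
  have h3 : r.φ r.ϖ = 0 := (r.ker _).2 dvd_rfl
  have h4 := h2.map r.φ
  rw [h3] at h4
  exact not_isUnit_zero h4

variable {r}

theorem dv_unit {s f : R[X]} (hs : s ∣ f) (hf : f.natDegree ≤ (f.map r.φ).natDegree)
    (hf0 : f.map r.φ ≠ 0) (hu : IsUnit (s.map r.φ)) : ∃ c : R, s = C c ∧ r.φ c ≠ 0 := by
  obtain ⟨g, rfl⟩ := hs
  have hs0 : s ≠ 0 := by
    rintro rfl
    apply hf0
    simp
  have hg0 : g ≠ 0 := by
    rintro rfl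
    apply hf0
    simp
  rw [Polynomial.map_mul] at hf hf0
  have hs0' : s.map r.φ ≠ 0 := hu.ne_zero
  have hg0' : g.map r.φ ≠ 0 := by
    intro h
    rw [h, mul_zero] at hf0
    exact hf0 rfl
  rw [natDegree_mul hs0 hg0, natDegree_mul hs0' hg0', natDegree_eq_zero_of_isUnit hu] at hf
  have h1 := natDegree_map_le (f := r.φ) (p := g)
  have h2 : s.natDegree = 0 := by omega
  have h3 := eq_C_of_natDegree_eq_zero h2
  refine ⟨s.coeff 0, h3, ?_⟩
  intro h4
  apply hs0'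
  rw [h3, map_C, h4, C_0]

theorem sq_lift {f : R[X]} (hf : f.natDegree ≤ (f.map r.φ).natDegree)
    (hs : Squarefree (f.map r.φ)) : Squarefree f := by
  intro x hx
  have h1 : x.map r.φ * x.map r.φ ∣ f.map r.φ := by
    rw [← Polynomial.map_mul]
    exact Polynomial.map_dvd _ hx
  obtain ⟨c, hc, hc0⟩ := dv_unit ((dvd_mul_right x x).trans hx) hf hs.ne_zero (hs _ h1)
  rw [hc]
  exact isUnit_C.2 (r.unit c hc0)

variable {d : ℕ} {A B : R[X]}

theorem deg_A (h : St r d A B) : A.natDegree = d ∧ B.natDegree = d ∧ (A - B).natDegree = d := by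
  have h1 := natDegree_map_le (f := r.φ) (p := A)
  have h2 := natDegree_map_le (f := r.φ) (p := B)
  have h3 := natDegree_map_le (f := r.φ) (p := A - B)
  have h4 : (A - B).natDegree ≤ d := natDegree_sub_le_of_le h.dA h.dB |>.trans (by simp)
  rw [h.rA] at h1
  rw [h.rB] at h2
  rw [h.rAB] at h3
  exact ⟨le_antisymm h.dA h1, le_antisymm h.dB h2, le_antisymm h4 h3⟩

theorem cop (h : St r d A B) : IsCoprime (A.map r.φ) (B.map r.φ) ∧
    IsCoprime (A.map r.φ) ((A - B).map r.φ) ∧ IsCoprime (B.map r.φ) ((A - B).map r.φ) := by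
  have h1 := squarefree_mul_iff.1 h.sqf
  have h2 := squarefree_mul_iff.1 h1.2.1
  have h3 := IsRelPrime.mul_left_iff.1 h1.1
  exact ⟨h2.1.isCoprime, h3.1.isCoprime, h3.2.isCoprime⟩

theorem sqf_A (h : St r d A B) : Squarefree A ∧ Squarefree B ∧ Squarefree (A - B) := by
  have h1 := squarefree_mul_iff.1 h.sqf
  have h2 := squarefree_mul_iff.1 h1.2.1
  obtain ⟨d1, d2, d3⟩ := deg_A h
  refine ⟨sq_lift ?_ h2.2.1, sq_lift ?_ h2.2.2, sq_lift ?_ h1.2.2⟩
  · rw [h.rA, d1]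
  · rw [h.rB, d2]
  · rw [h.rAB, d3]

end Pool.Agent.H94.AA
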