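import Pool.Agent.H94.AA.LOW
import Pool.Agent.H94.AA.RED

set_option autoImplicit false

/-!
# [H94 AA HAL] Halving

Put `N = (U + V) (U + W)`.  Then `N - A Z ^ 2 = (U + V) (V + W)` (`A Z ^ 2 = U ^ 2 - V ^ 2`), `N - B Z ^ 2 = (U + W) (V + W)` and the product of the three is `((U + V) (U + W) (V + W)) ^ 2`.
`low` gives `(X₁, Y₁, Z₁)` with `X₁ Z ^ 2 = N Z₁ ^ 2`, relatively prime.  Modulo `ϖ`: `N̄ = 4 Ū ^ 2 ≠ 0` (`Ū ^ 2 = X̄ ≠ 0` by `red_ne`, `2 ≠ 0`) and `Z̄ = 0`, so `N̄ Z̄₁ ^ 2 = 0`, `Z̄₁ = 0`.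
The last identity: with `M = (U + V) (U + W) (V + W)`: `N ^ 2 - A B Z ^ 4 = (U + V) ^ 2 (U + W) ^ 2 - (U ^ 2 - V ^ 2) (U ^ 2 - W ^ 2) = 2 U M` and `N (N - A Z ^ 2) (N - B Z ^ 2) = M ^ 2`, so
`(N ^ 2 - A B Z ^ 4) ^ 2 = 4 X N (N - A Z ^ 2) (N - B Z ^ 2)`; multiply by `Z₁ ^ 8` and use `N Z₁ ^ 2 = X₁ Z ^ 2`: the left side is `Z ^ 8 (X₁ ^ 2 - A B Z₁ ^ 4) ^ 2`, the right side `4 X Z₁ ^ 2 Z ^ 6 X₁ (X₁ - A Z₁ ^ 2) (X₁ - B Z₁ ^ 2)`; cancel `Z ^ 6 ≠ 0`.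
-/

namespace Pool.Agent.H94.AA

open Polynomial

variable {R k : Type} [CommRing R] [IsDomain R] [UniqueFactorizationMonoid R] [Field k] {r : Rd R k}
  {A B : R[X]}

theorem hal {X Z U V W : R[X]} (hr : IsRelPrime X Z) (hZ0 : Z ≠ 0) (hZ : Z.map r.φ = 0)
    (hU : X = U ^ 2) (hV : X - A * Z ^ 2 = V ^ 2) (hW : X - B * Z ^ 2 = W ^ 2)
    (hVU : V.map r.φ = U.map r.φ) (hWU : W.map r.φ = U.map r.φ) :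
    ∃ X₁ Y₁ Z₁ : R[X], Z₁ ≠ 0 ∧ IsRelPrime X₁ Z₁ ∧ Z₁.map r.φ = 0 ∧
      Y₁ ^ 2 = X₁ * (X₁ - A * Z₁ ^ 2) * (X₁ - B * Z₁ ^ 2) ∧
      (X₁ ^ 2 - A * B * Z₁ ^ 4) ^ 2 * Z ^ 2 =
        4 * X * Z₁ ^ 2 * (X₁ * (X₁ - A * Z₁ ^ 2) * (X₁ - B * Z₁ ^ 2)) := by
  have hA : A * Z ^ 2 = U ^ 2 - V ^ 2 := by linear_combination hU - hV
  have hB : B * Z ^ 2 = U ^ 2 - W ^ 2 := by linear_combination hU - hW
  obtain ⟨N, hN⟩ : ∃ N, N = (U + V) * (U + W) := ⟨_, rfl⟩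
  obtain ⟨M, hM⟩ : ∃ M, M = (U + V) * (U + W) * (V + W) := ⟨_, rfl⟩
  have hMN : M ^ 2 = N * (N - A * Z ^ 2) * (N - B * Z ^ 2) := by
    rw [hA, hB, hM, hN]
    ring
  obtain ⟨X1, Y1, Z1, g1, g2, g3, g4, g5⟩ := low hZ0 hMN
  have hX0 : X.map r.φ ≠ 0 := red_ne r hr hZ
  have hU0 : U.map r.φ ≠ 0 := by
    intro h0
    refine hX0 ?_
    rw [hU, Polynomial.map_pow, h0]
    ring
  have hN0 : N.map r.φ ≠ 0 := by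
    rw [hN, Polynomial.map_mul, Polynomial.map_add, Polynomial.map_add, hVU, hWU, ← two_mul]
    have h2 : (2 : k[X]) ≠ 0 := by
      have h3 : (2 : k[X]) = C (2 : k) := by rw [map_ofNat]
      rw [h3, Ne, C_eq_zero]
      exact r.two
    exact mul_ne_zero (mul_ne_zero h2 hU0) (mul_ne_zero h2 hU0)
  have hZ1 : Z1.map r.φ = 0 := by
    have h1 := congrArg (Polynomial.map r.φ) g3
    rw [Polynomial.map_mul, Polynomial.map_pow, hZ, Polynomial.map_mul, Polynomial.map_pow] at h1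
    have h2 : N.map r.φ * Z1.map r.φ ^ 2 = 0 := by
      rw [← h1]
      ring
    rcases mul_eq_zero.1 h2 with h3 | h3
    · exact absurd h3 hN0
    · exact pow_eq_zero_iff two_ne_zero |>.1 h3
  refine ⟨X1, Y1, Z1, g1, g2, hZ1, g5, ?_⟩
  have hkey : (N ^ 2 - A * B * Z ^ 4) ^ 2 = 4 * X * (N * (N - A * Z ^ 2) * (N - B * Z ^ 2)) := by
    rw [← hMN]
    have h1 : N ^ 2 - A * B * Z ^ 4 = 2 * U * M := by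
      have h2 : A * B * Z ^ 4 = (A * Z ^ 2) * (B * Z ^ 2) := by ring
      rw [h2, hA, hB, hM, hN]
      ring
    rw [h1, hU]
    ring
  refine mul_left_cancel₀ (pow_ne_zero 6 hZ0) ?_
  calc Z ^ 6 * ((X1 ^ 2 - A * B * Z1 ^ 4) ^ 2 * Z ^ 2)
      = ((X1 * Z ^ 2) ^ 2 - A * B * Z1 ^ 4 * Z ^ 4) ^ 2 := by ring
    _ = ((N * Z1 ^ 2) ^ 2 - A * B * Z1 ^ 4 * Z ^ 4) ^ 2 := by rw [g3]
    _ = Z1 ^ 8 * (N ^ 2 - A * B * Z ^ 4) ^ 2 := by ring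
    _ = Z1 ^ 8 * (4 * X * (N * (N - A * Z ^ 2) * (N - B * Z ^ 2))) := by rw [hkey]
    _ = 4 * X * Z1 ^ 2 * ((N * Z1 ^ 2) * ((N * Z1 ^ 2) - A * Z1 ^ 2 * Z ^ 2) *
        ((N * Z1 ^ 2) - B * Z1 ^ 2 * Z ^ 2)) := by ring
    _ = 4 * X * Z1 ^ 2 * ((X1 * Z ^ 2) * ((X1 * Z ^ 2) - A * Z1 ^ 2 * Z ^ 2) *
        ((X1 * Z ^ 2) - B * Z1 ^ 2 * Z ^ 2)) := by rw [g3]
    _ = Z ^ 6 * (4 * X * Z1 ^ 2 * (X1 * (X1 - A * Z1 ^ 2) * (X1 - B * Z1 ^ 2))) := by ring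

end Pool.Agent.H94.AA
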