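import Pool.Agent.H94.AA.Defs
import Pool.Agent.H94.MW.Mw
import Pool.Agent.H94.MW.Odt
import Pool.Agent.H94.MW.Str

set_option autoImplicit false

/-!
# [H94 AA MW0] A 2-Selmer group with four elements

`Gd d A B`: `A`, `B`, `A - B` have degree `d`, the product is squarefree, the 2-Selmer group of `y ^ 2 = x (x - A) (x - B)` has 4 elements.
`mw0`: `![0, A, B]` is injective.  `mw_fg`, `mw_rk` with `r = 0` (`finrank = 0`), `odt`, `str`: every point `P` has `2 • P = 0` (see the proof of `points` in `Results/MP_1bad5e_ag/PositiveShare.lean`).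
For `X, Y, Z` with `Z ≠ 0` and `Y ^ 2 = X (X - A Z ^ 2) (X - B Z ^ 2)`, the point `(X / Z ^ 2, Y / Z ^ 3)` over `RatFunc F` (`nonsing_iff`) has `y = 0` by `two_smul_some`, so `Y = 0`.
-/

namespace Pool.Agent.H94.AA

open Polynomial

/-- the 2-Selmer group has 4 elements -/
structure Gd {F : Type} [Field F] [DecidableEq (RatFunc F)] (d : ℕ) (A B : F[X]) : Prop where
  dA : A.natDegree = d
  dB : B.natDegree = d
  dAB : (A - B).natDegree = d
  sqf : Squarefree (A * B * (A - B))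
  sel : Nat.card (H94.PN.SelC 2 1 (1 : F) ![0, A, B] (1 : F[X])) = 4

private theorem mw0_kill {G : Type} [AddCommGroup G] {n : ℕ} (hn : n = 0)
    (φ : G ≃+ (ZMod 2 × ZMod 2) × (Fin n → ℤ)) (g : G) : 2 • g = 0 := by
  subst hn
  apply φ.injective
  rw [map_nsmul, map_zero]
  have h1 : ∀ a : ZMod 2, 2 • a = 0 := by decide
  refine Prod.ext (Prod.ext ?_ ?_) ?_
  · exact h1 _
  · exact h1 _
  · funext i
    exact i.elim0

theorem mw0 {F : Type} [Field F] [Finite F] [DecidableEq (RatFunc F)] (h2 : (2 : F) ≠ 0) {d : ℕ}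
    (hd : Odd d) {A B : F[X]} (h : Gd d A B) : NoPt A B := by
  have hne : A * B * (A - B) ≠ 0 := h.sqf.ne_zero
  have hA : A ≠ 0 := fun h1 => hne (by rw [h1, zero_mul, zero_mul])
  have hB : B ≠ 0 := fun h1 => hne (by rw [h1, mul_zero, zero_mul])
  have hAB : A ≠ B := fun h1 => hne (by rw [h1, sub_self, mul_zero])
  have hinj : Function.Injective (![0, A, B] : Fin 3 → F[X]) := by
    intro i j hij
    fin_cases i <;> fin_cases j
    · rfl
    · exact absurd hij.symm hA
    · exact absurd hij.symm hB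
    · exact absurd hij hA
    · rfl
    · exact absurd hij hAB
    · exact absurd hij hB
    · exact absurd hij.symm hAB
    · rfl
  have h4 : Nat.card (H94.PN.SelC 2 1 1 ![0, A, B] (1 : F[X])) ≠ 0 := by
    rw [h.sel]
    norm_num
  have h5 := Nat.finite_of_card_ne_zero h4
  have hfg := H94.MW.mw_fg h2 hinj (Set.toFinite _)
  have hinj' : Function.Injective
      fun i => algebraMap F[X] (RatFunc F) ((![0, A, B] : Fin 3 → F[X]) i) :=
    fun i j hij => hinj (RatFunc.algebraMap_injective F hij)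
  have hK2 : (2 : RatFunc F) ≠ 0 := by
    have h6 := (map_ne_zero (algebraMap F (RatFunc F))).2 h2
    rwa [map_ofNat] at h6
  have hrk := H94.MW.mw_rk (r := 0) h2 hinj (by rw [h.sel]; norm_num)
  obtain ⟨φ⟩ := H94.MW.str hfg
    (fun P hP => H94.MW.odt h2 hd h.dA h.dB h.dAB h.sqf P hP)
    (H94.MW.card_two hK2 hinj')
  intro X' Y' Z' hZ hE
  have hZ' : algebraMap F[X] (RatFunc F) Z' ≠ 0 := by
    intro h0
    apply hZ
    exact RatFunc.algebraMap_injective F (by rw [h0, map_zero])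
  obtain ⟨ζ, hζ⟩ : ∃ ζ, ζ = algebraMap F[X] (RatFunc F) Z' := ⟨_, rfl⟩
  obtain ⟨ξ, hξ⟩ : ∃ ξ, ξ = algebraMap F[X] (RatFunc F) X' := ⟨_, rfl⟩
  obtain ⟨η, hη⟩ : ∃ η, η = algebraMap F[X] (RatFunc F) Y' := ⟨_, rfl⟩
  rw [← hζ] at hZ'
  have hE' : η ^ 2 = ξ * (ξ - algebraMap F[X] (RatFunc F) A * ζ ^ 2) *
      (ξ - algebraMap F[X] (RatFunc F) B * ζ ^ 2) := by
    have h7 := congrArg (algebraMap F[X] (RatFunc F)) hE
    simp only [map_pow, map_mul, map_sub] at h7
    rw [← hζ, ← hξ, ← hη] at h7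
    exact h7
  have hxy : (η / ζ ^ 3) ^ 2 = ∏ i : Fin 3, (ξ / ζ ^ 2 -
      algebraMap F[X] (RatFunc F) ((![0, A, B] : Fin 3 → F[X]) i)) := by
    rw [Fin.prod_univ_three]
    simp only [Matrix.cons_val_zero, Matrix.cons_val_one, Matrix.cons_val, map_zero, sub_zero]
    field_simp
    linear_combination hE'
  have hns := (H94.MW.nonsing_iff hK2 hinj' (ξ / ζ ^ 2) (η / ζ ^ 3)).mpr hxy
  have hk := mw0_kill (Nat.le_zero.mp hrk) φ (WeierstrassCurve.Affine.Point.some _ _ hns)
  have hy := (H94.MW.two_smul_some hK2 hns).mp hk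
  have hη0 : η = 0 := by
    rcases div_eq_zero_iff.mp hy with h8 | h8
    · exact h8
    · exact absurd h8 (pow_ne_zero 3 hZ')
  exact RatFunc.algebraMap_injective F (by rw [← hη, hη0, map_zero])

end Pool.Agent.H94.AA
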