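import Pool.Agent.H94.AA.FU2
import Pool.Agent.H94.AA.LAW

set_option autoImplicit false

/-!
# [H94 AA LAW2] A uniform share of all pairs has a 2-Selmer group of order 4

The proof of `law` (`H94/AA/LAW.lean`) with `fu2` instead of `fu` and `scl`: `card Fam ≥ (η ^ 3 / 8) q ^ (2 (d + 1))`, `ε = 1 / 10`, `η = 1 / 40`; `c = min 1 (κ η ^ 3 / 16)`.
-/

namespace Pool.Agent.H94.AA

open Polynomial

private theorem law2_prod : 0 < (∏' i : ℕ, (1 + 1 / (2 : ℝ) ^ i))⁻¹ := by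
  rw [inv_pos]
  by_cases h : Multipliable (fun i : ℕ => 1 + 1 / (2 : ℝ) ^ i)
  · have h1 : (1 : ℝ) ≤ ∏' i : ℕ, (1 + 1 / (2 : ℝ) ^ i) := by
      refine ge_of_tendsto' (HasProd.tendsto_prod_nat h.hasProd) (fun n => ?_)
      have h2 : ∏ i ∈ Finset.range n, (1 : ℝ) ≤ ∏ i ∈ Finset.range n, (1 + 1 / (2 : ℝ) ^ i) := by
        refine Finset.prod_le_prod (fun i _ => zero_le_one) (fun i _ => ?_)
        have : 0 ≤ 1 / (2 : ℝ) ^ i := by positivity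
        linarith
      rwa [Finset.prod_const_one] at h2
    linarith
  · rw [tprod_eq_one_of_not_multipliable h]
    norm_num

private theorem law2_gd {F : Type} [Field F] [Finite F] [DecidableEq (RatFunc F)]
    (h2 : (2 : F) ≠ 0) {ε : ℝ} (h0 : 0 ≤ ε) {d : ℕ} (hd : Odd d) {A B : F[X]}
    (h : H94.PS.Adm ε d A B) (hr : H94.PS.rkY (H94.PS.mkY A B) = 0) : Gd d A B := by
  refine ⟨h.degA, h.degB, h.degAB, h.sqf, ?_⟩
  have hY := (H94.PS.mem_Fam.1 ((H94.PS.adm_iff h0).1 h)).1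
  have h3 : Nat.card (H94.PN.SelC 2 1 1 ![0, A, B] (1 : F[X])) =
      4 * Nat.card (H94.PS.RadX ![A, -B, B - A]) := H68.PG.geo h2 hY hd
  rw [h3]
  have h1 : Nat.card (H94.PS.RadX ![A, -B, B - A]) =
      2 ^ H94.PS.rkY (H94.PS.mkY A B) := by
    rw [Module.natCard_eq_pow_finrank (K := ZMod 2), Nat.card_eq_fintype_card, ZMod.card]
    rfl
  rw [h1, hr]
  norm_num

private theorem law2_fin {F : Type} [Field F] [Finite F] [DecidableEq (RatFunc F)] (d : ℕ) :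
    Finite {p : F[X] × F[X] // Gd d p.1 p.2} := by
  have h1 := H94.PC.finite_natDegree_le F d
  have h2 : {p : F[X] × F[X] | Gd d p.1 p.2} ⊆
      {f : F[X] | f.natDegree ≤ d} ×ˢ {f : F[X] | f.natDegree ≤ d} :=
    fun p hp => ⟨hp.dA.le, hp.dB.le⟩
  exact ((h1.prod h1).subset h2).to_subtype

private theorem law2_count {F : Type} [Field F] [Finite F] [DecidableEq (RatFunc F)]
    (h2 : (2 : F) ≠ 0) {ε : ℝ} (h0 : 0 ≤ ε) {d : ℕ} (hd : Odd d) :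
    ((H94.PS.Fam F d ⌊ε * (d : ℝ)⌋₊).filter fun Y => H94.PS.rkY Y = 0).card ≤
      Nat.card {p : F[X] × F[X] // Gd d p.1 p.2} := by
  rw [← H94.PS.card_adm (F := F) h0 d fun Y => H94.PS.rkY Y = 0]
  have := law2_fin (F := F) d
  exact Nat.card_le_card_of_injective
    (fun p : {p : F[X] × F[X] // H94.PS.Adm ε d p.1 p.2 ∧ H94.PS.rkY (H94.PS.mkY p.1 p.2) = 0} =>
      (⟨p.1, law2_gd h2 h0 hd p.2.1 p.2.2⟩ : {p : F[X] × F[X] // Gd d p.1 p.2}))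
    (fun p p' hpp => by
      have h5 := congrArg (fun z : {p : F[X] × F[X] // Gd d p.1 p.2} => z.1) hpp
      exact Subtype.ext h5)

private theorem law2_fam {F : Type} [Field F] [Finite F] (h2 : (2 : F) ≠ 0) {ε : ℝ} (hε : 0 < ε)
    (h4 : ε ≤ 1 / 4) (hq : 32 / (ε / 4) ^ 3 + 1 ≤ (Nat.card F : ℝ)) :
    ∃ d₀ : ℕ, ∀ d : ℕ, d₀ ≤ d → (ε / 4) ^ 3 / 8 * (Nat.card F : ℝ) ^ (2 * (d + 1)) ≤
      ((H94.PS.Fam F d ⌊ε * d⌋₊).card : ℝ) := fu2 h2 hε h4 hq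

theorem law2u : ∃ c : ℝ, 0 < c ∧ c ≤ 1 ∧ ∃ Q : ℕ, ∀ (F : Type) [Field F] [Finite F]
    [DecidableEq (RatFunc F)], (2 : F) ≠ 0 → Q ≤ Nat.card F → ∃ n₀ : ℕ, ∀ n : ℕ, n₀ ≤ n →
      c * (Nat.card F : ℝ) ^ (2 * (2 * n + 2)) ≤
        (Nat.card {p : F[X] × F[X] // Gd (2 * n + 1) p.1 p.2} : ℝ) := by
  obtain ⟨κ, hκ⟩ : ∃ κ : ℝ, κ = (∏' i : ℕ, (1 + 1 / (2 : ℝ) ^ i))⁻¹ := ⟨_, rfl⟩
  have hκ0 : 0 < κ := by
    rw [hκ]
    exact law2_prod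
  obtain ⟨ε, hε⟩ : ∃ ε : ℝ, ε = 1 / 10 := ⟨_, rfl⟩
  have hε0 : 0 < ε := by rw [hε]; norm_num
  have hε1 : ε ≤ 1 / 10 := hε.le
  refine ⟨min 1 (κ / 2 * ((ε / 4) ^ 3 / 8)), lt_min one_pos (by positivity), min_le_left _ _,
    ⌈32 / (ε / 4) ^ 3 + 1⌉₊, ?_⟩
  intro F _ _ _ h2 hQ
  have hQ' : 32 / (ε / 4) ^ 3 + 1 ≤ (Nat.card F : ℝ) := Nat.ceil_le.mp hQ
  obtain ⟨d₀, hd₀⟩ := law2_fam h2 hε0 (by linarith) hQ'
  have hq1 : (1 : ℝ) ≤ Nat.card F := by exact_mod_cast (Nat.card_pos : 0 < Nat.card F)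
  have hq0 : (0 : ℝ) < Nat.card F := by linarith
  obtain ⟨N, hN⟩ := H94.PS.asm (F := F) ε hε1
    (fun k δ hδ => H3.SC.mom_zero h2 (H3.SE.bad_bound h2) k hδ)
    (fun k δ hδ => H3.SC.mom_one h2 k hδ)
    (fun δ hδ => by
      obtain ⟨D, hD⟩ := H74.ST.st1 (F := F) δ hδ
      exact ⟨D, fun d hd e _ => hD d hd e⟩)
    ⟨(ε / 4) ^ 3 / 8, by positivity, d₀, fun d hd => le_trans
      (mul_le_mul_of_nonneg_left (pow_le_pow_right₀ hq1 (by omega)) (by positivity))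
      (hd₀ d hd)⟩ 0 (κ / 2) (by positivity)
  refine ⟨max N d₀, fun n hn => ?_⟩
  have h3 := hN n ((le_max_left _ _).trans hn)
  have h4 := hd₀ (2 * n + 1) (by
    have := (le_max_right N d₀).trans hn
    omega)
  have h5 : (((H94.PS.Fam F (2 * n + 1) ⌊ε * ((2 * n + 1 : ℕ) : ℝ)⌋₊).filter
      fun Y => H94.PS.rkY Y = 0).card : ℝ) ≤
      (Nat.card {p : F[X] × F[X] // Gd (2 * n + 1) p.1 p.2} : ℝ) := by
    exact_mod_cast law2_count h2 hε0.le ⟨n, rfl⟩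
  rw [Finset.range_zero, Finset.prod_empty, mul_one, ← hκ] at h3
  have h6 := (abs_le.mp h3).1
  obtain ⟨T, hT⟩ : ∃ T : ℝ, T = ((H94.PS.Fam F (2 * n + 1) ⌊ε * ((2 * n + 1 : ℕ) : ℝ)⌋₊).card : ℝ) :=
    ⟨_, rfl⟩
  rw [← hT] at h6 h4
  have h7 : κ / 2 * T ≤ (Nat.card {p : F[X] × F[X] // Gd (2 * n + 1) p.1 p.2} : ℝ) := by
    linarith
  refine le_trans ?_ h7
  obtain ⟨q, hqd⟩ : ∃ q : ℝ, q = (Nat.card F : ℝ) := ⟨_, rfl⟩
  rw [← hqd] at h4 hq0 ⊢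
  calc min 1 (κ / 2 * ((ε / 4) ^ 3 / 8)) * q ^ (2 * (2 * n + 2)) ≤
      (κ / 2 * ((ε / 4) ^ 3 / 8)) * q ^ (2 * (2 * n + 2)) :=
        mul_le_mul_of_nonneg_right (min_le_right _ _) (by positivity)
    _ = κ / 2 * ((ε / 4) ^ 3 / 8 * q ^ (2 * ((2 * n + 1) + 1))) := by ring
    _ ≤ κ / 2 * T := mul_le_mul_of_nonneg_left h4 (by positivity)

end Pool.Agent.H94.AA
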