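import Pool.Agent.H94.AA.Defs

set_option autoImplicit false

/-!
# [H94 AA LOW] Lowest terms in a unique factorisation domain

Induction on the number of prime factors of `Z` (`WfDvdMonoid`: well-founded induction on `DvdNotUnit`).  If `X` and `Z` have no common prime factor then they are relatively prime (`X' = X` etc.; `Z ≠ 0`).
Otherwise let `π` be a common prime factor, `X = π X₁`, `Z = π Z₁`.  Then `Y ^ 2 = π ^ 3 X₁ (X₁ - a π Z₁ ^ 2) (X₁ - b π Z₁ ^ 2)`, so `π ∣ Y`, `Y = π Y₁`, `Y₁ ^ 2 = π X₁ (..) (..)`, `Y₁ = π Y₂`, `π Y₂ ^ 2 = X₁ (X₁ - a π Z₁ ^ 2) (X₁ - b π Z₁ ^ 2)`;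
modulo `π` the right side is `X₁ ^ 3`, so `X₁ = π X₂`, `π Y₂ ^ 2 = π ^ 3 X₂ (X₂ - a Z₁ ^ 2) (X₂ - b Z₁ ^ 2)`, `Y₂ = π Y₃` and `Y₃ ^ 2 = X₂ (X₂ - a Z₁ ^ 2) (X₂ - b Z₁ ^ 2)`.
So `(X₂, Y₃, Z₁)`, with `X = π ^ 2 X₂`, `Y = π ^ 3 Y₃`, `Z = π Z₁`, is again a solution, and `Z₁ ≠ 0` has fewer prime factors.
-/

namespace Pool.Agent.H94.AA

theorem low {D : Type} [CommRing D] [IsDomain D] [UniqueFactorizationMonoid D] {a b X Y Z : D} (hZ : Z ≠ 0)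
    (h : Y ^ 2 = X * (X - a * Z ^ 2) * (X - b * Z ^ 2)) :
    ∃ X' Y' Z' : D, Z' ≠ 0 ∧ IsRelPrime X' Z' ∧ X' * Z ^ 2 = X * Z' ^ 2 ∧ Y' * Z ^ 3 = Y * Z' ^ 3 ∧
      Y' ^ 2 = X' * (X' - a * Z' ^ 2) * (X' - b * Z' ^ 2) := by
  induction Z using (wellFounded_dvdNotUnit (α := D)).induction generalizing X Y with
  | _ Z ih =>
    by_cases hr : IsRelPrime X Z
    · exact ⟨X, Y, Z, hZ, hr, rfl, rfl, h⟩
    have h1 : ∃ c, c ∣ X ∧ c ∣ Z ∧ ¬ IsUnit c := by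
      by_contra hcon
      push Not at hcon
      exact hr fun c h1 h2 => hcon c h1 h2
    obtain ⟨c, hcX, hcZ, hcu⟩ := h1
    have hc0 : c ≠ 0 := fun h0 => hZ (by rw [h0] at hcZ; exact zero_dvd_iff.1 hcZ)
    obtain ⟨q, hq, hqc⟩ := WfDvdMonoid.exists_irreducible_factor hcu hc0
    have hp : Prime q := UniqueFactorizationMonoid.irreducible_iff_prime.1 hq
    have hq0 : q ≠ 0 := hp.ne_zero
    obtain ⟨X1, rfl⟩ := hqc.trans hcX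
    obtain ⟨Z1, rfl⟩ := hqc.trans hcZ
    have hZ1 : Z1 ≠ 0 := right_ne_zero_of_mul hZ
    have e1 : Y ^ 2 = q ^ 3 * (X1 * (X1 - a * q * Z1 ^ 2) * (X1 - b * q * Z1 ^ 2)) := by
      rw [h]
      ring
    have d1 : q ∣ Y := hp.dvd_of_dvd_pow (e1 ▸ (dvd_pow_self q three_ne_zero).mul_right _)
    obtain ⟨Y1, rfl⟩ := d1
    have e2 : Y1 ^ 2 = q * (X1 * (X1 - a * q * Z1 ^ 2) * (X1 - b * q * Z1 ^ 2)) := by
      refine mul_left_cancel₀ (pow_ne_zero 2 hq0) ?_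
      rw [← mul_pow, e1]
      ring
    have d2 : q ∣ Y1 := hp.dvd_of_dvd_pow (e2 ▸ dvd_mul_right q _)
    obtain ⟨Y2, rfl⟩ := d2
    have e3 : q * Y2 ^ 2 = X1 * (X1 - a * q * Z1 ^ 2) * (X1 - b * q * Z1 ^ 2) := by
      refine mul_left_cancel₀ hq0 ?_
      rw [← e2]
      ring
    have d3 : q ∣ X1 := by
      refine hp.dvd_of_dvd_pow (n := 3) ?_
      have e4 : X1 ^ 3 = q * (Y2 ^ 2 + X1 ^ 2 * (a * Z1 ^ 2 + b * Z1 ^ 2) -
          q * X1 * a * b * Z1 ^ 4) := by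
        linear_combination -e3
      rw [e4]
      exact dvd_mul_right q _
    obtain ⟨X2, rfl⟩ := d3
    have e5 : Y2 ^ 2 = q ^ 2 * (X2 * (X2 - a * Z1 ^ 2) * (X2 - b * Z1 ^ 2)) := by
      refine mul_left_cancel₀ hq0 ?_
      rw [e3]
      ring
    have d4 : q ∣ Y2 := hp.dvd_of_dvd_pow (e5 ▸ (dvd_pow_self q two_ne_zero).mul_right _)
    obtain ⟨Y3, rfl⟩ := d4
    have e6 : Y3 ^ 2 = X2 * (X2 - a * Z1 ^ 2) * (X2 - b * Z1 ^ 2) := by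
      refine mul_left_cancel₀ (pow_ne_zero 2 hq0) ?_
      rw [← mul_pow, e5]
    have hlt : DvdNotUnit Z1 (q * Z1) := ⟨hZ1, q, hp.not_isUnit, mul_comm _ _⟩
    obtain ⟨X', Y', Z', g1, g2, g3, g4, g5⟩ := ih Z1 hlt hZ1 e6
    refine ⟨X', Y', Z', g1, g2, ?_, ?_, g5⟩
    · linear_combination q ^ 2 * g3
    · linear_combination q ^ 3 * g4

end Pool.Agent.H94.AA
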