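import Pool.Agent.H94.AA.Defs

set_option autoImplicit false

/-!
# [H94 AA PAD] The `p`-adic integers and the points over `ℚ(t)`

* `pad`: `φ = PadicInt.toZMod`, `ϖ = p`: `PadicInt.ker_toZMod`, `PadicInt.maximalIdeal_eq_span_p`, `PadicInt.isUnit_iff`, `IsLocalRing`; squares of units: Hensel (`hensels_lemma` for `X ^ 2 - C x` at a lift of the root, or `HenselianLocalRing` from `IsAdicComplete`); `2 ≠ 0` in `ZMod p` for `p ≠ 2`.
* `rat`: `x`, `y` in `ℚ(t)` with `y ^ 2 = x (x - A) (x - B)`.  There are `a, b, c ∈ ℤ[X]`, `c ≠ 0`, with `x = a / c`, `y = b / c` (`RatFunc.num_div_denom`, common denominator; clear the denominators of the coefficients with `IsLocalization.integerNormalization` or `IsFractionRing ℤ[X] (RatFunc ℚ)` if available).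
  `X = a c`, `Y = b c ^ 2`, `Z = c`: `Y ^ 2 = X (X - A Z ^ 2) (X - B Z ^ 2)` in `ℤ[X]` (the map `ℤ[X] → RatFunc ℚ` is injective), map it to `ℤ_[p][X]` (injective as well, `Int.cast_injective`): `Y = 0`, so `b = 0` and `y = 0`.
-/

namespace Pool.Agent.H94.AA

open Polynomial

private theorem pad_ker (p : ℕ) [Fact p.Prime] (x : ℤ_[p]) :
    PadicInt.toZMod x = 0 ↔ (p : ℤ_[p]) ∣ x := by
  rw [← RingHom.mem_ker, PadicInt.ker_toZMod, PadicInt.maximalIdeal_eq_span_p,
    Ideal.mem_span_singleton]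

private theorem pad_unit (p : ℕ) [Fact p.Prime] (x : ℤ_[p]) (hx : PadicInt.toZMod x ≠ 0) :
    IsUnit x := by
  rw [PadicInt.isUnit_iff]
  have h1 : ¬ (‖x‖ < 1) := by
    rw [PadicInt.norm_lt_one_iff_dvd, ← pad_ker]
    exact hx
  exact le_antisymm (PadicInt.norm_le_one x) (not_lt.mp h1)

private theorem pad_two (p : ℕ) [Fact p.Prime] (hp : p ≠ 2) : (2 : ZMod p) ≠ 0 := by
  intro h
  have h1 : ((2 : ℕ) : ZMod p) = 0 := by exact_mod_cast h
  rw [ZMod.natCast_eq_zero_iff] at h1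
  have h2 := (Nat.prime_dvd_prime_iff_eq (Fact.out : p.Prime) Nat.prime_two).mp h1
  exact hp h2

theorem pad (p : ℕ) [Fact p.Prime] (hp : p ≠ 2) :
    ∃ r : Rd ℤ_[p] (ZMod p), r.φ = PadicInt.toZMod := by
  refine ⟨⟨PadicInt.toZMod, (p : ℤ_[p]), pad_ker p, pad_unit p, ?_, pad_two p hp⟩, rfl⟩
  intro x hx hs
  obtain ⟨s, hs⟩ := hs
  obtain ⟨a, ha⟩ := ZMod.ringHom_surjective (PadicInt.toZMod (p := p)) s
  have hs0 : s ≠ 0 := by
    intro h
    rw [h, mul_zero] at hs
    exact hx hs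
  have h2a : ‖(2 : ℤ_[p]) * a‖ = 1 := by
    rw [← PadicInt.isUnit_iff]
    apply pad_unit
    rw [map_mul, ha]
    refine mul_ne_zero ?_ hs0
    rw [map_ofNat]
    exact pad_two p hp
  have hlt : ‖a ^ 2 - x‖ < 1 := by
    rw [PadicInt.norm_lt_one_iff_dvd, ← pad_ker, map_sub, map_pow, ha, hs]
    ring
  have hF : ‖Polynomial.aeval a ((X : ℤ_[p][X]) ^ 2 - C x)‖ <
      ‖Polynomial.aeval a (derivative ((X : ℤ_[p][X]) ^ 2 - C x))‖ ^ 2 := by
    have e1 : Polynomial.aeval a ((X : ℤ_[p][X]) ^ 2 - C x) = a ^ 2 - x := by simp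
    have e2 : Polynomial.aeval a (derivative ((X : ℤ_[p][X]) ^ 2 - C x)) = 2 * a := by
      simp
      left
      norm_num
    rw [e1, e2, h2a]
    simpa using hlt
  obtain ⟨z, hz, -⟩ := hensels_lemma hF
  have hz2 : z ^ 2 - x = 0 := by
    have e1 : Polynomial.aeval z ((X : ℤ_[p][X]) ^ 2 - C x) = z ^ 2 - x := by simp
    rw [← e1]
    exact hz
  exact ⟨z, by linear_combination -hz2⟩

private theorem rat_frac (x : RatFunc ℚ) : ∃ n d : ℤ[X], d ≠ 0 ∧
    x * algebraMap ℚ[X] (RatFunc ℚ) (d.map (Int.castRingHom ℚ)) =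
      algebraMap ℚ[X] (RatFunc ℚ) (n.map (Int.castRingHom ℚ)) := by
  have key : ∀ f : ℚ[X], ∃ (b : ℤ) (g : ℤ[X]), b ≠ 0 ∧
      g.map (Int.castRingHom ℚ) = C (b : ℚ) * f := by
    intro f
    obtain ⟨b, hbm, hb⟩ := IsLocalization.integerNormalization_spec (nonZeroDivisors ℤ) f
    refine ⟨b, IsLocalization.integerNormalization (nonZeroDivisors ℤ) f,
      nonZeroDivisors.ne_zero hbm, ?_⟩
    have h1 : (algebraMap ℤ ℚ) = Int.castRingHom ℚ := rfl
    rw [h1] at hb
    rw [hb]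
    ext i
    simp
  obtain ⟨b1, g1, hb1, hg1⟩ := key (RatFunc.num x)
  obtain ⟨b2, g2, hb2, hg2⟩ := key (RatFunc.denom x)
  have hden : RatFunc.denom x ≠ 0 := RatFunc.denom_ne_zero x
  have hden' : algebraMap ℚ[X] (RatFunc ℚ) (RatFunc.denom x) ≠ 0 := by
    intro h
    apply hden
    exact (map_eq_zero_iff _ (IsFractionRing.injective ℚ[X] (RatFunc ℚ))).mp h
  refine ⟨C b2 * g1, C b1 * g2, ?_, ?_⟩
  · refine mul_ne_zero (by simpa using hb1) ?_
    intro h
    rw [h, Polynomial.map_zero] at hg2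
    have : C (b2 : ℚ) * RatFunc.denom x ≠ 0 :=
      mul_ne_zero (by simpa using hb2) hden
    exact this hg2.symm
  · rw [Polynomial.map_mul, Polynomial.map_mul, hg1, hg2]
    have hx := RatFunc.num_div_denom x
    have hx2 : x * algebraMap ℚ[X] (RatFunc ℚ) (RatFunc.denom x) =
        algebraMap ℚ[X] (RatFunc ℚ) (RatFunc.num x) := by
      rw [← eq_div_iff hden', hx]
    simp only [map_mul, Polynomial.map_C]
    rw [← hx2]
    simp only [eq_intCast]
    ring

theorem rat (p : ℕ) [Fact p.Prime] (A B : ℤ[X])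
    (h : NoPt (A.map (Int.castRingHom ℤ_[p])) (B.map (Int.castRingHom ℤ_[p]))) :
    ∀ x y : RatFunc ℚ, y ^ 2 = x * (x - algebraMap ℚ[X] (RatFunc ℚ) (A.map (Int.castRingHom ℚ))) *
      (x - algebraMap ℚ[X] (RatFunc ℚ) (B.map (Int.castRingHom ℚ))) → y = 0 := by
  intro x y hxy
  obtain ⟨E, hE⟩ : ∃ E : ℤ[X] →+* RatFunc ℚ,
      ∀ f, algebraMap ℚ[X] (RatFunc ℚ) (f.map (Int.castRingHom ℚ)) = E f :=
    ⟨(algebraMap ℚ[X] (RatFunc ℚ)).comp (Polynomial.mapRingHom (Int.castRingHom ℚ)), fun f => rfl⟩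
  have hEinj : ∀ f, E f = 0 → f = 0 := by
    intro f hf
    rw [← hE] at hf
    have h1 := (map_eq_zero_iff _ (IsFractionRing.injective ℚ[X] (RatFunc ℚ))).mp hf
    have h2 : Function.Injective (Polynomial.map (Int.castRingHom ℚ)) :=
      Polynomial.map_injective _ Int.cast_injective
    exact h2 (by rw [h1, Polynomial.map_zero])
  obtain ⟨nx, dx, hdx, hx⟩ := rat_frac x
  obtain ⟨ny, dy, hdy, hy⟩ := rat_frac y
  rw [hE, hE] at hx hy hxy
  have hdx' : E dx ≠ 0 := fun h => hdx (hEinj _ h)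
  have hdy' : E dy ≠ 0 := fun h => hdy (hEinj _ h)
  have hxe : x = E nx / E dx := by
    rw [eq_div_iff hdx']
    exact hx
  have hye : y = E ny / E dy := by
    rw [eq_div_iff hdy']
    exact hy
  -- common denominator
  have key : E ((ny * dx) ^ 2 * (dx * dy) - (nx * dy) * (nx * dy - A * (dx * dy)) *
      (nx * dy - B * (dx * dy))) = 0 := by
    simp only [map_sub, map_mul, map_pow]
    rw [hxe, hye] at hxy
    field_simp at hxy
    linear_combination (E dy) * hxy
  have key2 := hEinj _ key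
  have key3 : (ny * dx) ^ 2 * (dx * dy) = (nx * dy) * (nx * dy - A * (dx * dy)) *
      (nx * dy - B * (dx * dy)) := sub_eq_zero.mp key2
  obtain ⟨c, hc⟩ : ∃ c, c = dx * dy := ⟨_, rfl⟩
  have hc0 : c ≠ 0 := by
    rw [hc]
    exact mul_ne_zero hdx hdy
  have hinj : Function.Injective (Polynomial.map (Int.castRingHom ℤ_[p])) :=
    Polynomial.map_injective _ Int.cast_injective
  have hYZ := h ((nx * dy * c).map (Int.castRingHom ℤ_[p]))
    ((ny * dx * c ^ 2).map (Int.castRingHom ℤ_[p])) (c.map (Int.castRingHom ℤ_[p]))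
    (by
      intro h0
      apply hc0
      apply hinj
      rw [h0, Polynomial.map_zero])
    (by
      rw [← Polynomial.map_pow, ← Polynomial.map_pow, ← Polynomial.map_mul, ← Polynomial.map_mul,
        ← Polynomial.map_sub, ← Polynomial.map_sub, ← Polynomial.map_mul, ← Polynomial.map_mul]
      congr 1
      rw [← hc] at key3
      linear_combination c ^ 3 * key3)
  have hb : ny * dx * c ^ 2 = 0 := by
    apply hinj
    rw [hYZ, Polynomial.map_zero]
  have hny : ny = 0 := by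
    rcases mul_eq_zero.mp hb with h1 | h1
    · rcases mul_eq_zero.mp h1 with h2 | h2
      · exact h2
      · exact absurd h2 hdx
    · exact absurd h1 (pow_ne_zero 2 hc0)
  rw [hye, hny, map_zero, zero_div]

end Pool.Agent.H94.AA
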