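import Pool.Agent.H94.AA.Defs

set_option autoImplicit false

/-!
# [H94 AA SQD] Squarefree parts in a unique factorisation domain

* `sqd`: well-founded induction on `DvdNotUnit`: if `f` is squarefree take `s = f`, `u = 1`; otherwise `x * x ∣ f` for a non-unit `x`, `f = x ^ 2 * g`, `g = s * u ^ 2`, `f = s * (x * u) ^ 2`.
* `sqg`: from `s * u ^ 2 * g = Y ^ 2`: `u ^ 2 ∣ Y ^ 2`, so `u ∣ Y` (`pow_dvd_pow_iff` in a UFD / GCD monoid, `IsIntegrallyClosed`), `Y = u * T`, `s * g = T ^ 2`; `s ∣ T ^ 2`, `s` squarefree: `s ∣ T` (`Squarefree.dvd_pow_iff_dvd`), so `s ^ 2 ∣ s * g` and `s ∣ g` (`s ≠ 0`; if `s = 0` then `s` squarefree is impossible in a nontrivial ring).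
* `sdv`: `X = s * u ^ 2`: `s ∣ (X - a * Z ^ 2) * (X - b * Z ^ 2)` by `sqg`, and `s ∣ X`, so `s ∣ a * b * Z ^ 4`; `s` is relatively prime to `Z` because `s ∣ X` (`IsRelPrime.of_dvd..`), so `s ∣ a * b` (`IsRelPrime.dvd_of_dvd_mul_right`, `IsRelPrime.pow_right`).
* `unq`: over a field: `s * u ^ 2 = t * w ^ 2` with `s` squarefree, `u, w ≠ 0` implies `s ∣ t`: multiply by `s`: `w ^ 2 ∣ (s * u) ^ 2`, `w ∣ s * u = w * T`, `T ^ 2 = s * t`, so `s ∣ T`, `s ^ 2 ∣ s * t`, `s ∣ t`.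
-/

namespace Pool.Agent.H94.AA

variable {D : Type} [CommRing D] [IsDomain D] [UniqueFactorizationMonoid D]

theorem sqd {f : D} (hf : f ≠ 0) : ∃ s u : D, Squarefree s ∧ u ≠ 0 ∧ f = s * u ^ 2 := by
  induction f using (wellFounded_dvdNotUnit (α := D)).induction with
  | _ f ih =>
    by_cases hs : Squarefree f
    · exact ⟨f, 1, hs, one_ne_zero, by ring⟩
    · unfold Squarefree at hs
      push Not at hs
      obtain ⟨x, ⟨g, hg⟩, hx⟩ := hs
      have hx0 : x ≠ 0 := by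
        rintro rfl
        apply hf
        rw [hg]
        ring
      have hg0 : g ≠ 0 := by
        rintro rfl
        apply hf
        rw [hg]
        ring
      obtain ⟨s, u, h1, h2, h3⟩ := ih g ⟨hg0, x * x, fun h => hx (isUnit_of_mul_isUnit_left h),
        by rw [hg]; ring⟩ hg0
      exact ⟨s, x * u, h1, mul_ne_zero hx0 h2, by rw [hg, h3]; ring⟩

theorem sqg {s u g Y : D} (hs : Squarefree s) (hu : u ≠ 0) (h : s * u ^ 2 * g = Y ^ 2) : s ∣ g := by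
  have h1 : u ^ 2 ∣ Y ^ 2 := ⟨s * g, by rw [← h]; ring⟩
  rw [UniqueFactorizationMonoid.pow_dvd_pow_iff_dvd two_ne_zero] at h1
  obtain ⟨T, rfl⟩ := h1
  have h2 : s * g = T ^ 2 := by
    have h3 : u ^ 2 * (s * g) = u ^ 2 * T ^ 2 := by
      calc u ^ 2 * (s * g) = s * u ^ 2 * g := by ring
        _ = (u * T) ^ 2 := h
        _ = u ^ 2 * T ^ 2 := by ring
    exact mul_left_cancel₀ (pow_ne_zero 2 hu) h3
  have h3 : s ∣ T ^ 2 := ⟨g, h2.symm⟩
  rw [hs.dvd_pow_iff_dvd two_ne_zero] at h3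
  obtain ⟨T', rfl⟩ := h3
  have hs0 : s ≠ 0 := hs.ne_zero
  refine ⟨T' ^ 2, mul_left_cancel₀ hs0 ?_⟩
  rw [h2]
  ring

theorem sdv {a b X Y Z s u : D} (hr : IsRelPrime X Z) (hs : Squarefree s) (hu : u ≠ 0)
    (hX : X = s * u ^ 2) (h : Y ^ 2 = X * (X - a * Z ^ 2) * (X - b * Z ^ 2)) : s ∣ a * b := by
  have h1 : s ∣ (X - a * Z ^ 2) * (X - b * Z ^ 2) := by
    apply sqg (Y := Y) hs hu
    rw [h, ← hX]
    ring
  have h2 : s ∣ X := ⟨u ^ 2, hX⟩
  have h3 : s ∣ a * b * Z ^ 4 := by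
    have h4 : a * b * Z ^ 4 = (X - a * Z ^ 2) * (X - b * Z ^ 2) -
        X * (X - a * Z ^ 2 - b * Z ^ 2) := by ring
    rw [h4]
    exact dvd_sub h1 (h2.mul_right _)
  have h4 : IsRelPrime s (Z ^ 4) := by
    apply IsRelPrime.pow_right
    exact hr.of_dvd_left h2
  exact h4.dvd_of_dvd_mul_right h3

theorem unq {s t u w : D} (hs : Squarefree s) (hu : u ≠ 0) (hw : w ≠ 0)
    (h : s * u ^ 2 = t * w ^ 2) : s ∣ t := by
  have h1 : w ^ 2 ∣ (s * u) ^ 2 := ⟨s * t, by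
    calc (s * u) ^ 2 = s * (s * u ^ 2) := by ring
      _ = s * (t * w ^ 2) := by rw [h]
      _ = w ^ 2 * (s * t) := by ring⟩
  rw [UniqueFactorizationMonoid.pow_dvd_pow_iff_dvd two_ne_zero] at h1
  obtain ⟨T, hT⟩ := h1
  have h2 : s * t = T ^ 2 := by
    have h3 : w ^ 2 * (s * t) = w ^ 2 * T ^ 2 := by
      calc w ^ 2 * (s * t) = s * (t * w ^ 2) := by ring
        _ = s * (s * u ^ 2) := by rw [h]
        _ = (s * u) ^ 2 := by ring
        _ = (w * T) ^ 2 := by rw [hT]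
        _ = w ^ 2 * T ^ 2 := by ring
    exact mul_left_cancel₀ (pow_ne_zero 2 hw) h3
  have h3 : s ∣ T ^ 2 := ⟨t, h2.symm⟩
  rw [hs.dvd_pow_iff_dvd two_ne_zero] at h3
  obtain ⟨T', rfl⟩ := h3
  refine ⟨T' ^ 2, mul_left_cancel₀ hs.ne_zero ?_⟩
  rw [h2]
  ring

end Pool.Agent.H94.AA
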