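import Pool.Agent.H94.AA.SQD
import Pool.Agent.H94.AA.RED

set_option autoImplicit false

/-!
# [H94 AA SQS] The three factors are squares

`x = X / Z ^ 2` in lowest terms with `Z̄ = 0`.  Then `X̄ ≠ 0` (`red_ne`) and the reductions of `f₀ = X`, `f₁ = X - A Z ^ 2`, `f₂ = X - B Z ^ 2` are all `X̄`; none of them is zero.
Write `fᵢ = sᵢ uᵢ ^ 2` with `sᵢ` squarefree (`sqd`).  By `sdv`: `s₀ ∣ A B`; applied to `f₁` with `(a, b) = (- A, B - A)` (`f₀ = f₁ + A Z ^ 2`, `f₂ = f₁ - (B - A) Z ^ 2`; `f₁` and `Z` are relatively prime): `s₁ ∣ A (A - B)`; in the same way `s₂ ∣ B (A - B)`.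
Modulo `ϖ`: `s̄ᵢ` divides `Ā B̄`, `Ā (Ā - B̄)`, `B̄ (Ā - B̄)`, which are squarefree, so `s̄ᵢ` is squarefree; `X̄ = s̄ᵢ ūᵢ ^ 2 ≠ 0`, so by `unq` `s̄₀ ∣ s̄₁`, `s̄₀ ∣ s̄₂` and `s̄ᵢ ∣ s̄ⱼ` for all `i, j`.
`Ā B̄` is coprime to ... : `s̄₀ ∣ Ā B̄`, `s̄₀ ∣ Ā (Ā - B̄)`, `s̄₀ ∣ B̄ (Ā - B̄)`: with `cop` the ideal generated by the three products is everything (`gcd (Ā (Ā - B̄), B̄ (Ā - B̄)) = Ā - B̄`, which is coprime to `Ā B̄`), so `s̄₀` is a unit; in the same way `s̄₁`, `s̄₂` (they divide each other).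
By `dv_unit` (`f = A B`, `deg (A B) = 2 d = deg (Ā B̄)`) `sᵢ = C cᵢ`, `φ cᵢ ≠ 0`.
Leading coefficients over `k` of `X̄ = C (φ cᵢ) ūᵢ ^ 2`: `φ c₀ l₀ ^ 2 = φ c₁ l₁ ^ 2 = φ c₂ l₂ ^ 2 ≠ 0`, and of `Ȳ ^ 2 = X̄ ^ 3`: `lc (X̄) ^ 3` is a square, so `lc (X̄)` is a square, so `φ cᵢ` is a square in `k`; by `r.sq` `cᵢ` is a square in `R` and `fᵢ` is a square.
Signs: `Ū ^ 2 = V̄ ^ 2 = W̄ ^ 2` in the domain `k[X]`, so `V̄ = ± Ū`; replace `V` by `- V` and `W` by `- W` where necessary.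
-/

namespace Pool.Agent.H94.AA

open Polynomial

variable {R k : Type} [CommRing R] [IsDomain R] [UniqueFactorizationMonoid R] [Field k] {r : Rd R k}
  {d : ℕ} {A B : R[X]}

private theorem sqs_aux {f s u F : R[X]} {x y : k[X]} (hf : f.map r.φ = x) (hx : x ≠ 0)
    (hy : y ^ 2 = x * x * x) (hs : s ∣ F) (hF : F.natDegree ≤ (F.map r.φ).natDegree)
    (hF0 : F.map r.φ ≠ 0) (hu : IsUnit (s.map r.φ)) (hfs : f = s * u ^ 2) :
    ∃ U : R[X], f = U ^ 2 := by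
  obtain ⟨c, rfl, hc⟩ := dv_unit hs hF hF0 hu
  have h1 : x = C (r.φ c) * (u.map r.φ) ^ 2 := by
    rw [← hf, hfs, Polynomial.map_mul, Polynomial.map_pow, map_C]
  have hu0 : u.map r.φ ≠ 0 := by
    intro h
    apply hx
    rw [h1, h]
    ring
  have h2 : x.leadingCoeff = r.φ c * (u.map r.φ).leadingCoeff ^ 2 := by
    conv_lhs => rw [h1]
    rw [leadingCoeff_mul, leadingCoeff_C, leadingCoeff_pow]
  have h3 : y.leadingCoeff ^ 2 = x.leadingCoeff * x.leadingCoeff * x.leadingCoeff := by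
    rw [← leadingCoeff_pow, hy, leadingCoeff_mul, leadingCoeff_mul]
  have hx0 : x.leadingCoeff ≠ 0 := leadingCoeff_ne_zero.2 hx
  have hu0' : (u.map r.φ).leadingCoeff ≠ 0 := leadingCoeff_ne_zero.2 hu0
  have h4 : IsSquare (r.φ c) := by
    refine ⟨y.leadingCoeff / (x.leadingCoeff * (u.map r.φ).leadingCoeff), ?_⟩
    have h5 : y.leadingCoeff / (x.leadingCoeff * (u.map r.φ).leadingCoeff) *
        (y.leadingCoeff / (x.leadingCoeff * (u.map r.φ).leadingCoeff)) =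
        y.leadingCoeff ^ 2 / (x.leadingCoeff * (u.map r.φ).leadingCoeff) ^ 2 := by
      field_simp
    rw [h5, h3, eq_div_iff (pow_ne_zero 2 (mul_ne_zero hx0 hu0'))]
    calc r.φ c * (x.leadingCoeff * (u.map r.φ).leadingCoeff) ^ 2
        = (r.φ c * (u.map r.φ).leadingCoeff ^ 2) * x.leadingCoeff ^ 2 := by ring
      _ = x.leadingCoeff * x.leadingCoeff ^ 2 := by rw [← h2]
      _ = x.leadingCoeff * x.leadingCoeff * x.leadingCoeff := by ring
  obtain ⟨e, he⟩ := r.sq c hc h4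
  refine ⟨C e * u, ?_⟩
  rw [hfs, he, C_mul]
  ring

theorem sqs (h : St r d A B) {X Y Z : R[X]} (hr : IsRelPrime X Z) (hZ : Z.map r.φ = 0)
    (hY : Y ^ 2 = X * (X - A * Z ^ 2) * (X - B * Z ^ 2)) :
    ∃ U V W : R[X], X = U ^ 2 ∧ X - A * Z ^ 2 = V ^ 2 ∧ X - B * Z ^ 2 = W ^ 2 ∧
      V.map r.φ = U.map r.φ ∧ W.map r.φ = U.map r.φ := by
  obtain ⟨f1, hf1⟩ : ∃ f1, f1 = X - A * Z ^ 2 := ⟨_, rfl⟩
  obtain ⟨f2, hf2⟩ : ∃ f2, f2 = X - B * Z ^ 2 := ⟨_, rfl⟩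
  rw [← hf1, ← hf2] at hY ⊢
  have hX0 := red_ne r hr hZ
  have hm1 : f1.map r.φ = X.map r.φ := by
    rw [hf1, Polynomial.map_sub, Polynomial.map_mul, Polynomial.map_pow, hZ]
    ring
  have hm2 : f2.map r.φ = X.map r.φ := by
    rw [hf2, Polynomial.map_sub, Polynomial.map_mul, Polynomial.map_pow, hZ]
    ring
  have hne : ∀ f : R[X], f.map r.φ = X.map r.φ → f ≠ 0 := by
    rintro f hf rfl
    apply hX0
    rw [← hf, Polynomial.map_zero]
  have hr1 : IsRelPrime f1 Z := by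
    intro e he1 he2
    apply hr _ he2
    have h1 : X = f1 + A * Z ^ 2 := by rw [hf1]; ring
    rw [h1]
    exact dvd_add he1 (((he2.trans (dvd_pow_self Z two_ne_zero))).mul_left A)
  have hr2 : IsRelPrime f2 Z := by
    intro e he1 he2
    apply hr _ he2
    have h1 : X = f2 + B * Z ^ 2 := by rw [hf2]; ring
    rw [h1]
    exact dvd_add he1 (((he2.trans (dvd_pow_self Z two_ne_zero))).mul_left B)
  obtain ⟨s0, u0, hs0, hu0, e0⟩ := sqd (hne X rfl)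
  obtain ⟨s1, u1, hs1, hu1, e1⟩ := sqd (hne f1 hm1)
  obtain ⟨s2, u2, hs2, hu2, e2⟩ := sqd (hne f2 hm2)
  have d0 : s0 ∣ A * B := sdv hr hs0 hu0 e0 (by rw [hY, hf1, hf2])
  have d1 : s1 ∣ A * (A - B) := by
    have h1 := sdv (a := -A) (b := B - A) (Y := Y) hr1 hs1 hu1 e1 (by rw [hY, hf1, hf2]; ring)
    rwa [show -A * (B - A) = A * (A - B) by ring] at h1
  have d2 : s2 ∣ B * (A - B) := by
    have h1 := sdv (a := -B) (b := A - B) (Y := Y) hr2 hs2 hu2 e2 (by rw [hY, hf1, hf2]; ring)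
    rw [show -B * (A - B) = -(B * (A - B)) by ring] at h1
    exact (dvd_neg).1 h1
  -- reductions
  obtain ⟨a, ha⟩ : ∃ a, a = A.map r.φ := ⟨_, rfl⟩
  obtain ⟨b, hb⟩ : ∃ b, b = B.map r.φ := ⟨_, rfl⟩
  obtain ⟨c, hc⟩ : ∃ c, c = (A - B).map r.φ := ⟨_, rfl⟩
  obtain ⟨x, hx⟩ : ∃ x, x = X.map r.φ := ⟨_, rfl⟩
  have hsq := h.sqf
  obtain ⟨c1, c2, c3⟩ := cop h
  have hA0 := h.rA
  have hB0 := h.rB
  have hAB0 := h.rAB
  rw [← ha, ← hb, ← hc] at hsq
  rw [← ha, ← hb] at c1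
  rw [← ha, ← hc] at c2
  rw [← hb, ← hc] at c3
  have hane : a ≠ 0 := by
    rintro rfl
    apply hsq.ne_zero
    ring
  have hbne : b ≠ 0 := by
    rintro rfl
    apply hsq.ne_zero
    ring
  have hcne : c ≠ 0 := by
    rintro rfl
    apply hsq.ne_zero
    ring
  have t0 : s0.map r.φ ∣ a * b := by
    rw [ha, hb, ← Polynomial.map_mul]
    exact Polynomial.map_dvd _ d0
  have t1 : s1.map r.φ ∣ a * c := by
    rw [ha, hc, ← Polynomial.map_mul]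
    exact Polynomial.map_dvd _ d1
  have t2 : s2.map r.φ ∣ b * c := by
    rw [hb, hc, ← Polynomial.map_mul]
    exact Polynomial.map_dvd _ d2
  have q0 : Squarefree (s0.map r.φ) := hsq.squarefree_of_dvd (t0.trans (dvd_mul_right _ _))
  have q1 : Squarefree (s1.map r.φ) := hsq.squarefree_of_dvd
    (t1.trans ⟨b, by ring⟩)
  have q2 : Squarefree (s2.map r.φ) := hsq.squarefree_of_dvd
    (t2.trans ⟨a, by ring⟩)
  have g0 : x = s0.map r.φ * (u0.map r.φ) ^ 2 := by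
    rw [hx]
    conv_lhs => rw [e0]
    rw [Polynomial.map_mul, Polynomial.map_pow]
  have g1 : x = s1.map r.φ * (u1.map r.φ) ^ 2 := by
    rw [hx, ← hm1]
    conv_lhs => rw [e1]
    rw [Polynomial.map_mul, Polynomial.map_pow]
  have g2 : x = s2.map r.φ * (u2.map r.φ) ^ 2 := by
    rw [hx, ← hm2]
    conv_lhs => rw [e2]
    rw [Polynomial.map_mul, Polynomial.map_pow]
  rw [← hx] at hX0 hm1 hm2
  have v0 : u0.map r.φ ≠ 0 := by
    intro h
    apply hX0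
    rw [g0, h]
    ring
  have v1 : u1.map r.φ ≠ 0 := by
    intro h
    apply hX0
    rw [g1, h]
    ring
  have v2 : u2.map r.φ ≠ 0 := by
    intro h
    apply hX0
    rw [g2, h]
    ring
  have w01 : s0.map r.φ ∣ s1.map r.φ := unq q0 v0 v1 (by rw [← g0, ← g1])
  have w02 : s0.map r.φ ∣ s2.map r.φ := unq q0 v0 v2 (by rw [← g0, ← g2])
  have w10 : s1.map r.φ ∣ s0.map r.φ := unq q1 v1 v0 (by rw [← g0, ← g1])
  have w20 : s2.map r.φ ∣ s0.map r.φ := unq q2 v2 v0 (by rw [← g0, ← g2])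
  have hunit0 : IsUnit (s0.map r.φ) := by
    have h1 : s0.map r.φ ∣ c := by
      obtain ⟨m, n, hmn⟩ := c1
      have h2 : c = m * (a * c) + n * (b * c) := by
        calc c = 1 * c := (one_mul c).symm
          _ = (m * a + n * b) * c := by rw [hmn]
          _ = _ := by ring
      rw [h2]
      exact dvd_add ((w01.trans t1).mul_left m) ((w02.trans t2).mul_left n)
    have h2 : IsCoprime (a * b) c := c2.mul_left c3
    exact h2.isUnit_of_dvd' t0 h1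
  have hunit1 : IsUnit (s1.map r.φ) := isUnit_of_dvd_unit w10 hunit0
  have hunit2 : IsUnit (s2.map r.φ) := isUnit_of_dvd_unit w20 hunit0
  -- degrees
  obtain ⟨n1, n2, n3⟩ := deg_A h
  have hA1 : A ≠ 0 := by
    rintro rfl
    apply hane
    rw [ha]
    simp
  have hB1 : B ≠ 0 := by
    rintro rfl
    apply hbne
    rw [hb]
    simp
  have hAB1 : A - B ≠ 0 := by
    intro h
    apply hcne
    rw [hc, h]
    simp
  rw [← ha] at hA0
  rw [← hb] at hB0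
  rw [← hc] at hAB0
  have hy : (Y.map r.φ) ^ 2 = x * x * x := by
    rw [← Polynomial.map_pow, hY, Polynomial.map_mul, Polynomial.map_mul, hm1, hm2, ← hx]
  obtain ⟨U, hU⟩ := sqs_aux (F := A * B) (x := x) (y := Y.map r.φ) hx.symm hX0 hy d0 (by
      rw [Polynomial.map_mul, ← ha, ← hb, natDegree_mul hA1 hB1, natDegree_mul hane hbne, n1, n2,
        hA0, hB0]) (by
      rw [Polynomial.map_mul, ← ha, ← hb]
      exact mul_ne_zero hane hbne) hunit0 e0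
  obtain ⟨V, hV⟩ := sqs_aux (F := A * (A - B)) (x := x) (y := Y.map r.φ) hm1 hX0 hy d1 (by
      rw [Polynomial.map_mul, ← ha, ← hc, natDegree_mul hA1 hAB1, natDegree_mul hane hcne, n1, n3,
        hA0, hAB0]) (by
      rw [Polynomial.map_mul, ← ha, ← hc]
      exact mul_ne_zero hane hcne) hunit1 e1
  obtain ⟨W, hW⟩ := sqs_aux (F := B * (A - B)) (x := x) (y := Y.map r.φ) hm2 hX0 hy d2 (by
      rw [Polynomial.map_mul, ← hb, ← hc, natDegree_mul hB1 hAB1, natDegree_mul hbne hcne, n2, n3,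
        hB0, hAB0]) (by
      rw [Polynomial.map_mul, ← hb, ← hc]
      exact mul_ne_zero hbne hcne) hunit2 e2
  -- signs
  have sgn : ∀ {T f : R[X]}, f = T ^ 2 → f.map r.φ = x →
      ∃ T' : R[X], f = T' ^ 2 ∧ T'.map r.φ = U.map r.φ := by
    intro T f hT hf
    have h1 : (T.map r.φ) ^ 2 = (U.map r.φ) ^ 2 := by
      rw [← Polynomial.map_pow, ← Polynomial.map_pow, ← hT, ← hU, hf, hx]
    rcases sq_eq_sq_iff_eq_or_eq_neg.1 h1 with h2 | h2
    · exact ⟨T, hT, h2⟩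
    · exact ⟨-T, by rw [hT]; ring, by rw [Polynomial.map_neg, h2, neg_neg]⟩
  obtain ⟨V', hV1, hV2⟩ := sgn hV hm1
  obtain ⟨W', hW1, hW2⟩ := sgn hW hm2
  exact ⟨U, V', W', hU, hV1, hW1, hV2, hW2⟩

end Pool.Agent.H94.AA
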