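import Pool.Agent.H94.AA.SQS
import Pool.Agent.H94.AA.HAL
import Pool.Agent.H94.AA.DGL

set_option autoImplicit false

/-!
# [H94 AA TRN] The descent and the transfer

* `des`: strong induction on `X.natDegree`: `sqs`, `hal`, `sqs` for `(X₁, Z₁)`, `dgl` (`X ≠ 0` by `red_ne`), induction hypothesis for `(X₁, Y₁, Z₁)`.
* `trn`: suppose `Y ^ 2 = X (X - A Z ^ 2) (X - B Z ^ 2)`, `Z ≠ 0`, `Y ≠ 0`.  By `low` we may suppose that `X`, `Z` are relatively prime (`Y' ≠ 0` since `Y' Z ^ 3 = Y Z' ^ 3`).  If `Z̄ = 0`: `des`.  Otherwise the hypothesis over `k` for `(X̄, Ȳ, Z̄)` gives `Ȳ = 0`, so `X̄ = 0` or `X̄ = Ā Z̄ ^ 2` or `X̄ = B̄ Z̄ ^ 2`.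
  Let `f₀ = X`, `f₁ = X - A Z ^ 2`, `f₂ = X - B Z ^ 2` (not zero).  If `f̄₀ = 0`: the translated point is `x' = A B / x`: `(A B Z f₀, A B Y .., f₀)`: put `Z' = f₀`, `X' = A B Z ^ 2 f₀`; then `X' - A Z' ^ 2 = A f₀ (B Z ^ 2 - f₀) = - A f₀ f₂`, `X' - B Z' ^ 2 = - B f₀ f₁`, the product of the three is `A B Z ^ 2 f₀ * A f₀ f₂ * B f₀ f₁ = A ^ 2 B ^ 2 Z ^ 2 f₀ ^ 2 Y ^ 2 = (A B Z f₀ Y) ^ 2`.
  `low` gives `(X₂, Y₂, Z₂)` in lowest terms with `X₂ Z' ^ 2 = X' Z₂ ^ 2`, i.e. `X₂ f₀ ^ 2 = A B Z ^ 2 f₀ Z₂ ^ 2`, `X₂ f₀ = A B Z ^ 2 Z₂ ^ 2`; modulo `ϖ`: `0 = Ā B̄ Z̄ ^ 2 Z̄₂ ^ 2`, so `Z̄₂ = 0`, contradiction to `des`.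
  If `f̄₁ = 0`: `x' = A + A (A - B) / (x - A)`: the same argument for the curve with `(A, B)` replaced by `(- A, B - A)` and `X` by `f₁` (`St r d (-A) (B - A)` holds: the three polynomials are `- A`, `B - A`, `- B`); `des` is applied to the new pair.  If `f̄₂ = 0`: `(A, B)` replaced by `(- B, A - B)`.
  It is practical to prove the case `f̄₀ = 0` first as a lemma for all `A`, `B` with `St`, and `St` for the two other pairs.
-/

namespace Pool.Agent.H94.AA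

open Polynomial

variable {R k : Type} [CommRing R] [IsDomain R] [UniqueFactorizationMonoid R] [Field k] {r : Rd R k}
  {d : ℕ} {A B : R[X]}

theorem des (h : St r d A B) (hd : Odd d) {X Y Z : R[X]} (hZ0 : Z ≠ 0) (hr : IsRelPrime X Z)
    (hZ : Z.map r.φ = 0) (hY : Y ^ 2 = X * (X - A * Z ^ 2) * (X - B * Z ^ 2)) : False := by
  obtain ⟨n, hn⟩ : ∃ n, n = X.natDegree := ⟨_, rfl⟩
  induction n using Nat.strong_induction_on generalizing X Y Z with
  | _ n ih =>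
    obtain ⟨U, V, W, hU, hV, hW, hVU, hWU⟩ := sqs h hr hZ hY
    obtain ⟨X1, Y1, Z1, g1, g2, g3, g4, g5⟩ := hal hr hZ0 hZ hU hV hW hVU hWU
    obtain ⟨U1, V1, W1, k1, k2, k3, -, -⟩ := sqs h g2 g3 g4
    have hX0 : X ≠ 0 := fun h0 => red_ne r hr hZ (by rw [h0, Polynomial.map_zero])
    have hlt := dgl h hd hX0 g2 g1 k1 k2 k3 g5
    exact ih X1.natDegree (by rw [hn]; exact hlt) g1 g2 g3 g4 rfl

private theorem red0 (h : St r d A B) (hd : Odd d) : A.map r.φ ≠ 0 ∧ B.map r.φ ≠ 0 := by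
  have h1 : d ≠ 0 := by
    rintro rfl
    exact absurd hd (by decide)
  constructor
  · intro h0
    have h2 := h.rA
    rw [h0, natDegree_zero] at h2
    exact h1 h2.symm
  · intro h0
    have h2 := h.rB
    rw [h0, natDegree_zero] at h2
    exact h1 h2.symm

private theorem zer (h : St r d A B) (hd : Odd d) {X Y Z : R[X]} (hZm : Z.map r.φ ≠ 0)
    (hX0 : X ≠ 0) (hXm : X.map r.φ = 0) (hY : Y ^ 2 = X * (X - A * Z ^ 2) * (X - B * Z ^ 2)) :
    False := by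
  obtain ⟨hA0, hB0⟩ := red0 h hd
  have h1 : (A * B * Z * X * Y) ^ 2 = (A * B * Z ^ 2 * X) * ((A * B * Z ^ 2 * X) - A * X ^ 2) *
      ((A * B * Z ^ 2 * X) - B * X ^ 2) := by
    linear_combination (A * B * Z * X) ^ 2 * hY
  obtain ⟨X2, Y2, Z2, g1, g2, g3, g4, g5⟩ := low hX0 h1
  have h2 : X2 * X = A * B * Z ^ 2 * Z2 ^ 2 := by
    refine mul_right_cancel₀ hX0 ?_
    linear_combination g3
  have h3 := congrArg (Polynomial.map r.φ) h2
  rw [Polynomial.map_mul, hXm, mul_zero, Polynomial.map_mul, Polynomial.map_mul,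
    Polynomial.map_mul, Polynomial.map_pow, Polynomial.map_pow] at h3
  have h4 : Z2.map r.φ = 0 := by
    rcases mul_eq_zero.1 h3.symm with h5 | h5
    · exact absurd h5 (mul_ne_zero (mul_ne_zero hA0 hB0) (pow_ne_zero 2 hZm))
    · exact pow_eq_zero_iff two_ne_zero |>.1 h5
  exact des h hd g1 g2 h4 g5

private theorem swp (h : St r d A B) : St r d B A := by
  refine ⟨h.dB, h.dA, h.rB, h.rA, ?_, ?_⟩
  · rw [← neg_sub A B, Polynomial.map_neg, natDegree_neg]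
    exact h.rAB
  · refine h.sqf.squarefree_of_dvd ?_
    rw [← neg_sub A B, Polynomial.map_neg, mul_neg, neg_dvd, mul_comm (B.map r.φ)]

private theorem sft (h : St r d A B) : St r d (-A) (B - A) := by
  refine ⟨?_, ?_, ?_, ?_, ?_, ?_⟩
  · rw [natDegree_neg]
    exact h.dA
  · exact (natDegree_sub_le _ _).trans (max_le h.dB h.dA)
  · rw [Polynomial.map_neg, natDegree_neg]
    exact h.rA
  · rw [← neg_sub A B, Polynomial.map_neg, natDegree_neg]
    exact h.rAB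
  · have h1 : -A - (B - A) = -B := by ring
    rw [h1, Polynomial.map_neg, natDegree_neg]
    exact h.rB
  · refine h.sqf.squarefree_of_dvd ?_
    have h1 : -A - (B - A) = -B := by ring
    rw [h1, ← neg_sub A B, Polynomial.map_neg, Polynomial.map_neg, Polynomial.map_neg]
    refine ⟨-1, ?_⟩
    ring

theorem trn (h : St r d A B) (hd : Odd d) (hk : NoPt (A.map r.φ) (B.map r.φ)) : NoPt A B := by
  intro X0 Y0 Z0 hZ00 hY00
  by_contra hY0
  obtain ⟨X, Y, Z, hZ0, hr, -, h2, hY⟩ := low hZ00 hY00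
  have hYn : Y ≠ 0 := by
    intro h0
    rw [h0, zero_mul] at h2
    exact mul_ne_zero hY0 (pow_ne_zero 3 hZ0) h2.symm
  by_cases hZm : Z.map r.φ = 0
  · exact des h hd hZ0 hr hZm hY
  have hprod : X * (X - A * Z ^ 2) * (X - B * Z ^ 2) ≠ 0 := by
    rw [← hY]
    exact pow_ne_zero 2 hYn
  have hX0 : X ≠ 0 := left_ne_zero_of_mul (left_ne_zero_of_mul hprod)
  have hX1 : X - A * Z ^ 2 ≠ 0 := right_ne_zero_of_mul (left_ne_zero_of_mul hprod)
  have hX2 : X - B * Z ^ 2 ≠ 0 := right_ne_zero_of_mul hprod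
  have hYm := congrArg (Polynomial.map r.φ) hY
  have h3 : Y.map r.φ = 0 := by
    refine hk (X.map r.φ) (Y.map r.φ) (Z.map r.φ) hZm ?_
    simpa [Polynomial.map_mul, Polynomial.map_pow, Polynomial.map_sub] using hYm
  rw [Polynomial.map_pow, h3, Polynomial.map_mul, Polynomial.map_mul, zero_pow two_ne_zero] at hYm
  rcases mul_eq_zero.1 hYm.symm with h4 | h4
  · rcases mul_eq_zero.1 h4 with h5 | h5
    · exact zer h hd hZm hX0 h5 hY
    · refine zer (Y := Y) (sft h) hd hZm hX1 h5 ?_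
      rw [hY]
      ring
  · refine zer (Y := Y) (sft (swp h)) hd hZm hX2 h4 ?_
    rw [hY]
    ring

end Pool.Agent.H94.AA
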